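import Mathlib

set_option autoImplicit false

/-!
# Random coalescing maps on a group

For a group `H` we construct equivariant random maps `pim k x : H → H` on the Bernoulli space
`H → [0,1]` which coalesce (`pim k x h = pim k x h'` persists) and whose fibres become large, using
only far away elements of the group.
-/

namespace Pool.Agent.H63.L1

open MeasureTheory Set
open scoped ENNReal Pointwise unitInterval

variable {H : Type*} [Group H]

/-- the space of labellings -/
abbrev Lab (H : Type*) : Type _ := H → unitInterval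

/-- the action on labellings -/
def act (g : H) (x : Lab H) : Lab H := fun h => x (g⁻¹ * h)

omit [Group H] in
/-- product measure -/
noncomputable def mu (H : Type*) : Measure (Lab H) := Measure.infinitePi (fun _ : H => volume)

instance : IsProbabilityMeasure (mu H) := by unfold mu; infer_instance

lemma act_mul (g h : H) (x : Lab H) : act (g * h) x = act g (act h x) := by
  funext a
  simp [act, mul_assoc]

lemma act_one (x : Lab H) : act (1 : H) x = x := by
  funext a
  simp [act]

lemma measurable_act (g : H) : Measurable (act g) := by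
  unfold act
  fun_prop

lemma map_act (g : H) : (mu H).map (act g) = mu H := by
  unfold mu
  apply Measure.eq_infinitePi
  intro s t ht
  classical
  rw [Measure.map_apply (measurable_act g) (MeasurableSet.pi s.countable_toSet fun i _ => ht i)]
  have : (act g) ⁻¹' (Set.pi s t) =
      Set.pi (s.image (fun h => g⁻¹ * h) : Finset H) (fun h => t (g * h)) := by
    ext x
    simp only [mem_preimage, Set.mem_pi, Finset.coe_image, Set.mem_image, Finset.mem_coe, act,
      forall_exists_index, and_imp, forall_apply_eq_imp_iff₂]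
    refine forall₂_congr (fun a _ => ?_)
    rw [mul_inv_cancel_left]
  rw [this, Measure.infinitePi_pi _ (fun i _ => ht _), Finset.prod_image]
  · apply Finset.prod_congr rfl
    intro i _
    rw [mul_inv_cancel_left]
  · intro a _ b _ hab
    exact mul_left_cancel hab

lemma mu_preimage_act (g : H) {A : Set (Lab H)} (hA : MeasurableSet A) :
    mu H (act g ⁻¹' A) = mu H A := by
  rw [← Measure.map_apply (measurable_act g) hA, map_act]

open Classical in
/-- first element in `a * Γ` with label at most `p`, or `a` -/
noncomputable def srch (p : unitInterval) (x : Lab H) (a : H) : List H → H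
  | [] => a
  | γ :: Γ => if x (a * γ) ≤ p then a * γ else srch p x a Γ

lemma srch_act (p : unitInterval) (g : H) (x : Lab H) (a : H) (Γ : List H) :
    srch p (act g x) (g * a) Γ = g * srch p x a Γ := by
  induction Γ with
  | nil => rfl
  | cons γ Γ ih =>
    have : act g x (g * a * γ) = x (a * γ) := by simp [act, mul_assoc]
    simp only [srch, this, ih]
    split_ifs
    · rw [mul_assoc]
    · rfl

lemma srch_mem (p : unitInterval) (x : Lab H) (a : H) (Γ : List H) :
    srch p x a Γ = a ∨ ∃ γ ∈ Γ, srch p x a Γ = a * γ := by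
  induction Γ with
  | nil => exact Or.inl rfl
  | cons γ Γ ih =>
    unfold srch
    split_ifs
    · exact Or.inr ⟨γ, by simp, rfl⟩
    · rcases ih with h | ⟨γ', h', h⟩
      · exact Or.inl h
      · exact Or.inr ⟨γ', List.mem_cons_of_mem _ h', h⟩

lemma srch_prop (p : unitInterval) (x : Lab H) (a : H) (Γ : List H) :
    x (srch p x a Γ) ≤ p ∨ (srch p x a Γ = a ∧ ∀ γ ∈ Γ, p < x (a * γ)) := by
  induction Γ with
  | nil => exact Or.inr ⟨rfl, by simp⟩
  | cons γ Γ ih =>
    unfold srch
    split_ifs with h
    · exact Or.inl h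
    · rcases ih with h' | ⟨h1, h2⟩
      · exact Or.inl h'
      · refine Or.inr ⟨h1, ?_⟩
        intro γ' hγ'
        rcases List.mem_cons.mp hγ' with rfl | hγ'
        · exact not_le.mp h
        · exact h2 γ' hγ'

lemma measurableSet_srch (p : unitInterval) (a b : H) (Γ : List H) :
    MeasurableSet {x : Lab H | srch p x a Γ = b} := by
  induction Γ with
  | nil =>
    by_cases h : a = b
    · simp [srch, h]
    · simp [srch, h]
  | cons γ Γ ih =>
    have hm : MeasurableSet {x : Lab H | x (a * γ) ≤ p} :=
      measurableSet_le (measurable_pi_apply _) measurable_const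
    have : {x : Lab H | srch p x a (γ :: Γ) = b} =
        ({x | x (a * γ) ≤ p} ∩ {x | a * γ = b}) ∪ ({x | x (a * γ) ≤ p}ᶜ ∩ {x | srch p x a Γ = b}) := by
      ext x
      simp only [srch, mem_ofPred_eq, mem_union, mem_inter_iff, mem_compl_iff]
      split_ifs with h
      · simp [h]
      · simp [h]
    rw [this]
    refine (hm.inter ?_).union (hm.compl.inter ih)
    by_cases h : a * γ = b
    · simp [h]
    · simp [h]

/-- The random maps. -/
noncomputable def pim (Γ : ℕ → List H) (p : ℕ → unitInterval) : ℕ → Lab H → H → H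
  | 0, _, h => h
  | k + 1, x, h => srch (p k) x (pim Γ p k x h) (Γ k)

section

variable (Γ : ℕ → List H) (p : ℕ → unitInterval)

lemma pim_act (k : ℕ) (g : H) (x : Lab H) (h : H) :
    pim Γ p k (act g x) (g * h) = g * pim Γ p k x h := by
  induction k with
  | zero => rfl
  | succ k ih => simp only [pim, ih, srch_act]

lemma pim_coal (k : ℕ) (x : Lab H) {h h' : H} (e : pim Γ p k x h = pim Γ p k x h') :
    pim Γ p (k + 1) x h = pim Γ p (k + 1) x h' := by
  simp only [pim, e]

lemma pim_coal_le {k l : ℕ} (hkl : k ≤ l) (x : Lab H) {h h' : H}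
    (e : pim Γ p k x h = pim Γ p k x h') : pim Γ p l x h = pim Γ p l x h' := by
  induction l, hkl using Nat.le_induction with
  | base => exact e
  | succ l _ ih => exact pim_coal Γ p l x ih

open Classical in
/-- possible displacements after `k` steps -/
noncomputable def Pf : ℕ → Finset H
  | 0 => {1}
  | k + 1 => Pf k ∪ (Pf k * (Γ k).toFinset)

lemma pim_mem (k : ℕ) (x : Lab H) (h : H) : ∃ u ∈ Pf Γ k, pim Γ p k x h = h * u := by
  classical
  induction k with
  | zero => exact ⟨1, by simp [Pf], by simp [pim]⟩
  | succ k ih =>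
    obtain ⟨u, hu, e⟩ := ih
    simp only [pim, Pf]
    rcases srch_mem (p k) x (pim Γ p k x h) (Γ k) with h1 | ⟨γ, hγ, h1⟩
    · exact ⟨u, Finset.mem_union_left _ hu, by rw [h1, e]⟩
    · refine ⟨u * γ, Finset.mem_union_right _ (Finset.mul_mem_mul hu (List.mem_toFinset.mpr hγ)), ?_⟩
      rw [h1, e, mul_assoc]

lemma measurableSet_pim (k : ℕ) (h b : H) : MeasurableSet {x : Lab H | pim Γ p k x h = b} := by
  classical
  induction k generalizing b with
  | zero =>
    by_cases e : h = b
    · simp [pim, e]
    · simp [pim, e]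
  | succ k ih =>
    have : {x : Lab H | pim Γ p (k + 1) x h = b} =
        ⋃ u ∈ Pf Γ k, ({x | pim Γ p k x h = h * u} ∩ {x | srch (p k) x (h * u) (Γ k) = b}) := by
      ext x
      simp only [pim, mem_ofPred_eq, mem_iUnion, mem_inter_iff, exists_prop]
      constructor
      · intro hx
        obtain ⟨u, hu, e⟩ := pim_mem Γ p k x h
        exact ⟨u, hu, e, by rw [← e]; exact hx⟩
      · rintro ⟨u, _, e, hx⟩
        rw [e]; exact hx
    rw [this]
    exact Finset.measurableSet_biUnion _ (fun u _ => (ih _).inter (measurableSet_srch _ _ _ _))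

/-- The event that `g⁻¹` and `1` have coalesced at time `k`. -/
def Dset (k : ℕ) (g : H) : Set (Lab H) := {x | pim Γ p k x g⁻¹ = pim Γ p k x 1}

lemma measurableSet_eq_pim (k : ℕ) (h h' : H) :
    MeasurableSet {x : Lab H | pim Γ p k x h = pim Γ p k x h'} := by
  have : {x : Lab H | pim Γ p k x h = pim Γ p k x h'} =
      ⋃ u ∈ Pf Γ k, ({x | pim Γ p k x h = h * u} ∩ {x | pim Γ p k x h' = h * u}) := by
    ext x
    simp only [mem_ofPred_eq, mem_iUnion, mem_inter_iff, exists_prop]
    constructor
    · intro hx
      obtain ⟨u, hu, e⟩ := pim_mem Γ p k x h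
      exact ⟨u, hu, e, by rw [← hx, e]⟩
    · rintro ⟨u, _, e, hx⟩
      rw [e, hx]
  rw [this]
  exact Finset.measurableSet_biUnion _
    (fun u _ => (measurableSet_pim Γ p k h _).inter (measurableSet_pim Γ p k h' _))

lemma measurableSet_Dset (k : ℕ) (g : H) : MeasurableSet (Dset Γ p k g) :=
  measurableSet_eq_pim Γ p k _ _

lemma Dset_mono {k l : ℕ} (hkl : k ≤ l) (g : H) : Dset Γ p k g ⊆ Dset Γ p l g :=
  fun x hx => pim_coal_le Γ p hkl x hx

open Classical in
/-- all `g` for which `Dset k g` can be nonempty -/
noncomputable def Ph (k : ℕ) : Finset H := Pf Γ k * (Pf Γ k)⁻¹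

lemma mem_Ph {k : ℕ} {g : H} {x : Lab H} (hx : x ∈ Dset Γ p k g) : g ∈ Ph Γ k := by
  classical
  obtain ⟨u, hu, e⟩ := pim_mem Γ p k x 1
  obtain ⟨u', hu', e'⟩ := pim_mem Γ p k x g⁻¹
  have h1 : g⁻¹ * u' = 1 * u := by rw [← e, ← e']; exact hx
  have : g = u' * u⁻¹ := by
    rw [one_mul] at h1
    rw [← h1]; group
  rw [this]
  exact Finset.mul_mem_mul hu' (Finset.inv_mem_inv hu)

open Classical in
/-- The number of `g` with `x ∈ Dset k g`, i.e. the size of the class of `1` at time `k`. -/
noncomputable def cls (k : ℕ) (x : Lab H) : Finset H := (Ph Γ k).filter (fun g => x ∈ Dset Γ p k g)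

lemma mem_cls {k : ℕ} {x : Lab H} {g : H} : g ∈ cls Γ p k x ↔ x ∈ Dset Γ p k g := by
  classical
  unfold cls
  rw [Finset.mem_filter]
  exact ⟨fun h => h.2, fun h => ⟨mem_Ph Γ p h, h⟩⟩

open Classical in
/-- the incoming set at `1` -/
noncomputable def inc (k : ℕ) (x : Lab H) : Finset H :=
  ((Pf Γ k)⁻¹).filter (fun h => pim Γ p k x h = 1)

lemma mem_inc {k : ℕ} {x : Lab H} {h : H} : h ∈ inc Γ p k x ↔ pim Γ p k x h = 1 := by
  classical
  unfold inc
  rw [Finset.mem_filter]
  refine ⟨fun h => h.2, fun hx => ⟨?_, hx⟩⟩
  obtain ⟨u, hu, e⟩ := pim_mem Γ p k x h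
  rw [hx] at e
  have : h = u⁻¹ := eq_inv_of_mul_eq_one_left e.symm
  rw [this]
  exact Finset.inv_mem_inv hu

lemma measurableSet_card_inc (k N : ℕ) : MeasurableSet {x : Lab H | (inc Γ p k x).card < N} := by
  classical
  have h1 : Measurable (fun x : Lab H => (inc Γ p k x).card) := by
    have : (fun x : Lab H => (inc Γ p k x).card)
        = fun x => ∑ h ∈ (Pf Γ k)⁻¹, if pim Γ p k x h = 1 then 1 else 0 := by
      funext x
      unfold inc
      rw [Finset.card_filter]
    rw [this]
    exact Finset.measurable_sum _ (fun h _ => Measurable.ite (measurableSet_pim Γ p k h 1)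
      measurable_const measurable_const)
  exact h1 (measurableSet_Iio (a := N))

/-- class and incoming set correspond under translation by the centre -/
lemma card_cls_eq (k : ℕ) (x : Lab H) (a : H) (ha : pim Γ p k x 1 = a) :
    (cls Γ p k x).card = (inc Γ p k (act a⁻¹ x)).card := by
  classical
  have key : ∀ h, pim Γ p k (act a⁻¹ x) h = a⁻¹ * pim Γ p k x (a * h) := by
    intro h
    rw [← pim_act]
    simp
  apply Finset.card_bij (fun g _ => a⁻¹ * g⁻¹)
  · intro g hg
    rw [mem_cls] at hg
    rw [mem_inc, key]
    have : pim Γ p k x (a * (a⁻¹ * g⁻¹)) = a := by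
      rw [mul_inv_cancel_left, ← ha]
      exact hg
    rw [this]
    simp
  · intro g _ g' _ e
    exact inv_injective (mul_left_cancel e)
  · intro h hh
    rw [mem_inc, key] at hh
    refine ⟨(a * h)⁻¹, ?_, by group⟩
    rw [mem_cls]
    show pim Γ p k x (a * h)⁻¹⁻¹ = pim Γ p k x 1
    rw [inv_inv, ha]
    exact (inv_mul_eq_one.mp hh).symm

/-- Mass transport bound. -/
lemma mu_small_cls (k N : ℕ) :
    mu H {x : Lab H | (cls Γ p k x).card < N} ≤ N * mu H {x | (inc Γ p k x).Nonempty} := by
  classical
  set E : H → Set (Lab H) := fun a => {y | pim Γ p k y a⁻¹ = 1} ∩ {y | (inc Γ p k y).card < N}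
    with hE
  have hEm : ∀ a, MeasurableSet (E a) := fun a =>
    (measurableSet_pim Γ p k _ _).inter (measurableSet_card_inc Γ p k N)
  have h1 : {x : Lab H | (cls Γ p k x).card < N} ⊆ ⋃ a ∈ Pf Γ k, act a⁻¹ ⁻¹' (E a) := by
    intro x hx
    obtain ⟨a, ha, e⟩ := pim_mem Γ p k x 1
    rw [one_mul] at e
    simp only [mem_iUnion, exists_prop]
    refine ⟨a, ha, ?_, ?_⟩
    · show pim Γ p k (act a⁻¹ x) a⁻¹ = 1
      have := pim_act Γ p k a⁻¹ x 1
      rw [mul_one, e] at this
      rw [this]
      simp
    · show (inc Γ p k (act a⁻¹ x)).card < N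
      rw [← card_cls_eq Γ p k x a e]
      exact hx
  calc mu H {x : Lab H | (cls Γ p k x).card < N}
      ≤ mu H (⋃ a ∈ Pf Γ k, act a⁻¹ ⁻¹' (E a)) := measure_mono h1
    _ ≤ ∑ a ∈ Pf Γ k, mu H (act a⁻¹ ⁻¹' (E a)) := measure_biUnion_finset_le _ _
    _ = ∑ a ∈ Pf Γ k, mu H (E a) := by
        apply Finset.sum_congr rfl
        intro a _
        rw [mu_preimage_act _ (hEm a)]
    _ = ∑ a ∈ Pf Γ k, ∫⁻ y, (E a).indicator 1 y ∂(mu H) := by
        apply Finset.sum_congr rfl
        intro a _
        rw [lintegral_indicator_one (hEm a)]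
    _ = ∫⁻ y, ∑ a ∈ Pf Γ k, (E a).indicator 1 y ∂(mu H) := by
        rw [lintegral_finsetSum]
        intro a _
        exact measurable_one.indicator (hEm a)
    _ ≤ ∫⁻ y, (N : ℝ≥0∞) * {x | (inc Γ p k x).Nonempty}.indicator 1 y ∂(mu H) := by
        apply lintegral_mono
        intro y
        simp only
        by_cases hN : (inc Γ p k y).card < N
        · have h2 : ∑ a ∈ Pf Γ k, (E a).indicator (1 : Lab H → ℝ≥0∞) y ≤ (inc Γ p k y).card := by
            have h3 : ∑ a ∈ Pf Γ k, (E a).indicator (1 : Lab H → ℝ≥0∞) y
                = ∑ a ∈ (Pf Γ k).filter (fun a => pim Γ p k y a⁻¹ = 1), 1 := by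
              rw [Finset.sum_filter]
              apply Finset.sum_congr rfl
              intro a _
              by_cases hh : pim Γ p k y a⁻¹ = 1
              · rw [if_pos hh, indicator_of_mem]
                · rfl
                · exact ⟨hh, hN⟩
              · rw [if_neg hh, indicator_of_notMem]
                intro h'
                exact hh h'.1
            rw [h3, Finset.sum_const, nsmul_eq_mul, mul_one]
            have h4 : ((Pf Γ k).filter (fun a => pim Γ p k y a⁻¹ = 1)).card
                ≤ (inc Γ p k y).card := by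
              apply Finset.card_le_card_of_injOn (fun a => a⁻¹)
              · intro a ha
                have ha := (Finset.mem_filter.mp ha).2
                exact (mem_inc Γ p).mpr ha
              · intro a _ b _ hab
                exact inv_injective hab
            exact_mod_cast h4
          by_cases hne : (inc Γ p k y).Nonempty
          · rw [indicator_of_mem (show y ∈ {x | (inc Γ p k x).Nonempty} from hne)]
            refine h2.trans ?_
            simp only [Pi.one_apply, mul_one]
            exact_mod_cast hN.le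
          · rw [indicator_of_notMem (show y ∉ {x | (inc Γ p k x).Nonempty} from hne), mul_zero]
            rw [Finset.not_nonempty_iff_eq_empty] at hne
            rw [hne] at h2
            simpa using h2
        · have : ∑ a ∈ Pf Γ k, (E a).indicator (1 : Lab H → ℝ≥0∞) y = 0 := by
            apply Finset.sum_eq_zero
            intro a _
            rw [indicator_of_notMem]
            intro h'
            exact hN h'.2
          rw [this]
          exact bot_le
    _ = N * mu H {x | (inc Γ p k x).Nonempty} := by
        have hm : MeasurableSet {x : Lab H | (inc Γ p k x).Nonempty} := by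
          have : {x : Lab H | (inc Γ p k x).Nonempty} = {x | (inc Γ p k x).card < 1}ᶜ := by
            ext x
            simp [Finset.nonempty_iff_ne_empty]
          rw [this]
          exact (measurableSet_card_inc Γ p k 1).compl
        rw [lintegral_const_mul _ (measurable_one.indicator hm), lintegral_indicator_one hm]

lemma mu_inc_nonempty (k : ℕ) (hnd : (Γ k).Nodup) :
    mu H {x : Lab H | (inc Γ p (k + 1) x).Nonempty} ≤
      ENNReal.ofReal (p k) + ENNReal.ofReal (1 - p k) ^ (Γ k).length := by
  classical
  have h1 : {x : Lab H | (inc Γ p (k + 1) x).Nonempty} ⊆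
      Set.pi (({1} : Finset H) : Set H) (fun _ => Iic (p k)) ∪
      Set.pi (((Γ k).toFinset : Finset H) : Set H) (fun _ => Ioi (p k)) := by
    rintro x ⟨h, hh⟩
    rw [mem_inc] at hh
    simp only [pim] at hh
    rcases srch_prop (p k) x (pim Γ p k x h) (Γ k) with h2 | ⟨h2, h3⟩
    · left
      rw [hh] at h2
      simpa using h2
    · right
      rw [hh] at h2
      rw [Set.mem_pi]
      intro γ hγ
      have := h3 γ (by simpa using hγ)
      rwa [← h2, one_mul] at this
  refine (measure_mono h1).trans ((measure_union_le _ _).trans ?_)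
  unfold mu
  rw [Measure.infinitePi_pi _ (fun _ _ => measurableSet_Iic),
    Measure.infinitePi_pi _ (fun _ _ => measurableSet_Ioi)]
  simp only [Finset.prod_const, Finset.card_singleton, pow_one, unitInterval.volume_Iic,
    unitInterval.volume_Ioi, List.toFinset_card_of_nodup hnd]
  exact le_rfl

end

end Pool.Agent.H63.L1
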