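import Mathlib
import Pool.Agent.H63.L1.Random

set_option autoImplicit false

/-!
# The descent step
-/

namespace Pool.Agent.H63.L1

open MeasureTheory Set Filter


variable {H : Type*} [Group H]

/-- translate of an event -/
def tr (g : H) (A : Set (Lab H)) : Set (Lab H) := act g⁻¹ ⁻¹' A

lemma measurableSet_tr (g : H) {A : Set (Lab H)} (hA : MeasurableSet A) :
    MeasurableSet (tr g A) := measurable_act _ hA

lemma mu_real_tr (g : H) {A : Set (Lab H)} (hA : MeasurableSet A) :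
    (mu H).real (tr g A) = (mu H).real A := by
  unfold Measure.real tr
  rw [mu_preimage_act _ hA]

/-- bounded sequences -/
def Bd {M : Type*} [Norm M] (u : ℕ → M) : Prop := ∃ K : ℝ, ∀ k, ‖u k‖ ≤ K

/-- A generalised limit on bounded sequences, equivariant under the operators `τ g`. -/
structure GenLim {M : Type*} [NormedAddCommGroup M] [NormedSpace ℂ M] (τ : H → M →L[ℂ] M)
    (L : (ℕ → M) → M) : Prop where
  add : ∀ u v, Bd u → Bd v → L (fun k => u k + v k) = L u + L v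
  smul : ∀ (c : ℂ) u, Bd u → L (fun k => c • u k) = c • L u
  bound : ∃ C : ℝ, 0 ≤ C ∧ ∀ u K, (∀ k, ‖u k‖ ≤ K) → ‖L u‖ ≤ C * K
  equiv : ∀ g u, Bd u → L (fun k => τ g (u k)) = τ g (L u)
  ev : ∀ u v, Bd u → Bd v → (∀ᶠ k in atTop, u k = v k) → L u = L v
  const : ∀ m, L (fun _ => m) = m

/-- The families of operators used in the descent. `Φ A` plays the role of the integral over the
event `A` of a random operator `W → M'` which is a splitting over the random equivalence relation. -/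
structure Fam (Γ : ℕ → List H) (p : ℕ → unitInterval) {W M' M : Type*}
    [NormedAddCommGroup W] [NormedSpace ℂ W] [NormedAddCommGroup M'] [NormedSpace ℂ M']
    [NormedAddCommGroup M] [NormedSpace ℂ M]
    (Z : Set W) (ρ : H → W →L[ℂ] W) (τ' : H → M' →L[ℂ] M') (b : M' →L[ℂ] M) (ψ : W →L[ℂ] M)
    (Φ : Set (Lab H) → W → M') : Prop where
  map_add : ∀ A, MeasurableSet A → ∀ z w, Φ A (z + w) = Φ A z + Φ A w
  map_smul : ∀ A, MeasurableSet A → ∀ (c : ℂ) z, Φ A (c • z) = c • Φ A z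
  union : ∀ A B, MeasurableSet A → MeasurableSet B → Disjoint A B → ∀ z,
    Φ (A ∪ B) z = Φ A z + Φ B z
  bound : ∃ K : ℝ, 0 ≤ K ∧ ∀ A, MeasurableSet A → ∀ z, ‖Φ A z‖ ≤ K * (mu H).real A * ‖z‖
  bd : ∀ A, MeasurableSet A → ∀ z ∈ Z, b (Φ A z) = ((mu H).real A : ℂ) • ψ z
  eqv : ∀ k g A, MeasurableSet A → A ⊆ Dset Γ p k g → ∀ z ∈ Z, Φ (tr g A) (ρ g z) = τ' g (Φ A z)

namespace Fam

variable {Γ : ℕ → List H} {p : ℕ → unitInterval} {W M' M : Type*}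
    [NormedAddCommGroup W] [NormedSpace ℂ W] [NormedAddCommGroup M'] [NormedSpace ℂ M']
    [NormedAddCommGroup M] [NormedSpace ℂ M]
    {Z : Set W} {ρ : H → W →L[ℂ] W} {τ' : H → M' →L[ℂ] M'} {b : M' →L[ℂ] M} {ψ : W →L[ℂ] M}
    {Φ : Set (Lab H) → W → M'}

lemma empty (hΦ : Fam Γ p Z ρ τ' b ψ Φ) (z : W) : Φ ∅ z = 0 := by
  have := hΦ.union ∅ ∅ MeasurableSet.empty MeasurableSet.empty (disjoint_empty _) z
  rw [union_self] at this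
  exact left_eq_add.mp this

lemma map_neg (hΦ : Fam Γ p Z ρ τ' b ψ Φ) {A : Set (Lab H)} (hA : MeasurableSet A) (z : W) :
    Φ A (-z) = -Φ A z := by
  have := hΦ.map_smul A hA (-1) z
  simpa using this

lemma map_sub (hΦ : Fam Γ p Z ρ τ' b ψ Φ) {A : Set (Lab H)} (hA : MeasurableSet A) (z w : W) :
    Φ A (z - w) = Φ A z - Φ A w := by
  rw [sub_eq_add_neg, hΦ.map_add A hA, hΦ.map_neg hA, ← sub_eq_add_neg]

/-- finite additivity -/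
lemma sum_biUnion (hΦ : Fam Γ p Z ρ τ' b ψ Φ) {ι : Type*} (S : Finset ι) (E : ι → Set (Lab H))
    (hE : ∀ i ∈ S, MeasurableSet (E i)) (hd : (S : Set ι).PairwiseDisjoint E) (z : W) :
    ∑ i ∈ S, Φ (E i) z = Φ (⋃ i ∈ S, E i) z := by
  classical
  induction S using Finset.induction_on with
  | empty => simp [hΦ.empty]
  | insert i S hi ih =>
    rw [Finset.sum_insert hi, Finset.set_biUnion_insert, hΦ.union]
    · rw [ih (fun j hj => hE j (Finset.mem_insert_of_mem hj))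
        (hd.subset (by exact_mod_cast Finset.subset_insert i S))]
    · exact hE i (Finset.mem_insert_self i S)
    · exact Finset.measurableSet_biUnion _ (fun j hj => hE j (Finset.mem_insert_of_mem hj))
    · rw [disjoint_iUnion₂_right]
      intro j hj
      apply hd (by simp) (by simp [hj])
      rintro rfl
      exact hi hj

end Fam

/-- the events `pim k x h = a` -/
def Ev (Γ : ℕ → List H) (p : ℕ → unitInterval) (k : ℕ) (h a : H) : Set (Lab H) :=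
  {x | pim Γ p k x h = a}

open Classical in
/-- The finite set of possible values of `pim k x h`. -/
noncomputable def Val (Γ : ℕ → List H) (k : ℕ) (h : H) : Finset H := (Pf Γ k).image (fun u => h * u)

section

variable (Γ : ℕ → List H) (p : ℕ → unitInterval)

lemma measurableSet_Ev (k : ℕ) (h a : H) : MeasurableSet (Ev Γ p k h a) :=
  measurableSet_pim Γ p k h a

lemma Ev_disj (k : ℕ) (h : H) {a a' : H} (hne : a ≠ a') :
    Disjoint (Ev Γ p k h a) (Ev Γ p k h a') := by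
  rw [Set.disjoint_left]
  intro x hx hx'
  exact hne (hx.symm.trans hx')

lemma Ev_empty (k : ℕ) (h a : H) (ha : a ∉ Val Γ k h) : Ev Γ p k h a = ∅ := by
  classical
  ext x
  simp only [mem_empty_iff_false, iff_false]
  intro hx
  obtain ⟨u, hu, e⟩ := pim_mem Γ p k x h
  apply ha
  unfold Val
  rw [Finset.mem_image]
  exact ⟨u, hu, by rw [← e]; exact hx⟩

lemma iUnion_Ev (k : ℕ) (h : H) (A : Set (Lab H)) (S : Finset H) (hS : Val Γ k h ⊆ S) :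
    ⋃ a ∈ S, (A ∩ Ev Γ p k h a) = A := by
  classical
  ext x
  simp only [mem_iUnion, mem_inter_iff, exists_prop]
  constructor
  · rintro ⟨_, _, hx, _⟩
    exact hx
  · intro hx
    obtain ⟨u, hu, e⟩ := pim_mem Γ p k x h
    exact ⟨h * u, hS (Finset.mem_image_of_mem _ hu), hx, e⟩

lemma sum_mu_Ev (k : ℕ) (h : H) {A : Set (Lab H)} (hA : MeasurableSet A) (S : Finset H)
    (hS : Val Γ k h ⊆ S) : ∑ a ∈ S, (mu H).real (A ∩ Ev Γ p k h a) = (mu H).real A := by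
  conv_rhs => rw [← iUnion_Ev Γ p k h A S hS]
  rw [measureReal_biUnion_finset]
  · intro a _ a' _ hne
    exact (Ev_disj Γ p k h hne).mono inter_subset_right inter_subset_right
  · intro a _
    exact hA.inter (measurableSet_Ev Γ p k h a)

end

section step

variable {Γ : ℕ → List H} {p : ℕ → unitInterval} {W0 W1 M0 M1 M2 : Type*}
    [NormedAddCommGroup W0] [NormedSpace ℂ W0] [NormedAddCommGroup W1] [NormedSpace ℂ W1]
    [NormedAddCommGroup M0] [NormedSpace ℂ M0] [NormedAddCommGroup M1] [NormedSpace ℂ M1]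
    [NormedAddCommGroup M2] [NormedSpace ℂ M2]
    {Z0 : Set W0} {Z1 : Set W1} {ρ0 : H → W0 →L[ℂ] W0} {ρ1 : H → W1 →L[ℂ] W1}
    {τ1 : H → M1 →L[ℂ] M1} {τ2 : H → M2 →L[ℂ] M2}
    {d : W1 →L[ℂ] W0} {σ : W0 →L[ℂ] W1} {b0 : M1 →L[ℂ] M0} {b1 : M2 →L[ℂ] M1}
    {ψ0 : W0 →L[ℂ] M0} {ψ1 : W1 →L[ℂ] M1} {L : (ℕ → M2) → M2} {Φ : Set (Lab H) → W1 → M2}

/-- conjugated contraction -/
def cs (ρ0 : H → W0 →L[ℂ] W0) (ρ1 : H → W1 →L[ℂ] W1) (σ : W0 →L[ℂ] W1) (h : H) : W0 →L[ℂ] W1 :=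
  (ρ1 h).comp (σ.comp (ρ0 h⁻¹))

/-- the approximating operators -/
noncomputable def PP (Γ : ℕ → List H) (p : ℕ → unitInterval) (ρ0 : H → W0 →L[ℂ] W0)
    (ρ1 : H → W1 →L[ℂ] W1) (σ : W0 →L[ℂ] W1) (Φ : Set (Lab H) → W1 → M2) (h : H)
    (A : Set (Lab H)) (z : W0) (k : ℕ) : M2 :=
  ∑ a ∈ Val Γ k h, Φ (A ∩ Ev Γ p k h a) (cs ρ0 ρ1 σ h z - cs ρ0 ρ1 σ a z)

lemma PP_eq (hΦ : Fam Γ p Z1 ρ1 τ2 b1 ψ1 Φ) (h : H) (A : Set (Lab H)) (z : W0) (k : ℕ)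
    (S : Finset H) (hS : Val Γ k h ⊆ S) : PP Γ p ρ0 ρ1 σ Φ h A z k =
      ∑ a ∈ S, Φ (A ∩ Ev Γ p k h a) (cs ρ0 ρ1 σ h z - cs ρ0 ρ1 σ a z) := by
  unfold PP
  apply Finset.sum_subset hS
  intro a _ ha
  rw [Ev_empty Γ p k h a ha, inter_empty, hΦ.empty]

lemma PP_add (hΦ : Fam Γ p Z1 ρ1 τ2 b1 ψ1 Φ) (h : H) {A : Set (Lab H)} (hA : MeasurableSet A)
    (z w : W0) (k : ℕ) : PP Γ p ρ0 ρ1 σ Φ h A (z + w) k =
      PP Γ p ρ0 ρ1 σ Φ h A z k + PP Γ p ρ0 ρ1 σ Φ h A w k := by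
  unfold PP
  rw [← Finset.sum_add_distrib]
  apply Finset.sum_congr rfl
  intro a _
  rw [← hΦ.map_add _ (hA.inter (measurableSet_Ev Γ p k h a))]
  congr 1
  rw [map_add, map_add]
  abel

lemma PP_smul (hΦ : Fam Γ p Z1 ρ1 τ2 b1 ψ1 Φ) (h : H) {A : Set (Lab H)} (hA : MeasurableSet A)
    (c : ℂ) (z : W0) (k : ℕ) : PP Γ p ρ0 ρ1 σ Φ h A (c • z) k =
      c • PP Γ p ρ0 ρ1 σ Φ h A z k := by
  unfold PP
  rw [Finset.smul_sum]
  apply Finset.sum_congr rfl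
  intro a _
  rw [← hΦ.map_smul _ (hA.inter (measurableSet_Ev Γ p k h a))]
  congr 1
  rw [map_smul, map_smul, smul_sub]

lemma PP_union (hΦ : Fam Γ p Z1 ρ1 τ2 b1 ψ1 Φ) (h : H) {A B : Set (Lab H)} (hA : MeasurableSet A)
    (hB : MeasurableSet B) (hAB : Disjoint A B) (z : W0) (k : ℕ) :
    PP Γ p ρ0 ρ1 σ Φ h (A ∪ B) z k =
      PP Γ p ρ0 ρ1 σ Φ h A z k + PP Γ p ρ0 ρ1 σ Φ h B z k := by
  unfold PP
  rw [← Finset.sum_add_distrib]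
  apply Finset.sum_congr rfl
  intro a _
  rw [union_inter_distrib_right, hΦ.union _ _ (hA.inter (measurableSet_Ev Γ p k h a))
    (hB.inter (measurableSet_Ev Γ p k h a)) (hAB.mono inter_subset_left inter_subset_left)]

lemma PP_bound (hΦ : Fam Γ p Z1 ρ1 τ2 b1 ψ1 Φ) {C0 C1 : ℝ} (hC0 : ∀ g, ‖ρ0 g‖ ≤ C0)
    (hC1 : ∀ g, ‖ρ1 g‖ ≤ C1) : ∃ K : ℝ, 0 ≤ K ∧ ∀ h A, MeasurableSet A → ∀ z k,
      ‖PP Γ p ρ0 ρ1 σ Φ h A z k‖ ≤ K * (mu H).real A * ‖z‖ := by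
  obtain ⟨K, hK, hb⟩ := hΦ.bound
  have c0 : 0 ≤ C0 := (norm_nonneg _).trans (hC0 1)
  have c1 : 0 ≤ C1 := (norm_nonneg _).trans (hC1 1)
  have hcs : ∀ h z, ‖cs ρ0 ρ1 σ h z‖ ≤ C1 * ‖σ‖ * C0 * ‖z‖ := by
    intro h z
    show ‖ρ1 h (σ (ρ0 h⁻¹ z))‖ ≤ _
    calc ‖ρ1 h (σ (ρ0 h⁻¹ z))‖ ≤ C1 * ‖σ (ρ0 h⁻¹ z)‖ := (ρ1 h).le_of_opNorm_le (hC1 h) _
      _ ≤ C1 * (‖σ‖ * ‖ρ0 h⁻¹ z‖) := by gcongr; exact σ.le_opNorm _
      _ ≤ C1 * (‖σ‖ * (C0 * ‖z‖)) := by gcongr; exact (ρ0 h⁻¹).le_of_opNorm_le (hC0 _) _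
      _ = C1 * ‖σ‖ * C0 * ‖z‖ := by ring
  refine ⟨K * (2 * (C1 * ‖σ‖ * C0)), by positivity, fun h A hA z k => ?_⟩
  unfold PP
  calc ‖∑ a ∈ Val Γ k h, Φ (A ∩ Ev Γ p k h a) (cs ρ0 ρ1 σ h z - cs ρ0 ρ1 σ a z)‖
      ≤ ∑ a ∈ Val Γ k h, ‖Φ (A ∩ Ev Γ p k h a) (cs ρ0 ρ1 σ h z - cs ρ0 ρ1 σ a z)‖ :=
        norm_sum_le _ _
    _ ≤ ∑ a ∈ Val Γ k h, K * (mu H).real (A ∩ Ev Γ p k h a) * (2 * (C1 * ‖σ‖ * C0) * ‖z‖) := by
        apply Finset.sum_le_sum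
        intro a _
        refine (hb _ (hA.inter (measurableSet_Ev Γ p k h a)) _).trans ?_
        gcongr
        refine (norm_sub_le _ _).trans ?_
        linarith [hcs h z, hcs a z]
    _ = K * (2 * (C1 * ‖σ‖ * C0)) * (mu H).real A * ‖z‖ := by
        rw [← sum_mu_Ev Γ p k h hA (Val Γ k h) (Finset.Subset.refl _), Finset.mul_sum,
          Finset.sum_mul]
        apply Finset.sum_congr rfl
        intro a _
        ring

/-- **The descent step.** -/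
theorem step (hρ0m : ∀ g h, ρ0 (g * h) = (ρ0 g).comp (ρ0 h)) (hρ01 : ρ0 1 = ContinuousLinearMap.id ℂ W0)
    (hρ1m : ∀ g h, ρ1 (g * h) = (ρ1 g).comp (ρ1 h)) (hρ11 : ρ1 1 = ContinuousLinearMap.id ℂ W1)
    {C0 C1 : ℝ} (hC0 : ∀ g, ‖ρ0 g‖ ≤ C0) (hC1 : ∀ g, ‖ρ1 g‖ ≤ C1)
    (hZ0 : ∀ g, ∀ z ∈ Z0, ρ0 g z ∈ Z0)
    (hdρ : ∀ g w, d (ρ1 g w) = ρ0 g (d w))
    (hdσ : ∀ z ∈ Z0, d (σ z) = z) (hZ1 : ∀ w, d w = 0 → w ∈ Z1)
    (hbτ : ∀ g m, b1 (τ2 g m) = τ1 g (b1 m))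
    (hb : ∀ m, b0 (b1 m) = 0) (hψ : ∀ w, b0 (ψ1 w) = ψ0 (d w))
    (hψρ : ∀ g w, ψ1 (ρ1 g w) = τ1 g (ψ1 w))
    (hL : GenLim τ2 L)
    (hΦ : Fam Γ p Z1 ρ1 τ2 b1 ψ1 Φ) :
    ∃ Φ' : Set (Lab H) → W0 → M1, Fam Γ p Z0 ρ0 τ1 b0 ψ0 Φ' := by
  classical
  obtain ⟨K, hK, hPb⟩ := PP_bound (σ := σ) hΦ hC0 hC1
  obtain ⟨C, hC, hLb⟩ := hL.bound
  have hBd : ∀ h A, MeasurableSet A → ∀ z, Bd (PP Γ p ρ0 ρ1 σ Φ h A z) := fun h A hA z =>
    ⟨_, hPb h A hA z⟩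
  let Φ' : Set (Lab H) → W0 → M1 := fun A z =>
    ((mu H).real A : ℂ) • ψ1 (σ z) - b1 (L (PP Γ p ρ0 ρ1 σ Φ 1 A z))
  have hinv : ∀ g w, ρ0 g⁻¹ (ρ0 g w) = w := by
    intro g w
    have := congrArg (fun f : W0 →L[ℂ] W0 => f w) (hρ0m g⁻¹ g)
    simp only [inv_mul_cancel, hρ01] at this
    exact this.symm
  refine ⟨Φ', ?_, ?_, ?_, ?_, ?_, ?_⟩
  · intro A hA z w
    have e : PP Γ p ρ0 ρ1 σ Φ 1 A (z + w) =
        fun k => PP Γ p ρ0 ρ1 σ Φ 1 A z k + PP Γ p ρ0 ρ1 σ Φ 1 A w k :=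
      funext (PP_add hΦ 1 hA z w)
    show ((mu H).real A : ℂ) • ψ1 (σ (z + w)) - b1 (L (PP Γ p ρ0 ρ1 σ Φ 1 A (z + w))) = _
    rw [e, hL.add _ _ (hBd 1 A hA z) (hBd 1 A hA w), map_add, map_add, map_add, smul_add]
    show _ = (((mu H).real A : ℂ) • ψ1 (σ z) - b1 (L (PP Γ p ρ0 ρ1 σ Φ 1 A z))) +
      (((mu H).real A : ℂ) • ψ1 (σ w) - b1 (L (PP Γ p ρ0 ρ1 σ Φ 1 A w)))
    abel
  · intro A hA c z
    have e : PP Γ p ρ0 ρ1 σ Φ 1 A (c • z) = fun k => c • PP Γ p ρ0 ρ1 σ Φ 1 A z k :=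
      funext (PP_smul hΦ 1 hA c z)
    show ((mu H).real A : ℂ) • ψ1 (σ (c • z)) - b1 (L (PP Γ p ρ0 ρ1 σ Φ 1 A (c • z))) = _
    rw [e, hL.smul _ _ (hBd 1 A hA z), map_smul, map_smul, map_smul, smul_comm, ← smul_sub]
  · intro A B hA hB hAB z
    have e : PP Γ p ρ0 ρ1 σ Φ 1 (A ∪ B) z =
        fun k => PP Γ p ρ0 ρ1 σ Φ 1 A z k + PP Γ p ρ0 ρ1 σ Φ 1 B z k :=
      funext (PP_union hΦ 1 hA hB hAB z)
    show ((mu H).real (A ∪ B) : ℂ) • ψ1 (σ z) - b1 (L (PP Γ p ρ0 ρ1 σ Φ 1 (A ∪ B) z)) = _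
    rw [e, hL.add _ _ (hBd 1 A hA z) (hBd 1 B hB z), map_add, measureReal_union hAB hB]
    push_cast
    rw [add_smul]
    show _ = (((mu H).real A : ℂ) • ψ1 (σ z) - b1 (L (PP Γ p ρ0 ρ1 σ Φ 1 A z))) +
      (((mu H).real B : ℂ) • ψ1 (σ z) - b1 (L (PP Γ p ρ0 ρ1 σ Φ 1 B z)))
    abel
  · refine ⟨‖ψ1‖ * ‖σ‖ + ‖b1‖ * (C * K), by positivity, fun A hA z => ?_⟩
    have h1 : ‖((mu H).real A : ℂ) • ψ1 (σ z)‖ ≤ (mu H).real A * (‖ψ1‖ * (‖σ‖ * ‖z‖)) := by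
      rw [norm_smul]
      have : ‖((mu H).real A : ℂ)‖ = (mu H).real A := by
        rw [Complex.norm_real, Real.norm_of_nonneg measureReal_nonneg]
      rw [this]
      gcongr
      exact (ψ1.le_opNorm _).trans (by gcongr; exact σ.le_opNorm _)
    have h2 : ‖b1 (L (PP Γ p ρ0 ρ1 σ Φ 1 A z))‖ ≤ ‖b1‖ * (C * (K * (mu H).real A * ‖z‖)) := by
      refine (b1.le_opNorm _).trans ?_
      gcongr
      exact hLb _ _ (hPb 1 A hA z)
    calc ‖Φ' A z‖ ≤ (mu H).real A * (‖ψ1‖ * (‖σ‖ * ‖z‖)) + ‖b1‖ * (C * (K * (mu H).real A * ‖z‖)) :=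
          (norm_sub_le _ _).trans (add_le_add h1 h2)
      _ = (‖ψ1‖ * ‖σ‖ + ‖b1‖ * (C * K)) * (mu H).real A * ‖z‖ := by ring
  · intro A hA z hz
    show b0 (((mu H).real A : ℂ) • ψ1 (σ z) - b1 (L (PP Γ p ρ0 ρ1 σ Φ 1 A z))) = _
    rw [map_sub, hb, sub_zero, map_smul, hψ, hdσ z hz]
  · -- equivariance
    intro k₀ g A hA hAD z hz
    have hcyc : ∀ a a' : H, cs ρ0 ρ1 σ a z - cs ρ0 ρ1 σ a' z ∈ Z1 := by
      intro a a'
      apply hZ1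
      have : ∀ a : H, d (cs ρ0 ρ1 σ a z) = z := by
        intro a
        show d (ρ1 a (σ (ρ0 a⁻¹ z))) = z
        rw [hdρ, hdσ _ (hZ0 _ z hz)]
        have := hinv a⁻¹ z
        rwa [inv_inv] at this
      rw [map_sub, this, this, sub_self]
    -- the translated sequence
    have e1 : ∀ k, PP Γ p ρ0 ρ1 σ Φ 1 (tr g A) (ρ0 g z) k = τ2 g (PP Γ p ρ0 ρ1 σ Φ g⁻¹ A z k) := by
      intro k
      unfold PP
      rw [map_sum]
      apply Finset.sum_bij (fun a _ => g⁻¹ * a)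
      · intro a ha
        unfold Val at ha ⊢
        rw [Finset.mem_image] at ha ⊢
        obtain ⟨u, hu, rfl⟩ := ha
        exact ⟨u, hu, by rw [one_mul]⟩
      · intro a _ a' _ e
        exact mul_left_cancel e
      · intro a ha
        unfold Val at ha ⊢
        rw [Finset.mem_image] at ha
        obtain ⟨u, hu, rfl⟩ := ha
        exact ⟨1 * u, Finset.mem_image_of_mem _ hu, by rw [one_mul]⟩
      · intro a _
        have s1 : tr g A ∩ Ev Γ p k 1 a = tr g (A ∩ Ev Γ p k g⁻¹ (g⁻¹ * a)) := by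
          ext x
          simp only [tr, Ev, mem_inter_iff, mem_preimage, mem_ofPred_eq]
          have := pim_act Γ p k g⁻¹ x 1
          rw [mul_one] at this
          rw [this, mul_right_inj]
        have s2 : ∀ a' : H, cs ρ0 ρ1 σ a' (ρ0 g z) = ρ1 g (cs ρ0 ρ1 σ (g⁻¹ * a') z) := by
          intro a'
          show ρ1 a' (σ (ρ0 a'⁻¹ (ρ0 g z))) = ρ1 g (ρ1 (g⁻¹ * a') (σ (ρ0 (g⁻¹ * a')⁻¹ z)))
          have t1 : ρ1 g (ρ1 (g⁻¹ * a') (σ (ρ0 (g⁻¹ * a')⁻¹ z)))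
              = ρ1 a' (σ (ρ0 (g⁻¹ * a')⁻¹ z)) := by
            have := congrArg (fun f : W1 →L[ℂ] W1 => f (σ (ρ0 (g⁻¹ * a')⁻¹ z))) (hρ1m g (g⁻¹ * a'))
            simp only [mul_inv_cancel_left] at this
            exact this.symm
          have t2 : ρ0 a'⁻¹ (ρ0 g z) = ρ0 (g⁻¹ * a')⁻¹ z := by
            have := congrArg (fun f : W0 →L[ℂ] W0 => f z) (hρ0m a'⁻¹ g)
            rw [mul_inv_rev, inv_inv]
            exact this.symm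
          rw [t1, t2]
        rw [s1, s2 1, s2 a, mul_one, ← map_sub]
        exact hΦ.eqv k₀ g _ (hA.inter (measurableSet_Ev Γ p k _ _))
          (inter_subset_left.trans hAD) _ (hcyc _ _)
    -- change of the base point
    have e2 : L (PP Γ p ρ0 ρ1 σ Φ g⁻¹ A z) =
        L (PP Γ p ρ0 ρ1 σ Φ 1 A z) + Φ A (cs ρ0 ρ1 σ g⁻¹ z - cs ρ0 ρ1 σ 1 z) := by
      have hcb : Bd (fun _ : ℕ => Φ A (cs ρ0 ρ1 σ g⁻¹ z - cs ρ0 ρ1 σ 1 z)) := ⟨_, fun _ => le_rfl⟩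
      have := hL.add _ _ (hBd 1 A hA z) hcb
      rw [hL.const] at this
      rw [← this]
      apply hL.ev _ _ (hBd g⁻¹ A hA z)
      · obtain ⟨K1, h1⟩ := hBd 1 A hA z
        exact ⟨K1 + ‖Φ A (cs ρ0 ρ1 σ g⁻¹ z - cs ρ0 ρ1 σ 1 z)‖, fun k =>
          (norm_add_le _ _).trans (add_le_add (h1 k) le_rfl)⟩
      · filter_upwards [eventually_ge_atTop k₀] with k hk
        set S := Val Γ k g⁻¹ ∪ Val Γ k 1 with hS
        rw [PP_eq hΦ g⁻¹ A z k S Finset.subset_union_left,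
          PP_eq hΦ 1 A z k S Finset.subset_union_right]
        have hsame : ∀ a, A ∩ Ev Γ p k g⁻¹ a = A ∩ Ev Γ p k 1 a := by
          intro a
          ext x
          simp only [Ev, mem_inter_iff, mem_ofPred_eq]
          constructor
          · rintro ⟨hx, h1⟩
            have : pim Γ p k x g⁻¹ = pim Γ p k x 1 := Dset_mono Γ p hk g (hAD hx)
            exact ⟨hx, this ▸ h1⟩
          · rintro ⟨hx, h1⟩
            have : pim Γ p k x g⁻¹ = pim Γ p k x 1 := Dset_mono Γ p hk g (hAD hx)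
            exact ⟨hx, this.trans h1⟩
        have hsum : Φ A (cs ρ0 ρ1 σ g⁻¹ z - cs ρ0 ρ1 σ 1 z) =
            ∑ a ∈ S, Φ (A ∩ Ev Γ p k 1 a) (cs ρ0 ρ1 σ g⁻¹ z - cs ρ0 ρ1 σ 1 z) := by
          rw [hΦ.sum_biUnion S (fun a => A ∩ Ev Γ p k 1 a)
            (fun a _ => hA.inter (measurableSet_Ev Γ p k 1 a)) ?_,
            iUnion_Ev Γ p k 1 A S Finset.subset_union_right]
          intro a _ a' _ hne
          exact (Ev_disj Γ p k 1 hne).mono inter_subset_right inter_subset_right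
        rw [hsum, ← Finset.sum_add_distrib]
        apply Finset.sum_congr rfl
        intro a _
        rw [hsame, ← hΦ.map_add _ (hA.inter (measurableSet_Ev Γ p k 1 a))]
        congr 1
        abel
    have e3 : L (PP Γ p ρ0 ρ1 σ Φ 1 (tr g A) (ρ0 g z)) = τ2 g (L (PP Γ p ρ0 ρ1 σ Φ g⁻¹ A z)) := by
      rw [← hL.equiv g _ (hBd g⁻¹ A hA z)]
      congr 1
      exact funext e1
    have e4 : ρ1 g (cs ρ0 ρ1 σ g⁻¹ z) = σ (ρ0 g z) := by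
      show ρ1 g (ρ1 g⁻¹ (σ (ρ0 g⁻¹⁻¹ z))) = σ (ρ0 g z)
      have t1 : ρ1 g (ρ1 g⁻¹ (σ (ρ0 g⁻¹⁻¹ z))) = ρ1 1 (σ (ρ0 g⁻¹⁻¹ z)) := by
        have := congrArg (fun f : W1 →L[ℂ] W1 => f (σ (ρ0 g⁻¹⁻¹ z))) (hρ1m g g⁻¹)
        simp only [mul_inv_cancel] at this
        exact this.symm
      rw [t1, hρ11, inv_inv]
      rfl
    have e5 : cs ρ0 ρ1 σ 1 z = σ z := by
      show ρ1 1 (σ (ρ0 1⁻¹ z)) = σ z
      rw [inv_one, hρ01, hρ11]
      rfl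
    show ((mu H).real (tr g A) : ℂ) • ψ1 (σ (ρ0 g z)) -
      b1 (L (PP Γ p ρ0 ρ1 σ Φ 1 (tr g A) (ρ0 g z))) =
      τ1 g (((mu H).real A : ℂ) • ψ1 (σ z) - b1 (L (PP Γ p ρ0 ρ1 σ Φ 1 A z)))
    rw [mu_real_tr g hA, e3, hbτ, e2, map_add, hΦ.bd A hA _ (hcyc _ _), map_sub ψ1, smul_sub,
      map_add, map_sub (τ1 g), map_sub (τ1 g), map_smul (τ1 g), map_smul (τ1 g),
      map_smul (τ1 g) _ (ψ1 (σ z)), ← hψρ, e4, e5]
    abel

end step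

end Pool.Agent.H63.L1
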