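import Mathlib

set_option autoImplicit false

/-!
# Tight functionals on bounded continuous functions

`TT X` is the Banach space of all bounded linear functionals on `C_b(X)` which are tight, i.e.
(for locally compact `X`) the space of finite complex Radon measures.
-/

namespace Pool.Agent.H63.L1

set_option linter.unusedSectionVars false

open BoundedContinuousFunction Filter Topology Set

section basic

variable {X Y Z : Type*} [TopologicalSpace X] [TopologicalSpace Y] [TopologicalSpace Z]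

/-- tight functionals on the bounded continuous functions -/
def Tight (ω : (X →ᵇ ℂ) →L[ℂ] ℂ) : Prop :=
  ∀ ε : ℝ, 0 < ε → ∃ K : Set X, IsCompact K ∧ ∀ f : X →ᵇ ℂ, (∀ x ∈ K, f x = 0) → ‖ω f‖ ≤ ε * ‖f‖

/-- the dual of the bounded continuous functions (type synonym) -/
def DD (X : Type*) [TopologicalSpace X] : Type _ := (X →ᵇ ℂ) →L[ℂ] ℂ

noncomputable instance : NormedAddCommGroup (DD X) :=
  inferInstanceAs (NormedAddCommGroup ((X →ᵇ ℂ) →L[ℂ] ℂ))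

noncomputable instance : NormedSpace ℂ (DD X) :=
  inferInstanceAs (NormedSpace ℂ ((X →ᵇ ℂ) →L[ℂ] ℂ))

instance : CompleteSpace (DD X) := inferInstanceAs (CompleteSpace ((X →ᵇ ℂ) →L[ℂ] ℂ))

lemma tight_add {a b : (X →ᵇ ℂ) →L[ℂ] ℂ} (ha : Tight a) (hb : Tight b) : Tight (a + b) := by
  intro ε hε
  obtain ⟨K, hK, h1⟩ := ha (ε / 2) (by positivity)
  obtain ⟨L, hL, h2⟩ := hb (ε / 2) (by positivity)
  refine ⟨K ∪ L, hK.union hL, fun f hf => ?_⟩
  have e1 := h1 f (fun x hx => hf x (Or.inl hx))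
  have e2 := h2 f (fun x hx => hf x (Or.inr hx))
  calc ‖a f + b f‖ ≤ ‖a f‖ + ‖b f‖ := norm_add_le _ _
    _ ≤ ε * ‖f‖ := by linarith

lemma tight_zero : Tight (0 : (X →ᵇ ℂ) →L[ℂ] ℂ) := by
  intro ε hε
  refine ⟨∅, isCompact_empty, fun f _ => ?_⟩
  simp only [_root_.zero_apply, norm_zero]
  positivity

lemma tight_smul (c : ℂ) {a : (X →ᵇ ℂ) →L[ℂ] ℂ} (ha : Tight a) : Tight (c • a) := by
  intro ε hε
  obtain ⟨K, hK, h1⟩ := ha (ε / (‖c‖ + 1)) (by positivity)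
  refine ⟨K, hK, fun f hf => ?_⟩
  have e1 := h1 f hf
  rw [_root_.smul_apply, norm_smul]
  calc ‖c‖ * ‖a f‖ ≤ (‖c‖ + 1) * (ε / (‖c‖ + 1) * ‖f‖) := by gcongr; linarith
    _ = ε * ‖f‖ := by field_simp

lemma tight_of_tendsto {u : ℕ → (X →ᵇ ℂ) →L[ℂ] ℂ} {ω : (X →ᵇ ℂ) →L[ℂ] ℂ} (hu : ∀ n, Tight (u n))
    (hlim : Tendsto u atTop (𝓝 ω)) : Tight ω := by
  intro ε hε
  rw [Metric.tendsto_atTop] at hlim
  obtain ⟨n, hn⟩ := hlim (ε / 2) (by positivity)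
  obtain ⟨K, hK, h1⟩ := hu n (ε / 2) (by positivity)
  refine ⟨K, hK, fun f hf => ?_⟩
  have e1 := h1 f hf
  have e2 : ‖(u n - ω) f‖ ≤ ε / 2 * ‖f‖ := by
    apply (u n - ω).le_of_opNorm_le
    rw [← dist_eq_norm]
    exact (hn n le_rfl).le
  calc ‖ω f‖ = ‖u n f - (u n - ω) f‖ := by
        rw [_root_.sub_apply]
        congr 1
        ring
    _ ≤ ‖u n f‖ + ‖(u n - ω) f‖ := norm_sub_le _ _
    _ ≤ ε * ‖f‖ := by linarith

variable (X) in
/-- the space of tight functionals, as a subspace -/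
def TTs : Submodule ℂ (DD X) where
  carrier := {ω | Tight (X := X) ω}
  add_mem' := tight_add
  zero_mem' := tight_zero
  smul_mem' := fun c _ h => tight_smul c h

lemma isClosed_TTs : IsClosed (TTs X : Set (DD X)) := by
  rw [← isSeqClosed_iff_isClosed]
  intro u ω hu hlim
  exact tight_of_tendsto hu hlim

instance : CompleteSpace (TTs X) := isClosed_TTs.completeSpace_coe

variable (X) in
/-- the space of tight functionals -/
def TT : Type _ := TTs X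

noncomputable instance : NormedAddCommGroup (TT X) := inferInstanceAs (NormedAddCommGroup (TTs X))

noncomputable instance : NormedSpace ℂ (TT X) := inferInstanceAs (NormedSpace ℂ (TTs X))

instance : CompleteSpace (TT X) := inferInstanceAs (CompleteSpace (TTs X))

/-- the underlying functional -/
def TT.fn (ω : TT X) : (X →ᵇ ℂ) →L[ℂ] ℂ := ω.1

lemma TT.tight (ω : TT X) : Tight ω.fn := ω.2

lemma TT.norm_fn (ω : TT X) : ‖ω.fn‖ = ‖ω‖ := rfl

lemma TT.fn_add (ω ω' : TT X) : (ω + ω').fn = ω.fn + ω'.fn := rfl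

lemma TT.fn_smul (c : ℂ) (ω : TT X) : (c • ω).fn = c • ω.fn := rfl

lemma TT.fn_zero : (0 : TT X).fn = 0 := rfl

lemma TT.fn_sub (ω ω' : TT X) : (ω - ω').fn = ω.fn - ω'.fn := rfl

lemma TT.fn_neg (ω : TT X) : (-ω).fn = -ω.fn := rfl

lemma TT.fn_sum {ι : Type*} (s : Finset ι) (ω : ι → TT X) :
    (∑ i ∈ s, ω i).fn = ∑ i ∈ s, (ω i).fn := by
  classical
  induction s using Finset.induction_on with
  | empty => rfl
  | insert i s hi ih => rw [Finset.sum_insert hi, Finset.sum_insert hi, TT.fn_add, ih]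

lemma TT.ext {ω ω' : TT X} (h : ∀ f, ω.fn f = ω'.fn f) : ω = ω' :=
  Subtype.ext (ContinuousLinearMap.ext h)

/-- pull back of functions -/
noncomputable def pull (p : C(X, Y)) : (Y →ᵇ ℂ) →L[ℂ] (X →ᵇ ℂ) :=
  LinearMap.mkContinuous
    { toFun := fun f => f.compContinuous p
      map_add' := fun _ _ => rfl
      map_smul' := fun _ _ => rfl } 1 (by
      intro f
      rw [one_mul]
      rw [BoundedContinuousFunction.norm_le (norm_nonneg _)]
      intro x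
      exact f.norm_coe_le_norm _)

@[simp] lemma pull_apply (p : C(X, Y)) (f : Y →ᵇ ℂ) (x : X) : pull p f x = f (p x) := rfl

lemma pull_norm_le (p : C(X, Y)) (f : Y →ᵇ ℂ) : ‖pull p f‖ ≤ ‖f‖ := by
  rw [BoundedContinuousFunction.norm_le (norm_nonneg _)]
  intro x
  exact f.norm_coe_le_norm _

/-- push forward of functionals -/
noncomputable def pushD (p : C(X, Y)) (ω : (X →ᵇ ℂ) →L[ℂ] ℂ) : (Y →ᵇ ℂ) →L[ℂ] ℂ := ω.comp (pull p)

lemma tight_pushD (p : C(X, Y)) {ω : (X →ᵇ ℂ) →L[ℂ] ℂ} (hω : Tight ω) : Tight (pushD p ω) := by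
  intro ε hε
  obtain ⟨K, hK, h1⟩ := hω ε hε
  refine ⟨p '' K, hK.image p.continuous, fun f hf => ?_⟩
  calc ‖ω (pull p f)‖ ≤ ε * ‖pull p f‖ := h1 _ (fun x hx => hf _ (mem_image_of_mem _ hx))
    _ ≤ ε * ‖f‖ := by gcongr; exact pull_norm_le p f

lemma norm_pushD_le (p : C(X, Y)) (ω : (X →ᵇ ℂ) →L[ℂ] ℂ) : ‖pushD p ω‖ ≤ ‖ω‖ := by
  apply ContinuousLinearMap.opNorm_le_bound _ (norm_nonneg _)
  intro f
  calc ‖ω (pull p f)‖ ≤ ‖ω‖ * ‖pull p f‖ := ContinuousLinearMap.le_opNorm _ _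
    _ ≤ _ := by gcongr; exact pull_norm_le p f

/-- push forward of tight functionals, linear version -/
noncomputable def pushL (p : C(X, Y)) : TT X →ₗ[ℂ] TT Y where
  toFun ω := ⟨pushD p ω.fn, tight_pushD p ω.tight⟩
  map_add' _ _ := rfl
  map_smul' _ _ := rfl

/-- push forward of tight functionals -/
noncomputable def push (p : C(X, Y)) : TT X →L[ℂ] TT Y :=
  LinearMap.mkContinuous (pushL p) 1 (by
    intro ω
    rw [one_mul]
    exact norm_pushD_le p ω.fn)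

lemma push_fn (p : C(X, Y)) (ω : TT X) (f : Y →ᵇ ℂ) : (push p ω).fn f = ω.fn (pull p f) := rfl

lemma push_norm_le (p : C(X, Y)) : ‖push p‖ ≤ 1 := LinearMap.mkContinuous_norm_le _ zero_le_one _

lemma push_comp (p : C(X, Y)) (q : C(Y, Z)) (ω : TT X) :
    push (q.comp p) ω = push q (push p ω) := rfl

lemma push_id (ω : TT X) : push (ContinuousMap.id X) ω = ω := rfl

/-- evaluation -/
noncomputable def evD (x : X) : (X →ᵇ ℂ) →L[ℂ] ℂ :=
  LinearMap.mkContinuous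
    { toFun := fun f : X →ᵇ ℂ => f x
      map_add' := fun _ _ => rfl
      map_smul' := fun _ _ => rfl } 1 (by
      intro f
      rw [one_mul]
      exact f.norm_coe_le_norm x)

lemma evD_apply (x : X) (f : X →ᵇ ℂ) : evD x f = f x := rfl

lemma tight_evD (x : X) : Tight (evD x) := by
  intro ε hε
  refine ⟨{x}, isCompact_singleton, fun f hf => ?_⟩
  have : f x = 0 := hf x rfl
  rw [evD_apply, this, norm_zero]
  positivity

/-- the point mass -/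
noncomputable def pt (x : X) : TT X := ⟨evD x, tight_evD x⟩

lemma pt_fn (x : X) (f : X →ᵇ ℂ) : (pt x).fn f = f x := rfl

lemma push_pt (p : C(X, Y)) (x : X) : push p (pt x) = pt (p x) := rfl

end basic

section tightpart

variable {X : Type*} [TopologicalSpace X] [LocallyCompactSpace X] [T2Space X]

/-- cutoff functions -/
structure IsCut (K : Set X) (χ : X →ᵇ ℂ) : Prop where
  one : ∀ x ∈ K, χ x = 1
  supp : HasCompactSupport χ
  rng : ∀ x, ∃ t : ℝ, 0 ≤ t ∧ t ≤ 1 ∧ χ x = t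

lemma IsCut.mono {K L : Set X} {χ : X →ᵇ ℂ} (h : IsCut L χ) (hKL : K ⊆ L) : IsCut K χ :=
  ⟨fun x hx => h.one x (hKL hx), h.supp, h.rng⟩

lemma exists_cut {K : Set X} (hK : IsCompact K) : ∃ χ : X →ᵇ ℂ, IsCut K χ := by
  obtain ⟨f, h1, -, h2, h3⟩ := exists_continuous_one_zero_of_isCompact (X := X) hK
    isClosed_empty (disjoint_empty K)
  refine ⟨BoundedContinuousFunction.ofNormedAddCommGroup (fun x => (f x : ℂ)) (by fun_prop) 1 ?_,
    ?_, ?_, ?_⟩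
  · intro x
    rw [Complex.norm_real, Real.norm_of_nonneg (h3 x).1]
    exact (h3 x).2
  · intro x hx
    show (f x : ℂ) = 1
    rw [h1 hx]
    simp
  · exact h2.comp_left (g := fun t : ℝ => (t : ℂ)) (by simp)
  · intro x
    exact ⟨f x, (h3 x).1, (h3 x).2, rfl⟩

lemma IsCut.norm_le {K : Set X} {χ : X →ᵇ ℂ} (h : IsCut K χ) : ‖χ‖ ≤ 1 := by
  rw [BoundedContinuousFunction.norm_le zero_le_one]
  intro x
  obtain ⟨t, h0, h1, e⟩ := h.rng x
  rw [e, Complex.norm_real, Real.norm_of_nonneg h0]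
  exact h1

lemma IsCut.norm_one_sub_le {K : Set X} {χ : X →ᵇ ℂ} (h : IsCut K χ) : ‖1 - χ‖ ≤ 1 := by
  rw [BoundedContinuousFunction.norm_le zero_le_one]
  intro x
  obtain ⟨t, h0, h1, e⟩ := h.rng x
  show ‖1 - χ x‖ ≤ 1
  rw [e, show (1 : ℂ) - t = ((1 - t : ℝ) : ℂ) by push_cast; rfl, Complex.norm_real,
    Real.norm_of_nonneg (by linarith)]
  linarith

lemma IsCut.norm_sub_le {K : Set X} {χ χ' : X →ᵇ ℂ} (h : IsCut K χ) (h' : IsCut K χ') :
    ‖χ - χ'‖ ≤ 1 := by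
  rw [BoundedContinuousFunction.norm_le zero_le_one]
  intro x
  obtain ⟨t, h0, h1, e⟩ := h.rng x
  obtain ⟨s, g0, g1, e'⟩ := h'.rng x
  show ‖χ x - χ' x‖ ≤ 1
  rw [e, e', ← Complex.ofReal_sub, Complex.norm_real, Real.norm_eq_abs, abs_le]
  constructor <;> linarith

omit [LocallyCompactSpace X] [T2Space X] in
/-- the tail estimate for compactly supported functions -/
lemma exists_tail (ω : (X →ᵇ ℂ) →L[ℂ] ℂ) {ε : ℝ} (hε : 0 < ε) :
    ∃ K : Set X, IsCompact K ∧ ∀ h : X →ᵇ ℂ, HasCompactSupport h → (∀ x ∈ K, h x = 0) →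
      ‖ω h‖ ≤ ε * ‖h‖ := by
  classical
  set S : Set ℝ := {r | ∃ f : X →ᵇ ℂ, HasCompactSupport f ∧ ‖f‖ ≤ 1 ∧ ‖ω f‖ = r} with hS
  have hne : S.Nonempty := ⟨‖ω 0‖, 0, HasCompactSupport.zero, by simp, rfl⟩
  have hbd : BddAbove S := by
    refine ⟨‖ω‖, ?_⟩
    rintro r ⟨f, -, hf, rfl⟩
    exact (ω.le_opNorm f).trans (mul_le_of_le_one_right (norm_nonneg _) hf)
  obtain ⟨r, ⟨f, hfc, hf1, rfl⟩, hr⟩ := exists_lt_of_lt_csSup hne (sub_lt_self (sSup S) hε)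
  refine ⟨tsupport f, hfc, fun h hhc hh => ?_⟩
  by_cases h0 : ‖h‖ = 0
  · have : h = 0 := norm_eq_zero.mp h0
    rw [this]
    simp
  have hpos : 0 < ‖h‖ := lt_of_le_of_ne (norm_nonneg _) (Ne.symm h0)
  obtain ⟨c1, hc1, e1⟩ := RCLike.exists_norm_eq_mul_self (ω f)
  obtain ⟨c2, hc2, e2⟩ := RCLike.exists_norm_eq_mul_self (ω h)
  set F : X →ᵇ ℂ := c1 • f + (c2 * (‖h‖ : ℂ)⁻¹) • h with hF
  have hFc : HasCompactSupport F := by
    have : (F : X → ℂ) = fun x => c1 * f x + (c2 * (‖h‖ : ℂ)⁻¹) * h x := rfl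
    rw [this]
    exact (hfc.mul_left (f := fun _ => c1)).add (hhc.mul_left (f := fun _ => (c2 * (‖h‖ : ℂ)⁻¹)))
  have hF1 : ‖F‖ ≤ 1 := by
    rw [BoundedContinuousFunction.norm_le zero_le_one]
    intro x
    show ‖c1 * f x + (c2 * (‖h‖ : ℂ)⁻¹) * h x‖ ≤ 1
    by_cases hx : x ∈ tsupport f
    · rw [hh x hx, mul_zero, add_zero, norm_mul, hc1, one_mul]
      exact (f.norm_coe_le_norm x).trans hf1
    · have : f x = 0 := by
        by_contra hne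
        exact hx (subset_tsupport _ hne)
      rw [this, mul_zero, zero_add, norm_mul, norm_mul, hc2, one_mul, norm_inv, Complex.norm_real,
        norm_norm, inv_mul_le_iff₀ hpos, mul_one]
      exact h.norm_coe_le_norm x
  have hFω : ‖ω F‖ = ‖ω f‖ + ‖ω h‖ / ‖h‖ := by
    have : ω F = ((‖ω f‖ + ‖ω h‖ / ‖h‖ : ℝ) : ℂ) := by
      rw [hF, map_add, map_smul, map_smul, smul_eq_mul, smul_eq_mul]
      push_cast
      have e1' : (‖ω f‖ : ℂ) = c1 * ω f := e1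
      have e2' : (‖ω h‖ : ℂ) = c2 * ω h := e2
      rw [e1', e2']
      ring
    rw [this, Complex.norm_real, Real.norm_of_nonneg (by positivity)]
  have hle : ‖ω F‖ ≤ sSup S := le_csSup hbd ⟨F, hFc, hF1, rfl⟩
  have : ‖ω h‖ / ‖h‖ ≤ ε := by linarith
  rwa [div_le_iff₀ hpos] at this

/-- multiplication by a function -/
noncomputable def mulc (χ : X →ᵇ ℂ) : (X →ᵇ ℂ) →L[ℂ] (X →ᵇ ℂ) :=
  ContinuousLinearMap.mul ℂ (X →ᵇ ℂ) χ

omit [LocallyCompactSpace X] [T2Space X] in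
lemma mulc_apply (χ f : X →ᵇ ℂ) : mulc χ f = χ * f := rfl

/-- `τ` is the tight part of `ω`. -/
def IsTP (ω τ : (X →ᵇ ℂ) →L[ℂ] ℂ) : Prop :=
  ∀ ε : ℝ, 0 < ε → ∃ K : Set X, IsCompact K ∧ ∀ χ, IsCut K χ → ∀ f, ‖τ f - ω (χ * f)‖ ≤ ε * ‖f‖

lemma exists_tp (ω : (X →ᵇ ℂ) →L[ℂ] ℂ) : ∃ τ, IsTP ω τ := by
  classical
  have hc : ∀ K : TopologicalSpace.Compacts X, ∃ χ : X →ᵇ ℂ, IsCut (K : Set X) χ := fun K =>
    exists_cut K.isCompact
  choose cut hcut using hc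
  have key : ∀ ε : ℝ, 0 < ε → ∃ K : TopologicalSpace.Compacts X, ∀ χ χ', IsCut (K : Set X) χ →
      IsCut (K : Set X) χ' → ‖ω.comp (mulc χ) - ω.comp (mulc χ')‖ ≤ ε := by
    intro ε hε
    obtain ⟨K, hK, h1⟩ := exists_tail ω hε
    refine ⟨⟨K, hK⟩, fun χ χ' h h' => ?_⟩
    apply ContinuousLinearMap.opNorm_le_bound _ hε.le
    intro f
    have e : (ω.comp (mulc χ) - ω.comp (mulc χ')) f = ω ((χ - χ') * f) := by
      rw [sub_mul, map_sub]
      rfl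
    rw [e]
    refine (h1 _ ?_ ?_).trans ?_
    · have : (((χ - χ') * f : X →ᵇ ℂ) : X → ℂ) = fun x => (χ x - χ' x) * f x := rfl
      rw [this]
      apply HasCompactSupport.mul_right
      exact h.supp.sub h'.supp
    · intro x hx
      show (χ x - χ' x) * f x = 0
      rw [h.one x hx, h'.one x hx, sub_self, zero_mul]
    · gcongr
      calc ‖(χ - χ') * f‖ ≤ ‖χ - χ'‖ * ‖f‖ := norm_mul_le _ _
        _ ≤ 1 * ‖f‖ := by gcongr; exact h.norm_sub_le h'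
        _ = ‖f‖ := one_mul _
  have hcau : CauchySeq (fun K : TopologicalSpace.Compacts X => ω.comp (mulc (cut K))) := by
    rw [Metric.cauchySeq_iff]
    intro ε hε
    obtain ⟨K, hK⟩ := key (ε / 2) (by positivity)
    refine ⟨K, fun m hm n hn => ?_⟩
    rw [dist_eq_norm]
    exact (hK _ _ ((hcut m).mono hm) ((hcut n).mono hn)).trans_lt (by linarith)
  obtain ⟨τ, hτ⟩ := cauchySeq_tendsto_of_complete hcau
  refine ⟨τ, fun ε hε => ?_⟩
  obtain ⟨K, hK⟩ := key ε hε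
  refine ⟨K, K.isCompact, fun χ hχ f => ?_⟩
  have h1 : ‖τ - ω.comp (mulc χ)‖ ≤ ε := by
    apply le_of_tendsto ((hτ.sub_const (ω.comp (mulc χ))).norm)
    filter_upwards [eventually_ge_atTop K] with L hL
    exact hK _ _ ((hcut L).mono hL) hχ
  exact (τ - ω.comp (mulc χ)).le_of_opNorm_le h1 f

lemma IsTP.unique {ω τ τ' : (X →ᵇ ℂ) →L[ℂ] ℂ} (h : IsTP ω τ) (h' : IsTP ω τ') : τ = τ' := by
  ext f
  rw [← sub_eq_zero, ← norm_eq_zero]
  apply le_antisymm _ (norm_nonneg _)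
  apply le_of_forall_pos_le_add
  intro ε hε
  obtain ⟨K, hK, h1⟩ := h (ε / (2 * (‖f‖ + 1))) (by positivity)
  obtain ⟨K', hK', h2⟩ := h' (ε / (2 * (‖f‖ + 1))) (by positivity)
  obtain ⟨χ, hχ⟩ := exists_cut (hK.union hK')
  have e1 := h1 χ (hχ.mono subset_union_left) f
  have e2 := h2 χ (hχ.mono subset_union_right) f
  calc ‖τ f - τ' f‖ = ‖(τ f - ω (χ * f)) - (τ' f - ω (χ * f))‖ := by congr 1; ring
    _ ≤ ‖τ f - ω (χ * f)‖ + ‖τ' f - ω (χ * f)‖ := norm_sub_le _ _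
    _ ≤ 2 * (ε / (2 * (‖f‖ + 1)) * (‖f‖ + 1)) := by
        have : ε / (2 * (‖f‖ + 1)) * ‖f‖ ≤ ε / (2 * (‖f‖ + 1)) * (‖f‖ + 1) := by
          gcongr; linarith
        linarith
    _ = 0 + ε := by field_simp; ring

omit [LocallyCompactSpace X] [T2Space X] in
lemma IsTP.add {ω τ ω' τ' : (X →ᵇ ℂ) →L[ℂ] ℂ} (h : IsTP ω τ) (h' : IsTP ω' τ') :
    IsTP (ω + ω') (τ + τ') := by
  intro ε hε
  obtain ⟨K, hK, h1⟩ := h (ε / 2) (by positivity)
  obtain ⟨K', hK', h2⟩ := h' (ε / 2) (by positivity)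
  refine ⟨K ∪ K', hK.union hK', fun χ hχ f => ?_⟩
  have e1 := h1 χ ⟨fun x hx => hχ.one x (Or.inl hx), hχ.supp, hχ.rng⟩ f
  have e2 := h2 χ ⟨fun x hx => hχ.one x (Or.inr hx), hχ.supp, hχ.rng⟩ f
  calc ‖(τ + τ') f - (ω + ω') (χ * f)‖ = ‖(τ f - ω (χ * f)) + (τ' f - ω' (χ * f))‖ := by
        congr 1
        rw [_root_.add_apply, _root_.add_apply]
        ring
    _ ≤ ‖τ f - ω (χ * f)‖ + ‖τ' f - ω' (χ * f)‖ := norm_add_le _ _
    _ ≤ ε * ‖f‖ := by linarith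

omit [LocallyCompactSpace X] [T2Space X] in
lemma IsTP.smul {ω τ : (X →ᵇ ℂ) →L[ℂ] ℂ} (h : IsTP ω τ) (c : ℂ) : IsTP (c • ω) (c • τ) := by
  intro ε hε
  obtain ⟨K, hK, h1⟩ := h (ε / (‖c‖ + 1)) (by positivity)
  refine ⟨K, hK, fun χ hχ f => ?_⟩
  have e1 := h1 χ hχ f
  calc ‖(c • τ) f - (c • ω) (χ * f)‖ = ‖c‖ * ‖τ f - ω (χ * f)‖ := by
        rw [_root_.smul_apply, _root_.smul_apply, ← smul_sub, norm_smul]
    _ ≤ (‖c‖ + 1) * (ε / (‖c‖ + 1) * ‖f‖) := by gcongr; linarith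
    _ = ε * ‖f‖ := by field_simp

omit [LocallyCompactSpace X] [T2Space X] in
lemma IsTP.of_tight {ω : (X →ᵇ ℂ) →L[ℂ] ℂ} (h : Tight ω) : IsTP ω ω := by
  intro ε hε
  obtain ⟨K, hK, h1⟩ := h ε hε
  refine ⟨K, hK, fun χ hχ f => ?_⟩
  have e : ω f - ω (χ * f) = ω ((1 - χ) * f) := by rw [sub_mul, one_mul, map_sub]
  rw [e]
  refine (h1 _ ?_).trans ?_
  · intro x hx
    show (1 - χ x) * f x = 0
    rw [hχ.one x hx, sub_self, zero_mul]
  · gcongr
    calc ‖(1 - χ) * f‖ ≤ ‖1 - χ‖ * ‖f‖ := norm_mul_le _ _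
      _ ≤ 1 * ‖f‖ := by
        gcongr
        rw [BoundedContinuousFunction.norm_le zero_le_one]
        intro x
        obtain ⟨t, h0, h1, e⟩ := hχ.rng x
        show ‖1 - χ x‖ ≤ 1
        rw [e, show (1 : ℂ) - t = ((1 - t : ℝ) : ℂ) by push_cast; rfl, Complex.norm_real,
          Real.norm_of_nonneg (by linarith)]
        linarith
      _ = ‖f‖ := one_mul _

lemma IsTP.norm_le {ω τ : (X →ᵇ ℂ) →L[ℂ] ℂ} (h : IsTP ω τ) : ‖τ‖ ≤ ‖ω‖ := by
  apply le_of_forall_pos_le_add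
  intro ε hε
  obtain ⟨K, hK, h1⟩ := h ε hε
  obtain ⟨χ, hχ⟩ := exists_cut hK
  apply ContinuousLinearMap.opNorm_le_bound _ (by positivity)
  intro f
  have e1 := h1 χ hχ f
  calc ‖τ f‖ = ‖ω (χ * f) + (τ f - ω (χ * f))‖ := by congr 1; ring
    _ ≤ ‖ω (χ * f)‖ + ‖τ f - ω (χ * f)‖ := norm_add_le _ _
    _ ≤ ‖ω‖ * ‖f‖ + ε * ‖f‖ := by
        gcongr
        calc ‖ω (χ * f)‖ ≤ ‖ω‖ * ‖χ * f‖ := ω.le_opNorm _
          _ ≤ ‖ω‖ * (‖χ‖ * ‖f‖) := by gcongr; exact norm_mul_le _ _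
          _ ≤ ‖ω‖ * (1 * ‖f‖) := by gcongr; exact hχ.norm_le
          _ = ‖ω‖ * ‖f‖ := by rw [one_mul]
    _ = (‖ω‖ + ε) * ‖f‖ := by ring

lemma IsTP.tight {ω τ : (X →ᵇ ℂ) →L[ℂ] ℂ} (h : IsTP ω τ) : Tight τ := by
  intro ε hε
  obtain ⟨K, hK, h1⟩ := h ε hε
  obtain ⟨χ, hχ⟩ := exists_cut hK
  refine ⟨tsupport χ, hχ.supp, fun f hf => ?_⟩
  have e1 := h1 χ hχ f
  have : χ * f = 0 := by
    ext x
    show χ x * f x = 0
    by_cases hx : x ∈ tsupport χ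
    · rw [hf x hx, mul_zero]
    · have : χ x = 0 := by
        by_contra hne
        exact hx (subset_tsupport _ hne)
      rw [this, zero_mul]
  rwa [this, map_zero, sub_zero] at e1

lemma IsTP.push {ω τ : (X →ᵇ ℂ) →L[ℂ] ℂ} (h : IsTP ω τ) (p : X ≃ₜ X) :
    IsTP (pushD (p : C(X, X)) ω) (pushD (p : C(X, X)) τ) := by
  intro ε hε
  obtain ⟨K, hK, h1⟩ := h ε hε
  refine ⟨p '' K, hK.image p.continuous, fun χ hχ f => ?_⟩
  have hχ' : IsCut K (pull (p : C(X, X)) χ) := by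
    refine ⟨fun x hx => hχ.one _ (mem_image_of_mem _ hx), ?_, fun x => hχ.rng _⟩
    exact hχ.supp.comp_homeomorph p
  calc ‖τ (pull (p : C(X, X)) f) - ω (pull (p : C(X, X)) (χ * f))‖
      = ‖τ (pull (p : C(X, X)) f) - ω (pull (p : C(X, X)) χ * pull (p : C(X, X)) f)‖ := rfl
    _ ≤ ε * ‖pull (p : C(X, X)) f‖ := h1 _ hχ' _
    _ ≤ ε * ‖f‖ := by gcongr; exact pull_norm_le _ f

end tightpart

section lim

variable {X : Type*} [TopologicalSpace X] [LocallyCompactSpace X] [T2Space X]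

/-- `ω` is the ultralimit of the sequence `u` (weak star) -/
def IsUL (u : ℕ → (X →ᵇ ℂ) →L[ℂ] ℂ) (ω : (X →ᵇ ℂ) →L[ℂ] ℂ) : Prop :=
  ∀ f, Tendsto (fun k => u k f) (hyperfilter ℕ : Filter ℕ) (𝓝 (ω f))

lemma exists_ul_scalar {u : ℕ → ℂ} {K : ℝ} (hu : ∀ k, ‖u k‖ ≤ K) :
    ∃ z, ‖z‖ ≤ K ∧ Tendsto u (hyperfilter ℕ : Filter ℕ) (𝓝 z) := by
  obtain ⟨z, hz, hz'⟩ := (isCompact_closedBall (0 : ℂ) K).ultrafilter_le_nhds
    ((hyperfilter ℕ).map u) (by
      rw [Ultrafilter.coe_map, le_principal_iff, mem_map]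
      apply Filter.univ_mem'
      intro k
      simpa using hu k)
  exact ⟨z, by simpa using hz, hz'⟩

lemma exists_ul {u : ℕ → (X →ᵇ ℂ) →L[ℂ] ℂ} {K : ℝ} (hu : ∀ k, ‖u k‖ ≤ K) :
    ∃ ω, IsUL u ω ∧ ‖ω‖ ≤ K := by
  have h : ∀ f : X →ᵇ ℂ, ∃ z, ‖z‖ ≤ K * ‖f‖ ∧ Tendsto (fun k => u k f)
      (hyperfilter ℕ : Filter ℕ) (𝓝 z) := fun f =>
    exists_ul_scalar (fun k => (u k).le_of_opNorm_le (hu k) f)
  choose F hF1 hF2 using h
  have hK : 0 ≤ K := (norm_nonneg _).trans (hu 0)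
  let F' : (X →ᵇ ℂ) →ₗ[ℂ] ℂ :=
    { toFun := F
      map_add' := by
        intro f g
        have := (hF2 f).add (hF2 g)
        have h2 := hF2 (f + g)
        simp only [map_add] at h2
        exact tendsto_nhds_unique h2 this
      map_smul' := by
        intro c f
        have := (hF2 f).const_smul c
        have h2 := hF2 (c • f)
        simp only [map_smul] at h2
        exact tendsto_nhds_unique h2 this }
  refine ⟨F'.mkContinuous K hF1, hF2, LinearMap.mkContinuous_norm_le _ hK _⟩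

/-- the generalised limit, as a relation -/
def IsL (u : ℕ → TT X) (τ : TT X) : Prop := ∃ ω, IsUL (fun k => (u k).fn) ω ∧ IsTP ω τ.fn

lemma IsL.unique {u : ℕ → TT X} {τ τ' : TT X} (h : IsL u τ) (h' : IsL u τ') : τ = τ' := by
  obtain ⟨ω, h1, h2⟩ := h
  obtain ⟨ω', h1', h2'⟩ := h'
  have : ω = ω' := ContinuousLinearMap.ext fun f => tendsto_nhds_unique (h1 f) (h1' f)
  subst this
  exact Subtype.ext (h2.unique h2')

lemma exists_isL {u : ℕ → TT X} {K : ℝ} (hu : ∀ k, ‖u k‖ ≤ K) : ∃ τ, IsL u τ ∧ ‖τ‖ ≤ K := by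
  obtain ⟨ω, h1, h2⟩ := exists_ul (u := fun k => (u k).fn) hu
  obtain ⟨τ, hτ⟩ := exists_tp ω
  exact ⟨⟨τ, hτ.tight⟩, ⟨ω, h1, hτ⟩, hτ.norm_le.trans h2⟩

open Classical in
/-- the generalised limit -/
noncomputable def Lim (u : ℕ → TT X) : TT X := if h : ∃ τ, IsL u τ then h.choose else 0

lemma Lim_eq {u : ℕ → TT X} {τ : TT X} (h : IsL u τ) : Lim u = τ := by
  have h' : ∃ τ, IsL u τ := ⟨τ, h⟩
  unfold Lim
  rw [dif_pos h']
  exact h'.choose_spec.unique h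

end lim

end Pool.Agent.H63.L1
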