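import Mathlib
import Pool.Agent.H63.L1.Tight
import Pool.Agent.H63.L1.Descent

set_option autoImplicit false

/-!
# The generalised limit on tight functionals, and the standard complex
-/

namespace Pool.Agent.H63.L1

set_option linter.unusedSectionVars false

open BoundedContinuousFunction Filter Topology Set

section lim

variable {X : Type*} [TopologicalSpace X] [LocallyCompactSpace X] [T2Space X] {H : Type*} [Group H]

lemma IsL.add {u v : ℕ → TT X} {a b : TT X} (h : IsL u a) (h' : IsL v b) :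
    IsL (fun k => u k + v k) (a + b) := by
  obtain ⟨ω, h1, h2⟩ := h
  obtain ⟨ω', h1', h2'⟩ := h'
  exact ⟨ω + ω', fun f => (h1 f).add (h1' f), h2.add h2'⟩

lemma IsL.smul (c : ℂ) {u : ℕ → TT X} {a : TT X} (h : IsL u a) :
    IsL (fun k => c • u k) (c • a) := by
  obtain ⟨ω, h1, h2⟩ := h
  exact ⟨c • ω, fun f => (h1 f).const_smul c, h2.smul c⟩

lemma IsL.push {u : ℕ → TT X} {a : TT X} (h : IsL u a) (p : X ≃ₜ X) :
    IsL (fun k => push (p : C(X, X)) (u k)) (push (p : C(X, X)) a) := by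
  obtain ⟨ω, h1, h2⟩ := h
  exact ⟨pushD (p : C(X, X)) ω, fun f => h1 _, h2.push p⟩

lemma IsL.const (a : TT X) : IsL (fun _ => a) a :=
  ⟨a.fn, fun _ => tendsto_const_nhds, IsTP.of_tight a.tight⟩

lemma IsL.congr {u v : ℕ → TT X} {a : TT X} (h : IsL u a) (e : ∀ᶠ k in atTop, u k = v k) :
    IsL v a := by
  obtain ⟨ω, h1, h2⟩ := h
  refine ⟨ω, fun f => ?_, h2⟩
  apply (h1 f).congr'
  have : (hyperfilter ℕ : Filter ℕ) ≤ atTop := by
    rw [← Nat.cofinite_eq_atTop]
    exact hyperfilter_le_cofinite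
  filter_upwards [this e] with k hk
  rw [hk]

/-- The generalised limit on the space of tight functionals. -/
theorem genLim (p : H → X ≃ₜ X) : GenLim (fun g : H => push (p g : C(X, X))) (Lim (X := X)) := by
  have key : ∀ u : ℕ → TT X, Bd u → ∃ a, IsL u a := by
    rintro u ⟨K, hK⟩
    obtain ⟨a, ha, -⟩ := exists_isL hK
    exact ⟨a, ha⟩
  refine ⟨?_, ?_, ?_, ?_, ?_, ?_⟩
  · intro u v hu hv
    obtain ⟨a, ha⟩ := key u hu
    obtain ⟨b, hb⟩ := key v hv
    rw [Lim_eq ha, Lim_eq hb, Lim_eq (ha.add hb)]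
  · intro c u hu
    obtain ⟨a, ha⟩ := key u hu
    rw [Lim_eq ha, Lim_eq (ha.smul c)]
  · refine ⟨1, zero_le_one, fun u K hK => ?_⟩
    obtain ⟨a, ha, ha'⟩ := exists_isL hK
    rw [Lim_eq ha, one_mul]
    exact ha'
  · intro g u hu
    obtain ⟨a, ha⟩ := key u hu
    rw [Lim_eq ha, Lim_eq (ha.push (p g))]
  · intro u v hu _ e
    obtain ⟨a, ha⟩ := key u hu
    rw [Lim_eq ha, Lim_eq (ha.congr e)]
  · intro m
    exact Lim_eq (IsL.const m)

end lim

section cochains

/-- the homogeneous coboundary of a function -/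
def cob {G : Type*} (n : ℕ) (f : (Fin n → G) → ℂ) (x : Fin (n + 1) → G) : ℂ :=
  ∑ i : Fin (n + 1), (-1) ^ (i : ℕ) * f (i.removeNth x)

lemma removeNth_cons_succ {G : Type*} {n : ℕ} (g : G) (x : Fin (n + 1) → G) (i : Fin (n + 1)) :
    i.succ.removeNth (Fin.cons (α := fun _ => G) g x) = Fin.cons (α := fun _ => G) g (i.removeNth x) := by
  funext j
  refine Fin.cases ?_ (fun j => ?_) j
  · simp [Fin.removeNth, Fin.succAbove]
  · simp [Fin.removeNth, Fin.succ_succAbove_succ]

lemma removeNth_cons_zero {G : Type*} {n : ℕ} (g : G) (x : Fin n → G) :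
    (0 : Fin (n + 1)).removeNth (Fin.cons (α := fun _ => G) g x) = x := by
  funext j
  simp [Fin.removeNth]

lemma cob_succ {G : Type*} (n : ℕ) (f : (Fin (n + 1) → G) → ℂ) (g : G) (x : Fin (n + 1) → G) :
    cob (n + 1) f (Fin.cons (α := fun _ => G) g x) =
      f x - cob n (fun y => f (Fin.cons (α := fun _ => G) g y)) x := by
  unfold cob
  rw [Fin.sum_univ_succ, removeNth_cons_zero]
  simp only [removeNth_cons_succ, Fin.val_succ, Fin.val_zero, pow_zero, one_mul, pow_succ]
  rw [sub_eq_add_neg, ← Finset.sum_neg_distrib]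
  congr 1
  apply Finset.sum_congr rfl
  intro i _
  ring

lemma cob_zero {G : Type*} (f : (Fin 0 → G) → ℂ) (x : Fin 1 → G) : cob 0 f x = f Fin.elim0 := by
  have e : (Fin.removeNth (0 : Fin 1) x : Fin 0 → G) = Fin.elim0 := funext fun j => j.elim0
  unfold cob
  rw [Fin.sum_univ_succ, Fin.sum_univ_zero, add_zero, e]
  simp

lemma cob_add {G : Type*} (n : ℕ) (f h : (Fin n → G) → ℂ) (x : Fin (n + 1) → G) :
    cob n (fun y => f y + h y) x = cob n f x + cob n h x := by
  unfold cob
  rw [← Finset.sum_add_distrib]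
  apply Finset.sum_congr rfl
  intro i _
  ring

lemma cob_sub {G : Type*} (n : ℕ) (f h : (Fin n → G) → ℂ) (x : Fin (n + 1) → G) :
    cob n (fun y => f y - h y) x = cob n f x - cob n h x := by
  unfold cob
  rw [← Finset.sum_sub_distrib]
  apply Finset.sum_congr rfl
  intro i _
  ring

lemma cob_cob {G : Type*} (n : ℕ) (f : (Fin n → G) → ℂ) (x : Fin (n + 2) → G) :
    cob (n + 1) (cob n f) x = 0 := by
  induction n with
  | zero =>
    rw [← Fin.cons_self_tail x, cob_succ]
    simp only [cob_zero, sub_self]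
  | succ n ih =>
    rw [← Fin.cons_self_tail x, cob_succ]
    have : (fun y => cob (n + 1) f (Fin.cons (α := fun _ => G) (x 0) y)) =
        fun y => f y - cob n (fun y => f (Fin.cons (α := fun _ => G) (x 0) y)) y := by
      funext y
      rw [cob_succ]
    rw [this, cob_sub, ih]
    ring

end cochains

end Pool.Agent.H63.L1
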