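import Mathlib
import Pool.Agent.H63.L1.TightLim

set_option autoImplicit false

/-!
# The homogeneous complexes of measures and of `ℓ¹` chains
-/

namespace Pool.Agent.H63.L1

set_option linter.unusedSectionVars false

open BoundedContinuousFunction Filter Topology Set

section meas

variable {G : Type*} [Group G] [TopologicalSpace G] [IsTopologicalGroup G]

/-- the face maps -/
def face (n : ℕ) (i : Fin (n + 1)) : C(Fin (n + 1) → G, Fin n → G) :=
  ⟨fun x => i.removeNth x, by unfold Fin.removeNth; fun_prop⟩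

/-- the boundary on measures -/
noncomputable def bdm (n : ℕ) : TT (Fin (n + 1) → G) →L[ℂ] TT (Fin n → G) :=
  ∑ i : Fin (n + 1), ((-1 : ℂ) ^ (i : ℕ)) • push (face n i)

/-- the coboundary on bounded continuous functions -/
noncomputable def cobB (n : ℕ) : ((Fin n → G) →ᵇ ℂ) →L[ℂ] ((Fin (n + 1) → G) →ᵇ ℂ) :=
  ∑ i : Fin (n + 1), ((-1 : ℂ) ^ (i : ℕ)) • pull (face n i)

lemma cobB_apply (n : ℕ) (f : (Fin n → G) →ᵇ ℂ) (x : Fin (n + 1) → G) :
    cobB n f x = cob n f x := by
  unfold cobB cob
  rw [_root_.sum_apply, BoundedContinuousFunction.sum_apply]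
  rfl

lemma bdm_fn (n : ℕ) (ω : TT (Fin (n + 1) → G)) (f : (Fin n → G) →ᵇ ℂ) :
    (bdm n ω).fn f = ω.fn (cobB n f) := by
  unfold bdm cobB
  rw [_root_.sum_apply, _root_.sum_apply, TT.fn_sum, _root_.sum_apply, map_sum]
  apply Finset.sum_congr rfl
  intro i _
  rw [_root_.smul_apply, _root_.smul_apply, map_smul, TT.fn_smul, _root_.smul_apply, push_fn]

lemma bdm_bdm (n : ℕ) (ω : TT (Fin (n + 2) → G)) : bdm n (bdm (n + 1) ω) = 0 := by
  apply TT.ext
  intro f
  rw [bdm_fn, bdm_fn, TT.fn_zero, _root_.zero_apply]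
  have : cobB (n + 1) (cobB n f) = 0 := by
    ext x
    rw [cobB_apply]
    have : (cobB n f : (Fin (n + 1) → G) → ℂ) = cob n f := funext (cobB_apply n f)
    rw [this, cob_cob]
    rfl
  rw [this, map_zero]

/-- left translation -/
noncomputable def ltm {X : Type*} [TopologicalSpace X] [MulAction G X] [ContinuousConstSMul G X]
    (g : G) : TT X →L[ℂ] TT X := push ((Homeomorph.smul g : X ≃ₜ X) : C(X, X))

lemma ltm_mul {X : Type*} [TopologicalSpace X] [MulAction G X] [ContinuousConstSMul G X]
    (g h : G) (ω : TT X) : ltm (g * h) ω = ltm g (ltm h ω) := by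
  apply TT.ext
  intro f
  show ω.fn _ = ω.fn _
  congr 1
  ext x
  show f ((g * h) • x) = f (g • h • x)
  rw [mul_smul]

lemma ltm_one {X : Type*} [TopologicalSpace X] [MulAction G X] [ContinuousConstSMul G X]
    (ω : TT X) : ltm (1 : G) ω = ω := by
  apply TT.ext
  intro f
  show ω.fn _ = ω.fn _
  congr 1
  ext x
  show f ((1 : G) • x) = f x
  rw [one_smul]

lemma norm_ltm_le {X : Type*} [TopologicalSpace X] [MulAction G X] [ContinuousConstSMul G X]
    (g : G) : ‖(ltm g : TT X →L[ℂ] TT X)‖ ≤ 1 := push_norm_le _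

lemma bdm_ltm (n : ℕ) (g : G) (ω : TT (Fin (n + 1) → G)) : bdm n (ltm g ω) = ltm g (bdm n ω) := by
  unfold bdm
  rw [_root_.sum_apply, _root_.sum_apply, map_sum]
  apply Finset.sum_congr rfl
  intro i _
  rw [_root_.smul_apply, _root_.smul_apply, map_smul]
  rfl

/-- the cone -/
def conec (n : ℕ) (g : G) : C(Fin n → G, Fin (n + 1) → G) :=
  ⟨fun x => Fin.cons (α := fun _ => G) g x, by
    refine continuous_pi fun i => ?_
    refine Fin.cases ?_ (fun j => ?_) i
    · simpa using continuous_const
    · simpa using continuous_apply j⟩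

lemma bdm_cone_zero (g : G) (ω : TT (Fin 0 → G)) : bdm 0 (push (conec 0 g) ω) = ω := by
  apply TT.ext
  intro f
  rw [bdm_fn, push_fn]
  congr 1
  ext x
  rw [pull_apply, cobB_apply, cob_zero]
  congr 1
  exact funext fun j => j.elim0

lemma bdm_cone_succ (n : ℕ) (g : G) (ω : TT (Fin (n + 1) → G)) :
    bdm (n + 1) (push (conec (n + 1) g) ω) = ω - push (conec n g) (bdm n ω) := by
  apply TT.ext
  intro f
  rw [bdm_fn, push_fn, TT.fn_sub, _root_.sub_apply, push_fn, bdm_fn, ← map_sub]
  congr 1
  ext x
  rw [pull_apply, cobB_apply]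
  show cob (n + 1) f (Fin.cons (α := fun _ => G) g x) = f x - cobB n (pull (conec n g) f) x
  rw [cob_succ, cobB_apply]
  rfl

end meas

section ell

/-- the space `ℓ¹(X)` -/
abbrev El (X : Type*) : Type _ := lp (fun _ : X => ℂ) 1

variable {X Y Z : Type*} {E : Type*} [NormedAddCommGroup E] [NormedSpace ℂ E] [CompleteSpace E]

open Classical in
/-- basis vectors -/
noncomputable def del (x : X) : El X := lp.single 1 x (1 : ℂ)

lemma El.norm_eq (z : El X) : ‖z‖ = ∑' x, ‖z x‖ := by
  rw [lp.norm_eq_tsum_rpow (by simp) z]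
  simp

lemma El.summable (z : El X) : Summable (fun x => ‖z x‖) := by
  have := (lp.memℓp z).summable (by simp)
  simpa using this

lemma norm_del (x : X) : ‖del x‖ = 1 := by
  classical
  unfold del
  rw [lp.norm_single (by simp)]
  simp

lemma El.hasSum (z : El X) : HasSum (fun x => z x • del x) z := by
  classical
  have h := lp.hasSum_single (p := 1) (by simp) z
  have e : (fun x => z x • del x) = fun i => lp.single 1 i (z i) := by
    funext x
    unfold del
    rw [← lp.single_smul]
    simp
  rw [e]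
  exact h

lemma El.summable_lift {v : X → E} {C : ℝ} (hv : ∀ x, ‖v x‖ ≤ C) (z : El X) :
    Summable (fun x => ‖z x • v x‖) := by
  apply Summable.of_nonneg_of_le (fun _ => norm_nonneg _) (fun x => ?_) (z.summable.mul_right C)
  rw [norm_smul]
  gcongr
  exact hv x

/-- the universal property of `ℓ¹` -/
noncomputable def lift (v : X → E) (C : ℝ) (hv : ∀ x, ‖v x‖ ≤ C) : El X →L[ℂ] E :=
  LinearMap.mkContinuous
    { toFun := fun z : El X => ∑' x, z x • v x
      map_add' := by
        intro z w
        rw [← Summable.tsum_add (El.summable_lift hv z).of_norm (El.summable_lift hv w).of_norm]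
        congr 1
        funext x
        rw [lp.coeFn_add, Pi.add_apply, add_smul]
      map_smul' := by
        intro c z
        rw [RingHom.id_apply, ← Summable.tsum_const_smul _ (El.summable_lift hv z).of_norm]
        congr 1
        funext x
        rw [lp.coeFn_smul, Pi.smul_apply, smul_eq_mul, mul_smul] } C (by
    intro z
    show ‖∑' x, z x • v x‖ ≤ C * ‖z‖
    rw [El.norm_eq, ← tsum_mul_left]
    refine (norm_tsum_le_tsum_norm (El.summable_lift hv z)).trans ?_
    apply Summable.tsum_le_tsum _ (El.summable_lift hv z) (z.summable.mul_left C)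
    intro x
    rw [norm_smul, mul_comm]
    gcongr
    exact hv x)

lemma lift_apply (v : X → E) (C : ℝ) (hv : ∀ x, ‖v x‖ ≤ C) (z : El X) :
    lift v C hv z = ∑' x, z x • v x := rfl

lemma lift_del (v : X → E) (C : ℝ) (hv : ∀ x, ‖v x‖ ≤ C) (x : X) : lift v C hv (del x) = v x := by
  classical
  rw [lift_apply, tsum_eq_single x]
  · unfold del
    simp
  · intro y hy
    unfold del
    rw [lp.coeFn_single, Pi.single_eq_of_ne hy, zero_smul]

lemma lift_norm_le (v : X → E) (C : ℝ) (hC : 0 ≤ C) (hv : ∀ x, ‖v x‖ ≤ C) : ‖lift v C hv‖ ≤ C :=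
  LinearMap.mkContinuous_norm_le _ hC _

lemma El.hom_ext {F : Type*} [NormedAddCommGroup F] [NormedSpace ℂ F] {φ φ' : El X →L[ℂ] F}
    (h : ∀ x, φ (del x) = φ' (del x)) : φ = φ' := by
  ext z
  have h1 := z.hasSum.mapL φ
  have h2 := z.hasSum.mapL φ'
  have e : (fun x => φ (z x • del x)) = fun x => φ' (z x • del x) := by
    funext x
    rw [map_smul, map_smul, h]
  rw [e] at h1
  exact h1.unique h2

/-- push forward -/
noncomputable def epush (p : X → Y) : El X →L[ℂ] El Y :=
  lift (fun x => del (p x)) 1 (fun x => (norm_del (p x)).le)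

lemma epush_del (p : X → Y) (x : X) : epush p (del x) = del (p x) := lift_del _ _ _ _

lemma epush_norm_le (p : X → Y) : ‖epush p‖ ≤ 1 := lift_norm_le _ _ zero_le_one _

lemma epush_comp (p : X → Y) (q : Y → Z) : epush (q ∘ p) = (epush q).comp (epush p) := by
  apply El.hom_ext
  intro x
  rw [epush_del, ContinuousLinearMap.comp_apply, epush_del, epush_del]
  rfl

lemma epush_id : epush (id : X → X) = ContinuousLinearMap.id ℂ (El X) := by
  apply El.hom_ext
  intro x
  rw [epush_del]
  rfl

variable {H : Type*} [Group H]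

/-- the boundary on chains -/
noncomputable def bde (n : ℕ) : El (Fin (n + 1) → H) →L[ℂ] El (Fin n → H) :=
  ∑ i : Fin (n + 1), ((-1 : ℂ) ^ (i : ℕ)) • epush (fun x : Fin (n + 1) → H => (i.removeNth x : Fin n → H))

/-- the cone -/
noncomputable def conee (n : ℕ) (g : H) : El (Fin n → H) →L[ℂ] El (Fin (n + 1) → H) :=
  epush (fun x => Fin.cons (α := fun _ => H) g x)

/-- translation -/
noncomputable def lte (n : ℕ) (g : H) : El (Fin n → H) →L[ℂ] El (Fin n → H) :=
  epush (fun x => g • x)

lemma bde_del (n : ℕ) (x : Fin (n + 1) → H) : bde n (del x) =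
    ∑ i : Fin (n + 1), ((-1 : ℂ) ^ (i : ℕ)) • del (i.removeNth x : Fin n → H) := by
  unfold bde
  rw [_root_.sum_apply]
  apply Finset.sum_congr rfl
  intro i _
  rw [_root_.smul_apply, epush_del]

lemma bde_cone_zero (g : H) (z : El (Fin 0 → H)) : bde 0 (conee 0 g z) = z := by
  have : (bde 0).comp (conee 0 g) = ContinuousLinearMap.id ℂ (El (Fin 0 → H)) := by
    apply El.hom_ext
    intro x
    rw [ContinuousLinearMap.comp_apply, conee, epush_del, bde_del, Fin.sum_univ_succ,
      Fin.sum_univ_zero, removeNth_cons_zero]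
    simp
  exact congrArg (fun f => f z) this

lemma bde_cone_succ (n : ℕ) (g : H) (z : El (Fin (n + 1) → H)) :
    bde (n + 1) (conee (n + 1) g z) = z - conee n g (bde n z) := by
  have : (bde (n + 1)).comp (conee (n + 1) g) =
      ContinuousLinearMap.id ℂ (El (Fin (n + 1) → H)) - (conee n g).comp (bde n) := by
    apply El.hom_ext
    intro x
    rw [ContinuousLinearMap.comp_apply, _root_.sub_apply, ContinuousLinearMap.comp_apply,
      ContinuousLinearMap.id_apply, bde_del, conee, conee, epush_del, bde_del, Fin.sum_univ_succ,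
      removeNth_cons_zero, map_sum, sub_eq_add_neg, ← Finset.sum_neg_distrib]
    congr 1
    · simp
    · apply Finset.sum_congr rfl
      intro i _
      rw [removeNth_cons_succ, map_smul, epush_del, Fin.val_succ, pow_succ, mul_neg, mul_one,
        neg_smul]
  exact congrArg (fun f => f z) this

lemma bde_comp (n : ℕ) : (bde n).comp (bde (n + 1)) =
    (0 : El (Fin (n + 2) → H) →L[ℂ] El (Fin n → H)) := by
  induction n with
  | zero =>
    apply El.hom_ext
    intro x
    rw [ContinuousLinearMap.comp_apply, ← Fin.cons_self_tail x]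
    have e : del (Fin.cons (α := fun _ => H) (x 0) (Fin.tail x)) =
      conee 1 (x 0) (del (Fin.tail x)) := (epush_del _ _).symm
    rw [e, bde_cone_succ, map_sub, bde_cone_zero, sub_self]
    rfl
  | succ n ih =>
    apply El.hom_ext
    intro x
    rw [ContinuousLinearMap.comp_apply, ← Fin.cons_self_tail x]
    have e : del (Fin.cons (α := fun _ => H) (x 0) (Fin.tail x)) =
      conee (n + 2) (x 0) (del (Fin.tail x)) := (epush_del _ _).symm
    have ih' := congrArg (fun f => f (del (Fin.tail x))) ih
    rw [e, bde_cone_succ, map_sub, bde_cone_succ]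
    have : bde n (bde (n + 1) (del (Fin.tail x))) = 0 := ih'
    rw [this, map_zero, sub_zero, sub_self]
    rfl

lemma bde_bde (n : ℕ) (z : El (Fin (n + 2) → H)) : bde n (bde (n + 1) z) = 0 :=
  congrArg (fun f => f z) (bde_comp n)

lemma lte_mul (n : ℕ) (g h : H) : lte n (g * h) = (lte n g).comp (lte n h) := by
  unfold lte
  rw [← epush_comp]
  congr 1
  funext x
  exact mul_smul g h x

lemma lte_one (n : ℕ) : lte n (1 : H) = ContinuousLinearMap.id ℂ _ := by
  unfold lte
  rw [← epush_id]
  congr 1
  funext x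
  exact one_smul H x

lemma norm_lte_le (n : ℕ) (g : H) : ‖lte n g‖ ≤ 1 := epush_norm_le _

lemma bde_lte (n : ℕ) (g : H) (z : El (Fin (n + 1) → H)) :
    bde n (lte (n + 1) g z) = lte n g (bde n z) := by
  have : (bde n).comp (lte (n + 1) g) = (lte n g).comp (bde n) := by
    apply El.hom_ext
    intro x
    rw [ContinuousLinearMap.comp_apply, ContinuousLinearMap.comp_apply, lte, epush_del, bde_del,
      bde_del, map_sum]
    apply Finset.sum_congr rfl
    intro i _
    rw [map_smul, lte, epush_del]
    rfl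
  exact congrArg (fun f => f z) this

end ell

end Pool.Agent.H63.L1
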