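import Mathlib
import Pool.Agent.H63.L1.Random

set_option autoImplicit false

/-!
# Existence of random coalescing maps with large, locally finite classes
-/

namespace Pool.Agent.H63.L1

open MeasureTheory Set
open scoped ENNReal Pointwise unitInterval

variable {H : Type*} [Group H]

/-- `B` is small: finitely many two-sided translates of `B` and `B⁻¹` do not cover `H`. -/
def Small (B : Set H) : Prop :=
  (1 : H) ∈ B ∧ ∀ F : Finset H, ∃ γ : H, ∀ a ∈ F, ∀ b ∈ F, ∀ z ∈ B, γ ≠ a * z * b ∧ γ ≠ a * z⁻¹ * b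

lemma small_one [Infinite H] : Small ({1} : Set H) := by
  classical
  refine ⟨rfl, fun F => ?_⟩
  obtain ⟨γ, hγ⟩ := Infinite.exists_notMem_finset (F * F)
  refine ⟨γ, fun a ha b hb z hz => ?_⟩
  rw [mem_singleton_iff.mp hz]
  have : γ ≠ a * b := by
    rintro rfl
    exact hγ (Finset.mul_mem_mul ha hb)
  simpa using this

lemma far_list {B : Set H} (hB : Small B) (F : Finset H) (hF : F.Nonempty) (n : ℕ) :
    ∃ l : List H, l.length = n + 1 ∧ l.Nodup ∧ (1 : H) ∈ l ∧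
      ∀ γ ∈ l, ∀ γ' ∈ l, γ ≠ γ' → ∀ a ∈ F, ∀ b ∈ F, ∀ z ∈ B, γ' * γ⁻¹ ≠ a⁻¹ * z * b := by
  classical
  induction n with
  | zero =>
    refine ⟨[1], rfl, List.nodup_singleton _, by simp, ?_⟩
    intro γ hγ γ' hγ' hne
    simp only [List.mem_singleton] at hγ hγ'
    exact absurd (hγ.trans hγ'.symm) hne
  | succ n ih =>
    obtain ⟨l, hl, hnd, h1, hfar⟩ := ih
    obtain ⟨γ, hγ⟩ := hB.2 (F⁻¹ ∪ F * l.toFinset)
    have m1 : ∀ a ∈ F, a⁻¹ ∈ F⁻¹ ∪ F * l.toFinset := fun a ha =>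
      Finset.mem_union_left _ (Finset.inv_mem_inv ha)
    have m2 : ∀ a ∈ F, ∀ b ∈ l, a * b ∈ F⁻¹ ∪ F * l.toFinset := fun a ha b hb =>
      Finset.mem_union_right _ (Finset.mul_mem_mul ha (List.mem_toFinset.mpr hb))
    obtain ⟨a₀, ha₀⟩ := hF
    refine ⟨γ :: l, by simp [hl], ?_, by simp [h1], ?_⟩
    · rw [List.nodup_cons]
      refine ⟨fun hmem => ?_, hnd⟩
      have := (hγ a₀⁻¹ (m1 a₀ ha₀) (a₀ * γ) (m2 a₀ ha₀ γ hmem) 1 hB.1).1
      apply this
      group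
    · intro γ₁ h₁ γ₂ h₂ hne a ha b hb z hz
      rcases List.mem_cons.mp h₁ with e₁ | k₁ <;> rcases List.mem_cons.mp h₂ with e₂ | k₂
      · exact absurd (e₁.trans e₂.symm) hne
      · -- `γ₂ ∈ l`, `γ₁` new
        have := (hγ b⁻¹ (m1 b hb) (a * γ₂) (m2 a ha γ₂ k₂) z hz).2
        intro e
        rw [← e₁] at this
        apply this
        have : γ₁ = (γ₂ * γ₁⁻¹)⁻¹ * γ₂ := by group
        rw [e] at this
        calc γ₁ = (a⁻¹ * z * b)⁻¹ * γ₂ := this
          _ = b⁻¹ * z⁻¹ * (a * γ₂) := by group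
      · have := (hγ a⁻¹ (m1 a ha) (b * γ₁) (m2 b hb γ₁ k₁) z hz).1
        intro e
        rw [← e₂] at this
        apply this
        calc γ₂ = (γ₂ * γ₁⁻¹) * γ₁ := by group
          _ = a⁻¹ * z * b * γ₁ := by rw [e]
          _ = a⁻¹ * z * (b * γ₁) := by group
      · exact hfar γ₁ k₁ γ₂ k₂ hne a ha b hb z hz

/-- the probabilities -/
noncomputable def pr (k : ℕ) : unitInterval :=
  ⟨1 / ((k : ℝ) + 2), by positivity, by
    rw [div_le_one (by positivity)]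
    linarith [Nat.cast_nonneg (α := ℝ) k]⟩

lemma exists_len (k : ℕ) : ∃ n : ℕ, (1 - (pr k : ℝ)) ^ n ≤ pr k := by
  have h0 : (0 : ℝ) < pr k := by
    show (0 : ℝ) < 1 / ((k : ℝ) + 2)
    positivity
  obtain ⟨n, hn⟩ := exists_pow_lt_of_lt_one h0 (by linarith : 1 - (pr k : ℝ) < 1)
  exact ⟨n, hn.le⟩

/-- **Random coalescing maps.** -/
theorem exists_random (B : ℕ → Set H) (hB : ∀ k, Small (B k)) :
    ∃ (Γ : ℕ → List H) (p : ℕ → unitInterval),
      (∀ k g x, x ∈ Dset Γ p (k + 1) g → x ∉ Dset Γ p k g → g ∉ B k) ∧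
      (∀ N : ℕ, ∀ ε : ℝ, 0 < ε → ∃ k, mu H {x | (cls Γ p k x).card < N} ≤ ENNReal.ofReal ε) := by
  classical
  choose len hlen using exists_len
  -- choice of the lists
  have hch : ∀ (k : ℕ) (F : Finset H), ∃ l : List H, F.Nonempty →
      (l.length = len k + 1 ∧ l.Nodup ∧ (1 : H) ∈ l ∧
      ∀ γ ∈ l, ∀ γ' ∈ l, γ ≠ γ' → ∀ a ∈ F, ∀ b ∈ F, ∀ z ∈ B k, γ' * γ⁻¹ ≠ a⁻¹ * z * b) := by
    intro k F
    by_cases hF : F.Nonempty
    · obtain ⟨l, hl⟩ := far_list (hB k) F hF (len k)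
      exact ⟨l, fun _ => hl⟩
    · exact ⟨[], fun h => absurd h hF⟩
  choose ch hch using hch
  -- the finite sets
  let Q : ℕ → Finset H := fun k => Nat.rec {1} (fun k F => F ∪ F * (ch k F).toFinset) k
  let Γ : ℕ → List H := fun k => ch k (Q k)
  have hQ : ∀ k, Pf Γ k = Q k := by
    intro k
    induction k with
    | zero => rfl
    | succ k ih =>
      show Pf Γ k ∪ Pf Γ k * (Γ k).toFinset = Q k ∪ Q k * (ch k (Q k)).toFinset
      rw [ih]
  have hne : ∀ k, (Q k).Nonempty := by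
    intro k
    induction k with
    | zero => exact ⟨1, Finset.mem_singleton_self _⟩
    | succ k ih => exact ih.mono Finset.subset_union_left
  refine ⟨Γ, pr, ?_, ?_⟩
  · intro k g x hx hx' hg
    obtain ⟨_, _, h1, hfar⟩ := hch k (Q k) (hne k)
    obtain ⟨u, hu, e⟩ := pim_mem Γ pr k x 1
    obtain ⟨u', hu', e'⟩ := pim_mem Γ pr k x g⁻¹
    rw [one_mul] at e
    rw [hQ] at hu hu'
    have hmem : ∀ a : H, ∃ γ ∈ Γ k, srch (pr k) x a (Γ k) = a * γ := by
      intro a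
      rcases srch_mem (pr k) x a (Γ k) with h | h
      · exact ⟨1, h1, by rw [h, mul_one]⟩
      · exact h
    obtain ⟨γ, hγ, e1⟩ := hmem u
    obtain ⟨γ', hγ', e2⟩ := hmem (g⁻¹ * u')
    have hx1 : g⁻¹ * u' * γ' = u * γ := by
      have : pim Γ pr (k + 1) x g⁻¹ = pim Γ pr (k + 1) x 1 := hx
      simp only [pim, e, e'] at this
      rw [← e1, ← e2]
      exact this
    have hne' : γ ≠ γ' := by
      rintro rfl
      apply hx'
      show pim Γ pr k x g⁻¹ = pim Γ pr k x 1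
      rw [e, e']
      exact mul_right_cancel hx1
    refine hfar γ hγ γ' hγ' hne' u' hu' u hu g hg ?_
    calc γ' * γ⁻¹ = u'⁻¹ * g * (g⁻¹ * u' * γ') * γ⁻¹ := by group
      _ = u'⁻¹ * g * u := by rw [hx1]; group
  · intro N ε hε
    obtain ⟨k, hk⟩ : ∃ k : ℕ, (N : ℝ) * (2 * pr k) ≤ ε := by
      obtain ⟨k, hk⟩ := exists_nat_gt (2 * N / ε)
      refine ⟨k, ?_⟩
      show (N : ℝ) * (2 * (1 / ((k : ℝ) + 2))) ≤ ε
      have hk2 : (0 : ℝ) < (k : ℝ) + 2 := by positivity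
      rw [show (N : ℝ) * (2 * (1 / ((k : ℝ) + 2))) = 2 * N / (k + 2) by ring, div_le_iff₀ hk2]
      rw [div_lt_iff₀ hε] at hk
      nlinarith
    refine ⟨k + 1, (mu_small_cls Γ pr (k + 1) N).trans ?_⟩
    obtain ⟨hl, hnd, _, _⟩ := hch k (Q k) (hne k)
    have h1 := mu_inc_nonempty Γ pr k hnd
    have hp0 : (0 : ℝ) ≤ pr k := (pr k).2.1
    have hp1 : (pr k : ℝ) ≤ 1 := (pr k).2.2
    have h2 : ENNReal.ofReal (pr k) + ENNReal.ofReal (1 - pr k) ^ (Γ k).length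
        ≤ ENNReal.ofReal (2 * pr k) := by
      rw [← ENNReal.ofReal_pow (by linarith), ← ENNReal.ofReal_add hp0 (by positivity)]
      apply ENNReal.ofReal_le_ofReal
      have h3 : (1 - (pr k : ℝ)) ^ (Γ k).length ≤ (1 - (pr k : ℝ)) ^ (len k) := by
        apply pow_le_pow_of_le_one (by linarith) (by linarith)
        show len k ≤ (ch k (Q k)).length
        omega
      have h4 := hlen k
      linarith
    calc (N : ℝ≥0∞) * mu H {x | (inc Γ pr (k + 1) x).Nonempty}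
        ≤ N * ENNReal.ofReal (2 * pr k) := by
          gcongr
          exact h1.trans h2
      _ = ENNReal.ofReal (N * (2 * pr k)) := by
          rw [ENNReal.ofReal_mul (Nat.cast_nonneg N), ENNReal.ofReal_natCast]
      _ ≤ ENNReal.ofReal ε := ENNReal.ofReal_le_ofReal hk

end Pool.Agent.H63.L1
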