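import Mathlib
import Pool.Agent.H63.L1.Complex
import Pool.Agent.H63.L1.Random2

set_option autoImplicit false

/-!
# The final contradiction: masses transported along large locally finite classes
-/

namespace Pool.Agent.H63.L1

set_option linter.unusedSectionVars false

open BoundedContinuousFunction Filter Topology Set MeasureTheory

section count

variable {H : Type*} [Group H] {Γ : ℕ → List H} {p : ℕ → unitInterval} {B : ℕ → Set H}

lemma pim_act_iff (i : ℕ) (x : Lab H) (g g' : H) :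
    act g⁻¹ x ∈ Dset Γ p i (g'⁻¹ * g) ↔ pim Γ p i x g = pim Γ p i x g' := by
  have h1 := pim_act Γ p i g⁻¹ x g'
  have h2 := pim_act Γ p i g⁻¹ x g
  rw [inv_mul_cancel] at h2
  show pim Γ p i (act g⁻¹ x) (g'⁻¹ * g)⁻¹ = pim Γ p i (act g⁻¹ x) 1 ↔ _
  rw [mul_inv_rev, inv_inv, h1, h2, mul_right_inj]
  exact eq_comm

lemma pim_down (hB : Monotone B)
    (hΓ : ∀ k g x, x ∈ Dset Γ p (k + 1) g → x ∉ Dset Γ p k g → g ∉ B k)
    {j : ℕ} (x : Lab H) (g g' : H) (hq : g'⁻¹ * g ∈ B j) (k : ℕ)
    (e : pim Γ p k x g = pim Γ p k x g') : pim Γ p j x g = pim Γ p j x g' := by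
  rcases le_total k j with hkj | hjk
  · exact pim_coal_le Γ p hkj x e
  · induction k, hjk using Nat.le_induction with
    | base => exact e
    | succ k hjk ih =>
      apply ih
      by_contra hne
      refine hΓ k (g'⁻¹ * g) (act g⁻¹ x) ((pim_act_iff _ _ _ _).mpr e) ?_ (hB hjk hq)
      intro h
      exact hne ((pim_act_iff _ _ _ _).mp h)

/-- Local finiteness of the classes. -/
lemma card_local (hB : Monotone B)
    (hΓ : ∀ k g x, x ∈ Dset Γ p (k + 1) g → x ∉ Dset Γ p k g → g ∉ B k)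
    {j : ℕ} (x : Lab H) (k : ℕ) (S : Finset H) (hS : ∀ g ∈ S, pim Γ p k x g = pim Γ p k x 1)
    (hS' : ∀ g ∈ S, ∀ g' ∈ S, g'⁻¹ * g ∈ B j) : S.card ≤ (Pf Γ j).card := by
  classical
  rcases S.eq_empty_or_nonempty with rfl | ⟨g0, hg0⟩
  · simp
  · have hsub : S ⊆ (Pf Γ j).image (fun u => pim Γ p j x g0 * u⁻¹) := by
      intro g hg
      obtain ⟨u, hu, e⟩ := pim_mem Γ p j x g
      rw [Finset.mem_image]
      refine ⟨u, hu, ?_⟩
      have := pim_down hB hΓ x g g0 (hS' g hg g0 hg0) k ((hS g hg).trans (hS g0 hg0).symm)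
      rw [← this, e, mul_inv_cancel_right]
    exact (Finset.card_le_card hsub).trans Finset.card_image_le

end count

section fiber

variable {Ω ι : Type*} [MeasurableSpace Ω]

lemma measurableSet_fiber (P : Finset ι) (f : Ω → Finset ι) (hf : ∀ x, f x ⊆ P)
    (hm : ∀ i ∈ P, MeasurableSet {x | i ∈ f x}) (T : Finset ι) : MeasurableSet {x | f x = T} := by
  classical
  by_cases hT : T ⊆ P
  · have : {x | f x = T} = ⋂ i ∈ P, (if i ∈ T then {x | i ∈ f x} else {x | i ∈ f x}ᶜ) := by
      ext x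
      simp only [mem_iInter]
      constructor
      · intro h i _
        have h : f x = T := h
        split_ifs with hi
        · show i ∈ f x
          rw [h]; exact hi
        · show i ∉ f x
          rw [h]; exact hi
      · intro h
        show f x = T
        ext i
        constructor
        · intro hi
          have := h i (hf x hi)
          split_ifs at this with h'
          · exact h'
          · exact absurd hi this
        · intro hi
          have := h i (hT hi)
          rw [if_pos hi] at this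
          exact this
    rw [this]
    apply Finset.measurableSet_biInter
    intro i hi
    split_ifs
    · exact hm i hi
    · exact (hm i hi).compl
  · have : {x | f x = T} = ∅ := by
      ext x
      simp only [mem_empty_iff_false, iff_false]
      intro h
      have h : f x = T := h
      exact hT (h ▸ hf x)
    rw [this]
    exact MeasurableSet.empty

end fiber

section contra

variable {H : Type*} [Group H] {Γ : ℕ → List H} {p : ℕ → unitInterval} {B : ℕ → Set H}
  {G : Type*} [Group G] [TopologicalSpace G] [IsTopologicalGroup G]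
  {X : Type*} [TopologicalSpace X] [LocallyCompactSpace X] [T2Space X]
  [MulAction G X] [ContinuousConstSMul G X] (ι : H →* G)
  {W M : Type*} [NormedAddCommGroup W] [NormedSpace ℂ W] [NormedAddCommGroup M] [NormedSpace ℂ M]
  {Z : Set W} {ρ : H → W →L[ℂ] W} {b : TT X →L[ℂ] M} {ψ : W →L[ℂ] M}
  {Φ : Set (Lab H) → W → TT X}

/-- translate of a function -/
noncomputable def tl (g : G) (χ : X →ᵇ ℂ) : X →ᵇ ℂ := pull ((Homeomorph.smul g⁻¹ : X ≃ₜ X) : C(X, X)) χ

lemma tl_apply (g : G) (χ : X →ᵇ ℂ) (t : X) : tl g χ t = χ (g⁻¹ • t) := rfl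

lemma ltm_fn_tl (g : G) (χ : X →ᵇ ℂ) (ω : TT X) : (ltm g ω).fn (tl g χ) = ω.fn χ := by
  show ω.fn _ = ω.fn _
  congr 1
  ext x
  show χ (g⁻¹ • g • x) = χ x
  rw [inv_smul_smul]

lemma sum_norm_translates_le (χ : X →ᵇ ℂ) (hχ : ‖χ‖ ≤ 1) (ω : TT X) (S : Finset H) (n : ℕ)
    (hn : ∀ (t : X) (S' : Finset H), S' ⊆ S → (∀ g ∈ S', χ ((ι g)⁻¹ • t) ≠ 0) → S'.card ≤ n) :
    ∑ g ∈ S, ‖ω.fn (tl (ι g) χ)‖ ≤ n * ‖ω‖ := by
  classical
  have hc : ∀ g : H, ∃ c : ℂ, ‖c‖ = 1 ∧ (‖ω.fn (tl (ι g) χ)‖ : ℂ) = c * ω.fn (tl (ι g) χ) :=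
    fun g => RCLike.exists_norm_eq_mul_self (ω.fn (tl (ι g) χ))
  choose c hc1 hc2 using hc
  have e : ((∑ g ∈ S, ‖ω.fn (tl (ι g) χ)‖ : ℝ) : ℂ) = ω.fn (∑ g ∈ S, c g • tl (ι g) χ) := by
    rw [map_sum, Complex.ofReal_sum]
    apply Finset.sum_congr rfl
    intro g _
    rw [map_smul, hc2, smul_eq_mul]
  have h1 : ∑ g ∈ S, ‖ω.fn (tl (ι g) χ)‖ = ‖ω.fn (∑ g ∈ S, c g • tl (ι g) χ)‖ := by
    rw [← e, Complex.norm_real, Real.norm_of_nonneg (Finset.sum_nonneg fun _ _ => norm_nonneg _)]
  rw [h1]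
  refine (ω.fn.le_opNorm _).trans ?_
  rw [mul_comm, TT.norm_fn]
  gcongr
  rw [BoundedContinuousFunction.norm_le (Nat.cast_nonneg n)]
  intro t
  rw [BoundedContinuousFunction.sum_apply]
  calc ‖∑ g ∈ S, (c g • tl (ι g) χ) t‖ ≤ ∑ g ∈ S, ‖(c g • tl (ι g) χ) t‖ := norm_sum_le _ _
    _ ≤ ∑ g ∈ S, if χ ((ι g)⁻¹ • t) ≠ 0 then (1 : ℝ) else 0 := by
        apply Finset.sum_le_sum
        intro g _
        show ‖c g * χ ((ι g)⁻¹ • t)‖ ≤ _
        rw [norm_mul, hc1, one_mul]
        split_ifs with h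
        · exact (χ.norm_coe_le_norm _).trans hχ
        · rw [not_not] at h
          rw [h, norm_zero]
    _ = ((S.filter (fun g => χ ((ι g)⁻¹ • t) ≠ 0)).card : ℝ) := by
        rw [Finset.sum_ite, Finset.sum_const_zero, add_zero, Finset.sum_const, nsmul_eq_mul,
          mul_one]
    _ ≤ n := by
        exact_mod_cast hn t _ (Finset.filter_subset _ _) (fun g hg => (Finset.mem_filter.mp hg).2)

/-- **The final contradiction.** -/
theorem fam_mass_zero (hB : Monotone B)
    (hΓ1 : ∀ k g x, x ∈ Dset Γ p (k + 1) g → x ∉ Dset Γ p k g → g ∉ B k)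
    (hΓ2 : ∀ (N : ℕ) (ε : ℝ), 0 < ε → ∃ k, mu H {x | (cls Γ p k x).card < N} ≤ ENNReal.ofReal ε)
    (hcomp : ∀ C : Set X, IsCompact C → ∃ j, ∀ h : H, (∃ c ∈ C, ι h • c ∈ C) → h ∈ B j)
    (hΦ : Fam Γ p Z ρ (fun g => (ltm (ι g) : TT X →L[ℂ] TT X)) b ψ Φ) (z0 : W) (hz0 : z0 ∈ Z)
    (hz : ∀ g, ρ g z0 = z0) : (Φ univ z0).fn 1 = 0 := by
  classical
  by_contra hne
  set m : Set (Lab H) → TT X := fun A => Φ A z0 with hm
  obtain ⟨K0, hK0, hb0⟩ := hΦ.bound
  set K : ℝ := K0 * ‖z0‖ with hK
  have hKn : 0 ≤ K := by positivity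
  have hb : ∀ A, MeasurableSet A → ‖m A‖ ≤ K * (mu H).real A := by
    intro A hA
    refine (hb0 A hA z0).trans (le_of_eq ?_)
    rw [hK]; ring
  set a : ℝ := ‖(m univ).fn 1‖ with ha
  have hapos : 0 < a := norm_pos_iff.mpr hne
  obtain ⟨C0, hC0, h0⟩ := (m univ).tight (a / 4) (by positivity)
  obtain ⟨χ, hχ⟩ := exists_cut hC0
  have e1 : ‖(m univ).fn (1 - χ)‖ ≤ a / 4 := by
    refine (h0 (1 - χ) ?_).trans ?_
    · intro x hx
      show 1 - χ x = 0
      rw [hχ.one x hx, sub_self]
    · calc a / 4 * ‖1 - χ‖ ≤ a / 4 * 1 := by gcongr; exact hχ.norm_one_sub_le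
        _ = a / 4 := mul_one _
  have e2 : 3 * a / 4 ≤ ‖(m univ).fn χ‖ := by
    have : (m univ).fn 1 = (m univ).fn χ + (m univ).fn (1 - χ) := by
      rw [← map_add]; congr 1; ring
    have h := norm_add_le ((m univ).fn χ) ((m univ).fn (1 - χ))
    rw [← this] at h
    linarith
  obtain ⟨j, hj⟩ := hcomp (tsupport χ) hχ.supp
  set n := (Pf Γ j).card with hn
  obtain ⟨N, hN⟩ : ∃ N : ℕ, n * K / (a / 4) < N := exists_nat_gt _
  have hN' : n * K < N * (a / 4) := by rwa [div_lt_iff₀ (by positivity)] at hN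
  have hNpos : (0 : ℝ) < N := lt_of_le_of_lt (by positivity) hN
  obtain ⟨k, hk⟩ := hΓ2 N (a / (4 * (K + 1))) (by positivity)
  set P := Ph Γ k with hP
  -- the classes
  have hXm : ∀ R, MeasurableSet {x | cls Γ p k x = R} := by
    intro R
    apply measurableSet_fiber P (cls Γ p k)
    · intro x g hg
      exact mem_Ph Γ p (k := k) ((mem_cls Γ p).mp hg)
    · intro g _
      simp only [mem_cls]
      exact measurableSet_Dset Γ p k g
  set XR : Finset H → Set (Lab H) := fun R => {x | cls Γ p k x = R} with hXR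
  have hclsP : ∀ x, cls Γ p k x ∈ P.powerset := by
    intro x
    rw [Finset.mem_powerset]
    intro g hg
    exact mem_Ph Γ p (k := k) ((mem_cls Γ p).mp hg)
  -- the atoms
  set T : Lab H → Finset (H × H) := fun x =>
    (P ×ˢ P).filter (fun q => act q.1⁻¹ x ∈ Dset Γ p k q.2) with hT
  have hBm : ∀ t, MeasurableSet {x | T x = t} := by
    intro t
    apply measurableSet_fiber (P ×ˢ P) T
    · intro x
      exact Finset.filter_subset _ _
    · intro q hq
      have : {x | q ∈ T x} = act q.1⁻¹ ⁻¹' Dset Γ p k q.2 := by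
        ext x
        show q ∈ T x ↔ act q.1⁻¹ x ∈ Dset Γ p k q.2
        rw [hT, Finset.mem_filter]
        exact and_iff_right hq
      rw [this]
      exact measurable_act _ (measurableSet_Dset Γ p k q.2)
  set BT : Finset (H × H) → Set (Lab H) := fun t => {x | T x = t} with hBT
  set 𝒯 := (P ×ˢ P).powerset with h𝒯
  have hT𝒯 : ∀ x, T x ∈ 𝒯 := fun x => Finset.mem_powerset.mpr (Finset.filter_subset _ _)
  set Tg : Finset (H × H) → H → Finset H := fun t g => (t.filter (fun q => q.1 = g)).image Prod.snd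
    with hTg
  have hTgT : ∀ x, ∀ g ∈ P, Tg (T x) g = cls Γ p k (act g⁻¹ x) := by
    intro x g hg
    ext h
    rw [mem_cls, hTg, Finset.mem_image]
    constructor
    · rintro ⟨q, hq, rfl⟩
      rw [Finset.mem_filter, hT, Finset.mem_filter] at hq
      rw [← hq.2]
      exact hq.1.2
    · intro h'
      refine ⟨(g, h), ?_, rfl⟩
      rw [Finset.mem_filter, hT, Finset.mem_filter, Finset.mem_product]
      exact ⟨⟨⟨hg, mem_Ph Γ p (k := k) h'⟩, h'⟩, rfl⟩
  have hmsum : ∀ {κ : Type _} (S : Finset κ) (E : κ → Set (Lab H)),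
      (∀ i ∈ S, MeasurableSet (E i)) → ((S : Set κ).PairwiseDisjoint E) →
      ∑ i ∈ S, m (E i) = m (⋃ i ∈ S, E i) := fun S E h1 h2 => hΦ.sum_biUnion S E h1 h2 z0
  have hXdisj : ∀ S : Finset (Finset H), (S : Set (Finset H)).PairwiseDisjoint XR := by
    intro S R _ R' _ hne
    show Disjoint (XR R) (XR R')
    rw [Set.disjoint_left]
    intro x hx hx'
    exact hne (hx.symm.trans hx')
  have hBdisj : ∀ S : Finset (Finset (H × H)), (S : Set (Finset (H × H))).PairwiseDisjoint BT := by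
    intro S R _ R' _ hne
    show Disjoint (BT R) (BT R')
    rw [Set.disjoint_left]
    intro x hx hx'
    exact hne (hx.symm.trans hx')
  -- decomposition of a translated class into atoms
  have hdec : ∀ g ∈ P, ∀ R, m (tr g (XR R)) = ∑ t ∈ 𝒯.filter (fun t => Tg t g = R), m (BT t) := by
    intro g hg R
    rw [hmsum _ _ (fun i _ => hBm i) (hBdisj _)]
    congr 1
    ext x
    simp only [mem_iUnion, exists_prop, Finset.mem_filter]
    constructor
    · intro hx
      have hx : cls Γ p k (act g⁻¹ x) = R := hx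
      exact ⟨T x, ⟨hT𝒯 x, (hTgT x g hg).trans hx⟩, rfl⟩
    · rintro ⟨t, ⟨_, ht⟩, hx⟩
      have hx : T x = t := hx
      show cls Γ p k (act g⁻¹ x) = R
      rw [← hTgT x g hg, hx, ht]
  set F : Finset (H × H) → H → ℝ := fun t g => ‖(m (BT t)).fn (tl (ι g) χ)‖ with hF
  set big := P.powerset.filter (fun R => N ≤ R.card) with hbig
  set small := P.powerset.filter (fun R => ¬ N ≤ R.card) with hsmall
  -- transport inequality
  have htrans : ∀ R ∈ big, N * ‖(m (XR R)).fn χ‖ ≤
      ∑ g ∈ P, ∑ t ∈ 𝒯, if (g ∈ R ∧ Tg t g = R) then F t g else 0 := by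
    intro R hR
    rw [hbig, Finset.mem_filter, Finset.mem_powerset] at hR
    have h1 : ∀ g ∈ R, ‖(m (XR R)).fn χ‖ ≤ ∑ t ∈ 𝒯, if (g ∈ R ∧ Tg t g = R) then F t g else 0 := by
      intro g hg
      have hsub : XR R ⊆ Dset Γ p k g := by
        intro x hx
        have hx : cls Γ p k x = R := hx
        rw [← mem_cls, hx]
        exact hg
      have h2 := hΦ.eqv k g (XR R) (hXm R) hsub z0 hz0
      rw [hz] at h2
      have h3 : (m (XR R)).fn χ = (m (tr g (XR R))).fn (tl (ι g) χ) := by
        show _ = (Φ (tr g (XR R)) z0).fn (tl (ι g) χ)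
        rw [h2, ltm_fn_tl]
      rw [h3, hdec g (hR.1 hg) R, TT.fn_sum, _root_.sum_apply]
      refine (norm_sum_le _ _).trans ?_
      rw [Finset.sum_filter]
      apply le_of_eq
      apply Finset.sum_congr rfl
      intro t _
      simp only [hg, true_and]
      rfl
    calc N * ‖(m (XR R)).fn χ‖ ≤ R.card * ‖(m (XR R)).fn χ‖ := by
          gcongr
          exact_mod_cast hR.2
      _ = ∑ g ∈ R, ‖(m (XR R)).fn χ‖ := by rw [Finset.sum_const, nsmul_eq_mul]
      _ ≤ ∑ g ∈ R, ∑ t ∈ 𝒯, (if (g ∈ R ∧ Tg t g = R) then F t g else 0) :=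
          Finset.sum_le_sum h1
      _ ≤ _ := by
          apply Finset.sum_le_sum_of_subset_of_nonneg hR.1
          intro g _ _
          apply Finset.sum_nonneg
          intro t _
          split_ifs
          · exact norm_nonneg _
          · exact le_rfl
  have hsum1 : N * ∑ R ∈ big, ‖(m (XR R)).fn χ‖ ≤
      ∑ t ∈ 𝒯, ∑ g ∈ P.filter (fun g => g ∈ Tg t g), F t g := by
    rw [Finset.mul_sum]
    refine (Finset.sum_le_sum htrans).trans ?_
    rw [Finset.sum_comm]
    have : ∀ g ∈ P, (∑ R ∈ big, ∑ t ∈ 𝒯, if (g ∈ R ∧ Tg t g = R) then F t g else 0) ≤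
        ∑ t ∈ 𝒯, if g ∈ Tg t g then F t g else 0 := by
      intro g _
      rw [Finset.sum_comm]
      apply Finset.sum_le_sum
      intro t _
      have h1 : ∀ R ∈ big, (if (g ∈ R ∧ Tg t g = R) then F t g else 0) =
          if Tg t g = R then (if g ∈ Tg t g then F t g else 0) else 0 := by
        intro R _
        by_cases h : Tg t g = R
        · subst h
          simp
        · simp [h]
      rw [Finset.sum_congr rfl h1, Finset.sum_ite_eq]
      split_ifs
      · exact le_rfl
      · exact le_rfl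
      · exact norm_nonneg _
      · exact le_rfl
    refine (Finset.sum_le_sum this).trans ?_
    rw [Finset.sum_comm]
    apply le_of_eq
    apply Finset.sum_congr rfl
    intro t _
    rw [Finset.sum_filter]
  have hatom : ∀ t ∈ 𝒯, ∑ g ∈ P.filter (fun g => g ∈ Tg t g), F t g ≤ n * ‖m (BT t)‖ := by
    intro t _
    rcases (BT t).eq_empty_or_nonempty with he | ⟨x, hx⟩
    · have h0 : m (BT t) = 0 := by rw [he]; exact hΦ.empty z0
      have : ∀ g, F t g = 0 := by
        intro g
        simp only [hF, h0]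
        rw [TT.fn_zero, _root_.zero_apply, norm_zero]
      simp [this, h0]
    · have hx : T x = t := hx
      apply sum_norm_translates_le ι χ hχ.norm_le (m (BT t))
      intro s S' hS' hS
      apply card_local hB hΓ1 x k S'
      · intro g hg
        have h1 := Finset.mem_filter.mp (hS' hg)
        have h2 := h1.2
        rw [← hx, hTgT x g h1.1, mem_cls] at h2
        exact (pim_act_iff k x g 1 (Γ := Γ) (p := p)).mp (by rwa [inv_one, one_mul])
      · intro g hg g' hg'
        apply hj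
        refine ⟨(ι g)⁻¹ • s, subset_tsupport _ (hS g hg), ?_⟩
        have : ι (g'⁻¹ * g) • (ι g)⁻¹ • s = (ι g')⁻¹ • s := by
          rw [map_mul, map_inv, mul_smul, smul_inv_smul]
        rw [this]
        exact subset_tsupport _ (hS g' hg')
  have hsum2 : N * ∑ R ∈ big, ‖(m (XR R)).fn χ‖ ≤ n * K := by
    refine hsum1.trans ((Finset.sum_le_sum hatom).trans ?_)
    calc ∑ t ∈ 𝒯, (n : ℝ) * ‖m (BT t)‖ ≤ ∑ t ∈ 𝒯, (n : ℝ) * (K * (mu H).real (BT t)) := by
          apply Finset.sum_le_sum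
          intro t _
          gcongr
          exact hb _ (hBm t)
      _ = n * (K * ∑ t ∈ 𝒯, (mu H).real (BT t)) := by
          rw [Finset.mul_sum, Finset.mul_sum]
      _ ≤ n * (K * 1) := by
          gcongr
          rw [← measureReal_biUnion_finset (hBdisj 𝒯) (fun t _ => hBm t)]
          exact measureReal_le_one
      _ = n * K := by rw [mul_one]
  have hbigle : ∑ R ∈ big, ‖(m (XR R)).fn χ‖ < a / 4 := by
    by_contra hcon
    push Not at hcon
    have : (N : ℝ) * (a / 4) ≤ n * K := (mul_le_mul_of_nonneg_left hcon hNpos.le).trans hsum2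
    linarith
  have hsmallle : ‖(∑ R ∈ small, m (XR R)).fn χ‖ ≤ a / 4 := by
    rw [hmsum _ _ (fun i _ => hXm i) (hXdisj _)]
    have hY : (⋃ R ∈ small, XR R) = {x | (cls Γ p k x).card < N} := by
      ext x
      simp only [mem_iUnion, exists_prop, hsmall, Finset.mem_filter]
      constructor
      · rintro ⟨R, ⟨_, hR⟩, hx⟩
        have hx : cls Γ p k x = R := hx
        show (cls Γ p k x).card < N
        rw [hx]
        exact not_le.mp hR
      · intro hx
        exact ⟨cls Γ p k x, ⟨hclsP x, not_le.mpr hx⟩, rfl⟩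
    have hYm : MeasurableSet {x | (cls Γ p k x).card < N} := by
      rw [← hY]
      exact Finset.measurableSet_biUnion _ (fun R _ => hXm R)
    rw [hY]
    have h1 : (mu H).real {x | (cls Γ p k x).card < N} ≤ a / (4 * (K + 1)) := by
      unfold Measure.real
      exact ENNReal.toReal_le_of_le_ofReal (by positivity) hk
    calc ‖(m {x | (cls Γ p k x).card < N}).fn χ‖ ≤ ‖m {x | (cls Γ p k x).card < N}‖ * ‖χ‖ :=
          (m {x | (cls Γ p k x).card < N}).fn.le_opNorm χ
      _ ≤ (K * (a / (4 * (K + 1)))) * 1 := by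
          gcongr
          · exact (hb _ hYm).trans (by gcongr)
          · exact hχ.norm_le
      _ ≤ a / 4 := by
          rw [mul_one, show K * (a / (4 * (K + 1))) = a / 4 * (K / (K + 1)) by field_simp]
          apply mul_le_of_le_one_right (by positivity)
          rw [div_le_one (by positivity)]
          linarith
  have hmu : m univ = ∑ R ∈ big, m (XR R) + ∑ R ∈ small, m (XR R) := by
    rw [hbig, hsmall, Finset.sum_filter_add_sum_filter_not,
      hmsum _ _ (fun i _ => hXm i) (hXdisj _)]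
    congr 1
    symm
    rw [eq_univ_iff_forall]
    intro x
    simp only [mem_iUnion, exists_prop]
    exact ⟨cls Γ p k x, hclsP x, rfl⟩
  have hfin : ‖(m univ).fn χ‖ < a / 4 + a / 4 := by
    rw [hmu, TT.fn_add, _root_.add_apply]
    refine (norm_add_le _ _).trans_lt (add_lt_add_of_lt_of_le ?_ hsmallle)
    rw [TT.fn_sum, _root_.sum_apply]
    exact (norm_sum_le _ _).trans_lt hbigle
  linarith

end contra

end Pool.Agent.H63.L1
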