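import Mathlib

set_option autoImplicit false

/-!
# The convolution algebra `L¹(G)` of a locally compact group
-/

namespace Pool.Agent.H63.L1

open MeasureTheory Measure Filter Topology Set
open scoped ENNReal Pointwise

universe u v

set_option linter.unusedSectionVars false

section defs

variable (G : Type u) [Group G] [TopologicalSpace G] [IsTopologicalGroup G]
  [LocallyCompactSpace G] [MeasurableSpace G] [BorelSpace G]

/-- The Banach space `L¹(G)` of a locally compact group, for a left Haar measure. -/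
def LOne : Type u := Lp ℂ 1 (haar : Measure G)

noncomputable instance : NormedAddCommGroup (LOne G) :=
  (inferInstance : NormedAddCommGroup (Lp ℂ 1 (haar : Measure G)))

noncomputable instance : NormedSpace ℂ (LOne G) :=
  (inferInstance : NormedSpace ℂ (Lp ℂ 1 (haar : Measure G)))

instance : CompleteSpace (LOne G) :=
  (inferInstance : CompleteSpace (Lp ℂ 1 (haar : Measure G)))

end defs

variable {G : Type u} [Group G] [TopologicalSpace G] [IsTopologicalGroup G]
  [LocallyCompactSpace G] [MeasurableSpace G] [BorelSpace G]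

/-- the underlying element of `Lp` -/
def LOne.toLp (f : LOne G) : Lp ℂ 1 (haar : Measure G) := f

/-- the element of `L¹(G)` given by an element of `Lp` -/
def LOne.ofLp (f : Lp ℂ 1 (haar : Measure G)) : LOne G := f

/-- a representative of an element of `L¹(G)` -/
noncomputable def LOne.fn (f : LOne G) : G → ℂ := f.toLp

/-- Left translation `(lam t f)(x) = f (t⁻¹ x)` on `L¹(G)`. -/
noncomputable def lam (t : G) (f : LOne G) : LOne G := LOne.ofLp (DomMulAct.mk t⁻¹ • f.toLp)

/-- The convolution `a * b = ∫ a(t) (lam t b) dt` on `L¹(G)`. -/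
noncomputable def conv (a b : LOne G) : LOne G := ∫ t, a.fn t • lam t b ∂(haar : Measure G)

lemma integrable_fn (f : LOne G) : Integrable f.fn (haar : Measure G) :=
  L1.integrable_coeFn f.toLp

lemma norm_eq_integral (f : LOne G) : ‖f‖ = ∫ t, ‖f.fn t‖ ∂(haar : Measure G) :=
  L1.norm_eq_integral_norm f.toLp

lemma fn_lam (t : G) (f : LOne G) : (lam t f).fn =ᵐ[haar] fun x => f.fn (t⁻¹ * x) :=
  DomMulAct.smul_Lp_ae_eq (DomMulAct.mk t⁻¹) f.toLp

lemma fn_add (f g : LOne G) : (f + g).fn =ᵐ[haar] fun x => f.fn x + g.fn x :=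
  Lp.coeFn_add f.toLp g.toLp

lemma fn_smul (c : ℂ) (f : LOne G) : (c • f).fn =ᵐ[haar] fun x => c * f.fn x :=
  Lp.coeFn_smul c f.toLp

/-- the element defined by an integrable function -/
noncomputable def mkL (f : G → ℂ) (hf : Integrable f (haar : Measure G)) : LOne G :=
  LOne.ofLp (hf.toL1 f)

lemma fn_mkL (f : G → ℂ) (hf : Integrable f (haar : Measure G)) : (mkL f hf).fn =ᵐ[haar] f :=
  Integrable.coeFn_toL1 hf

lemma ext_fn {f g : LOne G} (h : f.fn =ᵐ[haar] g.fn) : f = g :=
  Lp.ext (f := f.toLp) (g := g.toLp) h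

lemma lam_add (t : G) (f g : LOne G) : lam t (f + g) = lam t f + lam t g :=
  DomMulAct.smul_Lp_add (DomMulAct.mk t⁻¹) f.toLp g.toLp

lemma lam_smul (t : G) (c : ℂ) (f : LOne G) : lam t (c • f) = c • lam t f :=
  smul_comm (DomMulAct.mk t⁻¹) c f.toLp

lemma norm_lam (t : G) (f : LOne G) : ‖lam t f‖ = ‖f‖ :=
  DomMulAct.norm_smul_Lp (DomMulAct.mk t⁻¹) f.toLp

lemma lam_mul (s t : G) (f : LOne G) : lam (s * t) f = lam s (lam t f) := by
  show DomMulAct.mk (s * t)⁻¹ • f.toLp = DomMulAct.mk s⁻¹ • DomMulAct.mk t⁻¹ • f.toLp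
  rw [mul_inv_rev, DomMulAct.mk_mul, mul_smul]

lemma lam_one (f : LOne G) : lam 1 f = f := by
  show DomMulAct.mk (1 : G)⁻¹ • f.toLp = f.toLp
  rw [inv_one, DomMulAct.mk_one, one_smul]

/-- left translation as an operator -/
noncomputable def lamL (t : G) : LOne G →L[ℂ] LOne G :=
  LinearMap.mkContinuous
    { toFun := lam t
      map_add' := lam_add t
      map_smul' := lam_smul t } 1 (fun f => by
      rw [one_mul]
      exact (norm_lam t f).le)

lemma lamL_apply (t : G) (f : LOne G) : lamL t f = lam t f := rfl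

lemma continuous_lam (f : LOne G) : Continuous (fun t : G => lam t f) := by
  have : Fact ((1 : ℝ≥0∞) ≠ ∞) := ⟨ENNReal.one_ne_top⟩
  have h : Continuous (fun t : G => DomMulAct.mk t⁻¹) :=
    DomMulAct.continuous_mk.comp continuous_inv
  exact h.smul (continuous_const (y := f.toLp))

section tight

variable [T2Space G]

lemma exists_compact_lintegral_lt {E : Type*} [NormedAddCommGroup E] {f : G → E}
    (hf : Integrable f (haar : Measure G)) {ε : ℝ≥0∞} (hε : ε ≠ 0) :
    ∃ K : Set G, IsCompact K ∧ ∫⁻ x in Kᶜ, ‖f x‖ₑ ∂(haar : Measure G) < ε := by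
  have hε2 : ε / 2 ≠ 0 := (ENNReal.half_pos hε).ne'
  obtain ⟨s, hs, hsf, hse⟩ := (memLp_one_iff_integrable.mpr hf).exists_eLpNorm_indicator_compl_lt
    ENNReal.one_ne_top hε2
  obtain ⟨δ, hδ, h1⟩ := exists_pos_setLIntegral_lt_of_measure_lt hf.hasFiniteIntegral.ne hε2
  obtain ⟨K, hKs, hK, hK2⟩ := hs.exists_isCompact_sdiff_lt hsf.ne hδ.ne'
  refine ⟨K, hK, ?_⟩
  have hsub : Kᶜ ⊆ sᶜ ∪ (s \ K) := by
    intro x hx
    by_cases hxs : x ∈ s
    · exact Or.inr ⟨hxs, hx⟩
    · exact Or.inl hxs
  rw [eLpNorm_one_eq_lintegral_enorm] at hse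
  have h2 : ∫⁻ x in sᶜ, ‖f x‖ₑ ∂(haar : Measure G) < ε / 2 := by
    refine lt_of_le_of_lt (le_of_eq ?_) hse
    rw [← lintegral_indicator hs.compl]
    congr 1
    funext x
    by_cases hx : x ∈ sᶜ
    · rw [indicator_of_mem hx, indicator_of_mem hx]
    · rw [indicator_of_notMem hx, indicator_of_notMem hx, enorm_zero]
  calc ∫⁻ x in Kᶜ, ‖f x‖ₑ ∂(haar : Measure G)
      ≤ ∫⁻ x in sᶜ ∪ (s \ K), ‖f x‖ₑ ∂(haar : Measure G) := lintegral_mono_set hsub
    _ ≤ ∫⁻ x in sᶜ, ‖f x‖ₑ ∂(haar : Measure G) + ∫⁻ x in s \ K, ‖f x‖ₑ ∂(haar : Measure G) :=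
        lintegral_union_le _ _ _
    _ < ε / 2 + ε / 2 := ENNReal.add_lt_add h2 (h1 _ hK2)
    _ = ε := ENNReal.add_halves ε

lemma aestronglyMeasurable_smul {E : Type*} [NormedAddCommGroup E] [NormedSpace ℂ E] {f : G → ℂ}
    (hf : Integrable f (haar : Measure G)) {F : G → E} (hF : Continuous F) :
    AEStronglyMeasurable (fun t => f t • F t) (haar : Measure G) := by
  have h : ∀ n : ℕ, ∃ K : Set G, IsCompact K ∧
      ∫⁻ x in Kᶜ, ‖f x‖ₑ ∂(haar : Measure G) < ((n : ℝ≥0∞) + 1)⁻¹ := by
    intro n
    apply exists_compact_lintegral_lt hf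
    simp
  choose K hK hK2 using h
  set S : Set G := ⋃ n, K n with hS
  have hSm : MeasurableSet S := MeasurableSet.iUnion fun n => (hK n).measurableSet
  have hFS : AEStronglyMeasurable F ((haar : Measure G).restrict S) := by
    rw [hS, aestronglyMeasurable_iUnion_iff]
    intro n
    exact hF.continuousOn.aestronglyMeasurable_of_isCompact (hK n) (hK n).measurableSet
  have h0 : ∫⁻ x in Sᶜ, ‖f x‖ₑ ∂(haar : Measure G) = 0 := by
    apply le_antisymm _ zero_le
    have h1 : ∀ n : ℕ, ∫⁻ x in Sᶜ, ‖f x‖ₑ ∂(haar : Measure G) ≤ ((n : ℝ≥0∞) + 1)⁻¹ := fun n =>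
      (lintegral_mono_set (compl_subset_compl.mpr (subset_iUnion K n))).trans (hK2 n).le
    have h2 : Tendsto (fun n : ℕ => ((n : ℝ≥0∞) + 1)⁻¹) atTop (𝓝 0) := by
      have := ENNReal.tendsto_inv_nat_nhds_zero.comp (tendsto_add_atTop_nat 1)
      refine this.congr fun n => ?_
      simp
    exact ge_of_tendsto' h2 h1
  have hae : ∀ᵐ x ∂(haar : Measure G), x ∈ Sᶜ → f x = 0 := by
    rw [lintegral_eq_zero_iff' hf.aestronglyMeasurable.enorm.restrict] at h0
    rw [← ae_restrict_iff' hSm.compl]
    filter_upwards [h0] with x hx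
    simpa using hx
  have hfS : AEStronglyMeasurable (fun t => f t • F t) ((haar : Measure G).restrict S) :=
    hf.aestronglyMeasurable.restrict.smul hFS
  have h3 : AEStronglyMeasurable (S.indicator fun t => f t • F t) (haar : Measure G) :=
    (aestronglyMeasurable_indicator_iff hSm).mpr hfS
  apply h3.congr
  filter_upwards [hae] with x hx
  by_cases hxS : x ∈ S
  · rw [indicator_of_mem hxS]
  · rw [indicator_of_notMem hxS, hx hxS, zero_smul]

/-- bounded continuous vector valued functions -/
structure BC {E : Type*} [NormedAddCommGroup E] (F : G → E) (C : ℝ) : Prop where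
  cont : Continuous F
  bdd : ∀ t, ‖F t‖ ≤ C

variable {E : Type*} [NormedAddCommGroup E] [NormedSpace ℂ E] [CompleteSpace E]
  {E' : Type*} [NormedAddCommGroup E'] [NormedSpace ℂ E'] [CompleteSpace E']

lemma BC.nonneg {F : G → E} {C : ℝ} (hF : BC F C) : 0 ≤ C := (norm_nonneg _).trans (hF.bdd 1)

lemma BC.integrable {F : G → E} {C : ℝ} (hF : BC F C) (f : LOne G) :
    Integrable (fun t => f.fn t • F t) (haar : Measure G) := by
  refine Integrable.mono' ((integrable_fn f).norm.mul_const C)
    (aestronglyMeasurable_smul (integrable_fn f) hF.cont) ?_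
  filter_upwards with t
  rw [norm_smul]
  gcongr
  exact hF.bdd t

/-- the integrated operator -/
noncomputable def integ (F : G → E) (C : ℝ) (hF : BC F C) : LOne G →L[ℂ] E :=
  LinearMap.mkContinuous
    { toFun := fun f => ∫ t, f.fn t • F t ∂(haar : Measure G)
      map_add' := by
        intro f g
        rw [← integral_add (hF.integrable f) (hF.integrable g)]
        apply integral_congr_ae
        filter_upwards [fn_add f g] with t ht
        rw [ht, add_smul]
      map_smul' := by
        intro c f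
        rw [RingHom.id_apply, ← integral_smul]
        apply integral_congr_ae
        filter_upwards [fn_smul c f] with t ht
        rw [ht, mul_smul] } C (by
    intro f
    show ‖∫ t, f.fn t • F t ∂(haar : Measure G)‖ ≤ C * ‖f‖
    rw [norm_eq_integral, mul_comm, ← integral_mul_const]
    apply norm_integral_le_of_norm_le ((integrable_fn f).norm.mul_const C)
    filter_upwards with t
    rw [norm_smul]
    gcongr
    exact hF.bdd t)

lemma integ_apply (F : G → E) (C : ℝ) (hF : BC F C) (f : LOne G) :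
    integ F C hF f = ∫ t, f.fn t • F t ∂(haar : Measure G) := rfl

lemma norm_integ_le (F : G → E) (C : ℝ) (hF : BC F C) : ‖integ F C hF‖ ≤ C :=
  LinearMap.mkContinuous_norm_le _ hF.nonneg _

lemma integ_comp (F : G → E) (C : ℝ) (hF : BC F C) (φ : E →L[ℂ] E') (C' : ℝ)
    (hF' : BC (fun t => φ (F t)) C') (f : LOne G) :
    φ (integ F C hF f) = integ (fun t => φ (F t)) C' hF' f := by
  rw [integ_apply, integ_apply, ← φ.integral_comp_comm (hF.integrable f)]
  congr 1
  funext t
  rw [map_smul]

lemma integ_lam (F : G → E) (C : ℝ) (hF : BC F C) (s : G) (hF' : BC (fun t => F (s * t)) C)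
    (f : LOne G) : integ F C hF (lam s f) = integ (fun t => F (s * t)) C hF' f := by
  rw [integ_apply, integ_apply]
  have h1 : ∫ t, (lam s f).fn t • F t ∂(haar : Measure G) =
      ∫ t, f.fn (s⁻¹ * t) • F t ∂(haar : Measure G) := by
    apply integral_congr_ae
    filter_upwards [fn_lam s f] with t ht
    rw [ht]
  rw [h1, ← integral_mul_left_eq_self (fun t => f.fn (s⁻¹ * t) • F t) s]
  congr 1
  funext t
  rw [inv_mul_cancel_left]

lemma integ_congr {F F' : G → E} {C C' : ℝ} (hF : BC F C) (hF' : BC F' C') (h : ∀ t, F t = F' t)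
    (f : LOne G) : integ F C hF f = integ F' C' hF' f := by
  rw [integ_apply, integ_apply]
  simp only [h]

end tight

section ring

variable [T2Space G]

lemma BC_lam (b : LOne G) : BC (fun t : G => lam t b) ‖b‖ :=
  ⟨continuous_lam b, fun t => (norm_lam t b).le⟩

/-- right multiplication by `b` -/
noncomputable def convR (b : LOne G) : LOne G →L[ℂ] LOne G := integ (fun t => lam t b) ‖b‖ (BC_lam b)

lemma convR_apply (a b : LOne G) : convR b a = conv a b := rfl

lemma conv_lam (s : G) (a b : LOne G) : conv (lam s a) b = lam s (conv a b) := by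
  have h : BC (fun t : G => lam (s * t) b) ‖b‖ :=
    ⟨(continuous_lam b).comp (continuous_const_mul s), fun t => (norm_lam _ b).le⟩
  have h' : BC (fun t : G => lamL s (lam t b)) ‖b‖ :=
    ⟨(lamL s).continuous.comp (continuous_lam b), fun t => by
      rw [lamL_apply, norm_lam, norm_lam]⟩
  rw [← convR_apply, convR, integ_lam _ _ _ s h, ← convR_apply, convR, ← lamL_apply,
    integ_comp _ _ _ _ _ h']
  apply integ_congr
  intro t
  rw [lamL_apply, lam_mul]

lemma conv_assoc (a b c : LOne G) : conv (conv a b) c = conv a (conv b c) := by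
  have h : BC (fun t : G => convR c (lam t b)) (‖convR c‖ * ‖b‖) :=
    ⟨(convR c).continuous.comp (continuous_lam b), fun t =>
      ((convR c).le_opNorm _).trans (by rw [norm_lam])⟩
  rw [← convR_apply (conv a b) c, ← convR_apply a b]
  conv_lhs => rw [convR.eq_def b]
  rw [integ_comp _ _ _ _ _ h, ← convR_apply a, convR.eq_def (conv b c)]
  apply integ_congr
  intro t
  rw [convR_apply, conv_lam]

lemma conv_add_left (a b c : LOne G) : conv (a + b) c = conv a c + conv b c :=
  map_add (convR c) a b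

lemma conv_smul_left (z : ℂ) (a b : LOne G) : conv (z • a) b = z • conv a b :=
  map_smul (convR b) z a

lemma conv_add_right (a b c : LOne G) : conv a (b + c) = conv a b + conv a c := by
  rw [← convR_apply, ← convR_apply, ← convR_apply, convR, convR, convR, integ_apply, integ_apply,
    integ_apply, ← integral_add ((BC_lam b).integrable a) ((BC_lam c).integrable a)]
  congr 1
  funext t
  rw [lam_add, smul_add]

lemma conv_smul_right (z : ℂ) (a b : LOne G) : conv a (z • b) = z • conv a b := by
  rw [← convR_apply, ← convR_apply, convR, convR, integ_apply, integ_apply, ← integral_smul]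
  congr 1
  funext t
  rw [lam_smul, smul_comm]

lemma norm_conv_le (a b : LOne G) : ‖conv a b‖ ≤ ‖a‖ * ‖b‖ := by
  rw [← convR_apply, mul_comm]
  exact (convR b).le_of_opNorm_le (norm_integ_le _ _ _) a

end ring

end Pool.Agent.H63.L1
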