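import Mathlib
import Pool.Agent.H63.L1.LOne

set_option autoImplicit false

/-!
# `L¹(G)` as a Banach algebra; approximate identity
-/

namespace Pool.Agent.H63.L1

open MeasureTheory Measure Filter Topology Set
open scoped ENNReal Pointwise

universe u v

set_option linter.unusedSectionVars false

variable {G : Type u} [Group G] [TopologicalSpace G] [IsTopologicalGroup G]
  [LocallyCompactSpace G] [MeasurableSpace G] [BorelSpace G] [T2Space G]

noncomputable instance : Mul (LOne G) := ⟨conv⟩

lemma mul_def (a b : LOne G) : a * b = conv a b := rfl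

lemma zero_conv (a : LOne G) : conv 0 a = 0 := map_zero (convR a)

lemma conv_zero (a : LOne G) : conv a 0 = 0 := by
  have := conv_add_right a 0 0
  rw [add_zero] at this
  exact left_eq_add.mp this

/-- `L¹(G)` is a Banach algebra under convolution. -/
noncomputable instance : NonUnitalNormedRing (LOne G) :=
  { (inferInstance : NormedAddCommGroup (LOne G)), (inferInstance : Mul (LOne G)) with
    left_distrib := conv_add_right
    right_distrib := conv_add_left
    zero_mul := zero_conv
    mul_zero := conv_zero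
    mul_assoc := conv_assoc
    norm_mul_le := norm_conv_le }

instance : IsScalarTower ℂ (LOne G) (LOne G) := ⟨fun z a b => conv_smul_left z a b⟩

instance : SMulCommClass ℂ (LOne G) (LOne G) := ⟨fun z a b => (conv_smul_right z a b).symm⟩

/-- the augmentation character `f ↦ ∫ f` -/
noncomputable def augm : LOne G →L[ℂ] ℂ :=
  integ (fun _ => (1 : ℂ)) 1 ⟨continuous_const, fun _ => by simp⟩

lemma augm_apply (f : LOne G) : augm f = ∫ t, f.fn t ∂(haar : Measure G) := by
  unfold augm
  rw [integ_apply]
  simp

lemma augm_lam (s : G) (f : LOne G) : augm (lam s f) = augm f :=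
  integ_lam _ _ _ s ⟨continuous_const, fun _ => by simp⟩ f

lemma augm_mul (a b : LOne G) : augm (a * b) = augm a * augm b := by
  have h : BC (fun t : G => augm (lam t b)) ‖augm b‖ :=
    ⟨(augm (G := G)).continuous.comp (continuous_lam b), fun t => by rw [augm_lam]⟩
  rw [mul_def, ← convR_apply, convR, integ_comp _ _ _ _ _ h, integ_apply, augm_apply a,
    ← integral_mul_const]
  congr 1
  funext t
  rw [augm_lam, smul_eq_mul]

lemma exists_app (F : Finset (LOne G)) {ε : ℝ} (hε : 0 < ε) :
    ∃ u : LOne G, ‖u‖ ≤ 1 ∧ augm u = 1 ∧ ∀ a ∈ F, ‖u * a - a‖ ≤ ε := by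
  classical
  have hU : {t : G | ∀ a ∈ F, ‖lam t a - a‖ ≤ ε} ∈ 𝓝 (1 : G) := by
    have : {t : G | ∀ a ∈ F, ‖lam t a - a‖ ≤ ε} = ⋂ a ∈ F, {t : G | ‖lam t a - a‖ ≤ ε} := by
      ext t
      simp
    rw [this, Finset.iInter_mem_sets]
    intro a _
    have hc : Tendsto (fun t : G => ‖lam t a - a‖) (𝓝 1) (𝓝 ‖lam 1 a - a‖) :=
      (((continuous_lam a).sub continuous_const).norm).tendsto 1
    rw [lam_one, sub_self, norm_zero] at hc
    filter_upwards [hc.eventually (gt_mem_nhds hε)] with t ht
    exact ht.le
  obtain ⟨K, hK, hK1⟩ := exists_compact_mem_nhds (1 : G)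
  set V : Set G := interior ({t : G | ∀ a ∈ F, ‖lam t a - a‖ ≤ ε} ∩ K) with hV
  have hVo : IsOpen V := isOpen_interior
  have h1V : (1 : G) ∈ V := mem_interior_iff_mem_nhds.mpr (inter_mem hU hK1)
  have hVK : V ⊆ K := interior_subset.trans inter_subset_right
  have hVU : ∀ t ∈ V, ∀ a ∈ F, ‖lam t a - a‖ ≤ ε := fun t ht =>
    (interior_subset.trans inter_subset_left) ht
  have hμ0 : (haar : Measure G) V ≠ 0 := hVo.measure_ne_zero _ ⟨1, h1V⟩
  have hμt : (haar : Measure G) V ≠ ∞ :=
    ((measure_mono hVK).trans_lt hK.measure_lt_top).ne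
  have hVm : MeasurableSet V := hVo.measurableSet
  have hr : 0 < (haar : Measure G).real V := ENNReal.toReal_pos hμ0 hμt
  set c : ℝ := ((haar : Measure G).real V)⁻¹ with hc
  have hcpos : 0 < c := inv_pos.mpr hr
  have hint : Integrable (V.indicator (fun _ : G => (c : ℂ))) (haar : Measure G) :=
    (integrable_indicator_iff hVm).mpr (integrableOn_const (hs := hμt))
  set u : LOne G := mkL _ hint with hu
  have hfn := fn_mkL _ hint
  rw [← hu] at hfn
  have haug : augm u = 1 := by
    rw [augm_apply, integral_congr_ae hfn, integral_indicator hVm, setIntegral_const, hc]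
    rw [Complex.real_smul, ← Complex.ofReal_mul, mul_inv_cancel₀ hr.ne', Complex.ofReal_one]
  have hnorm : ∫ t, ‖u.fn t‖ ∂(haar : Measure G) = 1 := by
    have h1 : (fun t => ‖u.fn t‖) =ᵐ[haar] V.indicator (fun _ : G => c) := by
      filter_upwards [hfn] with t ht
      rw [ht]
      by_cases h : t ∈ V
      · rw [indicator_of_mem h, indicator_of_mem h, Complex.norm_real, Real.norm_of_nonneg hcpos.le]
      · rw [indicator_of_notMem h, indicator_of_notMem h, norm_zero]
    rw [integral_congr_ae h1, integral_indicator hVm, setIntegral_const, smul_eq_mul, hc,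
      mul_inv_cancel₀ hr.ne']
  refine ⟨u, (by rw [norm_eq_integral, hnorm]), haug, fun a ha => ?_⟩
  have e : u * a - a = ∫ t, u.fn t • (lam t a - a) ∂(haar : Measure G) := by
    have h1 : a = ∫ t, u.fn t • a ∂(haar : Measure G) := by
      rw [integral_smul_const, ← augm_apply, haug, one_smul]
    have h2 : Integrable (fun t => u.fn t • a) (haar : Measure G) := (integrable_fn u).smul_const a
    conv_lhs => rw [mul_def, ← convR_apply, convR, integ_apply]; arg 2; rw [h1]
    rw [← integral_sub ((BC_lam a).integrable u) h2]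
    congr 1
    funext t
    rw [smul_sub]
  rw [e]
  have h3 : ∫ t, ‖u.fn t‖ * ε ∂(haar : Measure G) = ε := by
    rw [integral_mul_const, hnorm, one_mul]
  rw [← h3]
  apply norm_integral_le_of_norm_le ((integrable_fn u).norm.mul_const ε)
  filter_upwards [hfn] with t ht
  rw [norm_smul]
  by_cases h : t ∈ V
  · gcongr
    exact hVU t h a ha
  · rw [ht, indicator_of_notMem h, norm_zero, zero_mul, zero_mul]

/-- the approximate identity -/
noncomputable def app (i : Finset (LOne G) × ℕ) : LOne G :=
  (exists_app i.1 (ε := 1 / ((i.2 : ℝ) + 1)) (by positivity)).choose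

lemma norm_app (i : Finset (LOne G) × ℕ) : ‖app i‖ ≤ 1 :=
  (exists_app i.1 (ε := 1 / ((i.2 : ℝ) + 1)) (by positivity)).choose_spec.1

lemma augm_app (i : Finset (LOne G) × ℕ) : augm (app i) = 1 :=
  (exists_app i.1 (ε := 1 / ((i.2 : ℝ) + 1)) (by positivity)).choose_spec.2.1

lemma app_mul (i : Finset (LOne G) × ℕ) (a : LOne G) (ha : a ∈ i.1) :
    ‖app i * a - a‖ ≤ 1 / ((i.2 : ℝ) + 1) :=
  (exists_app i.1 (ε := 1 / ((i.2 : ℝ) + 1)) (by positivity)).choose_spec.2.2 a ha

lemma tendsto_app (a : LOne G) :
    Tendsto (fun i : Finset (LOne G) × ℕ => app i * a) atTop (𝓝 a) := by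
  classical
  rw [Metric.tendsto_atTop]
  intro ε hε
  obtain ⟨n, hn⟩ := exists_nat_one_div_lt hε
  refine ⟨({a}, n), fun i hi => ?_⟩
  rw [dist_eq_norm]
  refine (app_mul i a (hi.1 (Finset.mem_singleton_self a))).trans_lt ?_
  refine lt_of_le_of_lt ?_ hn
  have : (n : ℝ) ≤ i.2 := by exact_mod_cast hi.2
  gcongr

lemma lam_mul_left (g : G) (a b : LOne G) : lam g (a * b) = lam g a * b := (conv_lam g a b).symm

/-- integration over a measurable set as a functional on `L¹(G)` -/
noncomputable def setInt (s : Set G) : LOne G →L[ℂ] ℂ :=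
  LinearMap.mkContinuous
    { toFun := fun f => ∫ x in s, f.fn x ∂(haar : Measure G)
      map_add' := by
        intro f g
        rw [← integral_add (integrable_fn f).integrableOn (integrable_fn g).integrableOn]
        apply integral_congr_ae
        exact ae_restrict_of_ae (fn_add f g)
      map_smul' := by
        intro c f
        rw [RingHom.id_apply, smul_eq_mul, ← integral_const_mul]
        apply integral_congr_ae
        exact ae_restrict_of_ae (fn_smul c f) } 1 (by
    intro f
    show ‖∫ x in s, f.fn x ∂(haar : Measure G)‖ ≤ 1 * ‖f‖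
    rw [one_mul, norm_eq_integral]
    refine (norm_integral_le_integral_norm _).trans ?_
    exact setIntegral_le_integral (integrable_fn f).norm (Eventually.of_forall fun _ => norm_nonneg _))

lemma setInt_apply (s : Set G) (f : LOne G) :
    setInt s f = ∫ x in s, f.fn x ∂(haar : Measure G) := rfl

/-- The product of `L¹(G)` is the usual convolution: for continuous functions `f`, `g` with compact
support, `f * g` is represented by `x ↦ ∫ f(t) g(t⁻¹ x) dt`. -/
theorem mul_mkL {f g : G → ℂ} (hf : Continuous f) (hfc : HasCompactSupport f) (hg : Continuous g)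
    (hgc : HasCompactSupport g) :
    (mkL f (hf.integrable_of_hasCompactSupport hfc) *
      mkL g (hg.integrable_of_hasCompactSupport hgc)).fn =ᵐ[haar]
      fun x => ∫ t, f t * g (t⁻¹ * x) ∂(haar : Measure G) := by
  set a := mkL f (hf.integrable_of_hasCompactSupport hfc) with ha
  set b := mkL g (hg.integrable_of_hasCompactSupport hgc) with hb
  have hae := fn_mkL f (hf.integrable_of_hasCompactSupport hfc)
  have hbe := fn_mkL g (hg.integrable_of_hasCompactSupport hgc)
  rw [← ha] at hae
  rw [← hb] at hbe
  have hzero : ∀ x t, t ∉ tsupport f → f t * g (t⁻¹ * x) = 0 := by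
    intro x t ht
    rw [image_eq_zero_of_notMem_tsupport ht, zero_mul]
  have hFc : Continuous (fun x => ∫ t, f t * g (t⁻¹ * x) ∂(haar : Measure G)) := by
    rw [← continuousOn_univ]
    apply continuousOn_integral_of_compact_support (f := fun x t => f t * g (t⁻¹ * x))
      (k := tsupport f) hfc
    · apply Continuous.continuousOn
      show Continuous (fun z : G × G => f z.2 * g (z.2⁻¹ * z.1))
      fun_prop
    · intro x t _ ht
      exact hzero x t ht
  have hcomp : IsCompact ((tsupport f) * (tsupport g)) :=
    IsCompact.mul (show IsCompact (tsupport f) from hfc) (show IsCompact (tsupport g) from hgc)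
  have hFs : HasCompactSupport (fun x => ∫ t, f t * g (t⁻¹ * x) ∂(haar : Measure G)) := by
    apply HasCompactSupport.intro hcomp
    intro x hx
    rw [← integral_zero G ℂ (μ := (haar : Measure G))]
    congr 1
    funext t
    by_cases ht : t ∈ tsupport f
    · have : t⁻¹ * x ∉ tsupport g := fun h => hx ⟨t, ht, t⁻¹ * x, h, mul_inv_cancel_left t x⟩
      rw [image_eq_zero_of_notMem_tsupport this, mul_zero]
    · exact hzero x t ht
  apply Integrable.ae_eq_of_forall_setIntegral_eq _ _ (integrable_fn _)
    (hFc.integrable_of_hasCompactSupport hFs)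
  intro s hs _
  have h1 : ∫ x in s, (a * b).fn x ∂(haar : Measure G) =
      ∫ t, f t * (∫ x in s, g (t⁻¹ * x) ∂(haar : Measure G)) ∂(haar : Measure G) := by
    have hbc : BC (fun t : G => setInt s (lam t b)) (‖setInt s‖ * ‖b‖) :=
      ⟨(setInt s).continuous.comp (continuous_lam b), fun t =>
        ((setInt s).le_opNorm _).trans (by rw [norm_lam])⟩
    rw [← setInt_apply, mul_def, ← convR_apply, convR, integ_comp _ _ _ _ _ hbc, integ_apply]
    apply integral_congr_ae
    filter_upwards [hae] with t ht
    rw [ht, smul_eq_mul, setInt_apply]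
    congr 1
    apply integral_congr_ae
    have h2 : ∀ᵐ x ∂(haar : Measure G), b.fn (t⁻¹ * x) = g (t⁻¹ * x) := by
      have hq := (measurePreserving_mul_left (haar : Measure G) t⁻¹).quasiMeasurePreserving
      exact hq.ae_eq_comp hbe
    filter_upwards [ae_restrict_of_ae (fn_lam t b), ae_restrict_of_ae h2] with x h3 h4
    rw [h3, h4]
  rw [h1]
  have h5 : ∀ t, f t * (∫ x in s, g (t⁻¹ * x) ∂(haar : Measure G)) =
      ∫ x in s, f t * g (t⁻¹ * x) ∂(haar : Measure G) := by
    intro t
    rw [integral_const_mul]
  simp only [h5]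
  apply integral_integral_swap_of_hasCompactSupport (f := fun t x => f t * g (t⁻¹ * x))
  · show Continuous (fun z : G × G => f z.1 * g (z.1⁻¹ * z.2))
    fun_prop
  · apply HasCompactSupport.intro ((show IsCompact (tsupport f) from hfc).prod hcomp)
    rintro ⟨t, x⟩ hx
    show f t * g (t⁻¹ * x) = 0
    by_cases ht : t ∈ tsupport f
    · have : t⁻¹ * x ∉ tsupport g := fun h => hx ⟨ht, t, ht, t⁻¹ * x, h, mul_inv_cancel_left t x⟩
      rw [image_eq_zero_of_notMem_tsupport this, mul_zero]
    · exact hzero x t ht

end Pool.Agent.H63.L1
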