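import Mathlib
import Pool.Agent.H63.L1.LOneRing

set_option autoImplicit false

/-!
# Banach modules, projective modules, resolutions (bundled form, used in the proofs)
-/

namespace Pool.Agent.H63.L1

open MeasureTheory Measure

universe u v w

section general

variable (A : Type u) [NonUnitalNormedRing A] [NormedSpace ℂ A]

/-- A left Banach module over the Banach algebra `A`: a complex Banach space with a bounded
bilinear action of `A` such that `(ab)x = a(bx)`. -/
structure BanMod where
  /-- the underlying Banach space -/
  carrier : Type v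
  [grp : NormedAddCommGroup carrier]
  [nsp : NormedSpace ℂ carrier]
  [cpl : CompleteSpace carrier]
  /-- the action -/
  act : A →L[ℂ] carrier →L[ℂ] carrier
  act_mul : ∀ (a b : A) (x : carrier), act (a * b) x = act a (act b x)

attribute [instance] BanMod.grp BanMod.nsp BanMod.cpl

variable {A}

/-- A bounded linear map is a morphism of left Banach modules. -/
def IsMor (X : BanMod.{u, v} A) (Y : BanMod.{u, w} A) (f : X.carrier →L[ℂ] Y.carrier) : Prop :=
  ∀ (a : A) (x : X.carrier), f (X.act a x) = Y.act a (f x)

/-- A left Banach module `P` is projective if every morphism `Y → P` with a bounded linear right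
inverse has a right inverse which is a morphism. -/
def IsProjective (P : BanMod.{u, v} A) : Prop :=
  ∀ (Y : BanMod.{u, v} A) (φ : Y.carrier →L[ℂ] P.carrier), IsMor Y P φ →
    (∃ r : P.carrier →L[ℂ] Y.carrier, ∀ p, φ (r p) = p) →
    ∃ s : P.carrier →L[ℂ] Y.carrier, IsMor P Y s ∧ ∀ p, φ (s p) = p

/-- A projective resolution `0 ← X ← P 0 ← P 1 ← ...` of a left Banach module: a complex of modules
with all `P n` projective, which splits as a complex of Banach spaces. -/
structure ProjRes (X : BanMod.{u, w} A) where
  P : ℕ → BanMod.{u, v} A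
  projective : ∀ n, IsProjective (P n)
  ε : (P 0).carrier →L[ℂ] X.carrier
  d : ∀ n, (P (n + 1)).carrier →L[ℂ] (P n).carrier
  mor_ε : IsMor (P 0) X ε
  mor_d : ∀ n, IsMor (P (n + 1)) (P n) (d n)
  ε_d : ∀ x, ε (d 0 x) = 0
  d_d : ∀ n x, d n (d (n + 1) x) = 0
  /-- the complex splits: there is a bounded linear contracting homotopy -/
  admissible : ∃ (s' : X.carrier →L[ℂ] (P 0).carrier)
    (s : ∀ n, (P n).carrier →L[ℂ] (P (n + 1)).carrier),
    (∀ x, ε (s' x) = x) ∧ (∀ p, s' (ε p) + d 0 (s 0 p) = p) ∧
      ∀ n p, s n (d n p) + d (n + 1) (s (n + 1) p) = p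

end general

end Pool.Agent.H63.L1
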