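import Mathlib
import Pool.Agent.H63.L1.LOneRing
import Pool.Agent.H63.L1.Complex

set_option autoImplicit false

/-!
# The space of measures on a `G`-space as an `L¹(G)`-module
-/

namespace Pool.Agent.H63.L1

open MeasureTheory Measure Filter Topology Set BoundedContinuousFunction
open scoped ENNReal Pointwise

universe u v

set_option linter.unusedSectionVars false

variable {G : Type u} [Group G] [TopologicalSpace G] [IsTopologicalGroup G]
  [LocallyCompactSpace G] [MeasurableSpace G] [BorelSpace G] [T2Space G]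

lemma exists_compact_integral_lt (a : LOne G) {ε : ℝ} (hε : 0 < ε) :
    ∃ K : Set G, IsCompact K ∧ ∫ x in Kᶜ, ‖a.fn x‖ ∂(haar : Measure G) < ε := by
  obtain ⟨K, hK, h⟩ := exists_compact_lintegral_lt (integrable_fn a)
    (ε := ENNReal.ofReal ε) (by simpa using hε)
  refine ⟨K, hK, ?_⟩
  rw [integral_norm_eq_lintegral_enorm (integrable_fn a).aestronglyMeasurable.restrict]
  exact (ENNReal.toReal_lt_of_lt_ofReal h)

variable {X : Type v} [TopologicalSpace X] [LocallyCompactSpace X] [T2Space X] [MulAction G X]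
  [ContinuousSMul G X]

lemma ltm_fn (t : G) (ω : TT X) (f : X →ᵇ ℂ) :
    (ltm t ω).fn f = ω.fn (pull ((Homeomorph.smul t : X ≃ₜ X) : C(X, X)) f) := rfl

/-- The orbit map is weakly continuous. -/
lemma continuous_orbit (ω : TT X) (f : X →ᵇ ℂ) : Continuous (fun t : G => (ltm t ω).fn f) := by
  rw [continuous_iff_continuousAt]
  intro t0
  rw [Metric.continuousAt_iff']
  intro ε hε
  obtain ⟨K, hK, h1⟩ := ω.tight (ε / (4 * (2 * ‖f‖ + 1))) (by positivity)
  obtain ⟨χ, hχ⟩ := exists_cut hK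
  set δ : ℝ := ε / (4 * (‖ω‖ + 1)) with hδ
  have hδpos : 0 < δ := by positivity
  have hev : ∀ᶠ t in 𝓝 t0, ∀ x ∈ tsupport χ, ‖f (t • x) - f (t0 • x)‖ < δ := by
    have hcs : IsCompact (tsupport χ) := hχ.supp
    apply hcs.eventually_forall_of_forall_eventually
    intro x _
    have hc : Continuous (fun z : G × X => ‖f (z.1 • z.2) - f (t0 • z.2)‖) := by fun_prop
    have h0 : ‖f ((t0, x).1 • (t0, x).2) - f (t0 • (t0, x).2)‖ < δ := by simpa using hδpos
    exact hc.continuousAt.eventually (gt_mem_nhds h0)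
  filter_upwards [hev] with t ht
  set h : X →ᵇ ℂ := pull ((Homeomorph.smul t : X ≃ₜ X) : C(X, X)) f -
    pull ((Homeomorph.smul t0 : X ≃ₜ X) : C(X, X)) f with hh
  have hhx : ∀ x, h x = f (t • x) - f (t0 • x) := fun _ => rfl
  have hhn : ‖h‖ ≤ 2 * ‖f‖ := by
    refine (norm_sub_le _ _).trans ?_
    linarith [pull_norm_le ((Homeomorph.smul t : X ≃ₜ X) : C(X, X)) f,
      pull_norm_le ((Homeomorph.smul t0 : X ≃ₜ X) : C(X, X)) f]
  have e : (ltm t ω).fn f - (ltm t0 ω).fn f = ω.fn ((1 - χ) * h) + ω.fn (χ * h) := by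
    rw [ltm_fn, ltm_fn, ← map_sub, ← map_add, ← hh]
    congr 1
    ring
  rw [dist_eq_norm, e]
  have e1 : ‖ω.fn ((1 - χ) * h)‖ ≤ ε / (4 * (2 * ‖f‖ + 1)) * (2 * ‖f‖) := by
    refine (h1 _ ?_).trans ?_
    · intro x hx
      show (1 - χ x) * h x = 0
      rw [hχ.one x hx, sub_self, zero_mul]
    · gcongr
      calc ‖(1 - χ) * h‖ ≤ ‖1 - χ‖ * ‖h‖ := norm_mul_le _ _
        _ ≤ 1 * (2 * ‖f‖) := by gcongr; exact hχ.norm_one_sub_le
        _ = 2 * ‖f‖ := one_mul _
  have e2 : ‖ω.fn (χ * h)‖ ≤ ‖ω‖ * δ := by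
    refine (ω.fn.le_opNorm _).trans ?_
    rw [TT.norm_fn]
    gcongr
    rw [BoundedContinuousFunction.norm_le hδpos.le]
    intro x
    show ‖χ x * h x‖ ≤ δ
    by_cases hx : x ∈ tsupport χ
    · rw [norm_mul]
      calc ‖χ x‖ * ‖h x‖ ≤ 1 * δ := by
            gcongr
            · exact (χ.norm_coe_le_norm x).trans hχ.norm_le
            · rw [hhx]; exact (ht x hx).le
        _ = δ := one_mul _
    · have : χ x = 0 := by
        by_contra hne
        exact hx (subset_tsupport _ hne)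
      rw [this, zero_mul, norm_zero]
      exact hδpos.le
  have e3 : ε / (4 * (2 * ‖f‖ + 1)) * (2 * ‖f‖) ≤ ε / 4 := by
    rw [div_mul_eq_mul_div, div_le_div_iff₀ (by positivity) (by positivity)]
    nlinarith [norm_nonneg f]
  have e4 : ‖ω‖ * δ ≤ ε / 4 := by
    rw [hδ, mul_div_assoc', div_le_div_iff₀ (by positivity) (by positivity)]
    nlinarith [norm_nonneg ω]
  calc ‖ω.fn ((1 - χ) * h) + ω.fn (χ * h)‖ ≤ ‖ω.fn ((1 - χ) * h)‖ + ‖ω.fn (χ * h)‖ :=
        norm_add_le _ _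
    _ < ε := by linarith

lemma BC_orbit (ω : TT X) (f : X →ᵇ ℂ) : BC (fun t : G => (ltm t ω).fn f) (‖ω‖ * ‖f‖) := by
  refine ⟨continuous_orbit ω f, fun t => ?_⟩
  rw [ltm_fn]
  refine (ω.fn.le_opNorm _).trans ?_
  rw [TT.norm_fn]
  gcongr
  exact pull_norm_le _ f

/-- the functional `f ↦ ∫ a(t) (t ω)(f) dt` -/
noncomputable def actD (a : LOne G) (ω : TT X) : (X →ᵇ ℂ) →L[ℂ] ℂ :=
  LinearMap.mkContinuous
    { toFun := fun f => integ (fun t : G => (ltm t ω).fn f) _ (BC_orbit ω f) a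
      map_add' := by
        intro f g
        rw [integ_apply, integ_apply, integ_apply,
          ← integral_add ((BC_orbit ω f).integrable a) ((BC_orbit ω g).integrable a)]
        congr 1
        funext t
        rw [map_add, smul_add]
      map_smul' := by
        intro c f
        rw [RingHom.id_apply, integ_apply, integ_apply, ← integral_smul]
        congr 1
        funext t
        rw [map_smul, smul_comm] } (‖a‖ * ‖ω‖) (by
    intro f
    show ‖integ (fun t : G => (ltm t ω).fn f) _ (BC_orbit ω f) a‖ ≤ _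
    refine ((integ _ _ (BC_orbit ω f)).le_of_opNorm_le (norm_integ_le _ _ _) a).trans (le_of_eq ?_)
    ring)

lemma actD_apply (a : LOne G) (ω : TT X) (f : X →ᵇ ℂ) :
    actD a ω f = integ (fun t : G => (ltm t ω).fn f) _ (BC_orbit ω f) a := rfl

lemma actD_apply' (a : LOne G) (ω : TT X) (f : X →ᵇ ℂ) :
    actD a ω f = ∫ t, a.fn t • (ltm t ω).fn f ∂(haar : Measure G) := rfl

lemma norm_actD_le (a : LOne G) (ω : TT X) : ‖actD a ω‖ ≤ ‖a‖ * ‖ω‖ :=
  LinearMap.mkContinuous_norm_le _ (by positivity) _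

lemma tight_actD (a : LOne G) (ω : TT X) : Tight (actD a ω) := by
  intro ε hε
  obtain ⟨K, hK, h1⟩ := ω.tight (ε / (2 * (‖a‖ + 1))) (by positivity)
  obtain ⟨C, hC, h2⟩ := exists_compact_integral_lt a (ε := ε / (2 * (‖ω‖ + 1))) (by positivity)
  refine ⟨(fun z : G × X => z.1 • z.2) '' (C ×ˢ K), (hC.prod hK).image (by fun_prop),
    fun f hf => ?_⟩
  rw [actD_apply']
  have hCm : MeasurableSet C := hC.measurableSet
  have hb : ∀ t, ‖a.fn t • (ltm t ω).fn f‖ ≤ ‖a.fn t‖ * (ε / (2 * (‖a‖ + 1)) * ‖f‖) +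
      Cᶜ.indicator (fun t => ‖a.fn t‖) t * (‖ω‖ * ‖f‖) := by
    intro t
    rw [norm_smul]
    by_cases ht : t ∈ C
    · rw [indicator_of_notMem (by simpa using ht), zero_mul, add_zero]
      gcongr
      rw [ltm_fn]
      refine (h1 _ ?_).trans (by gcongr; exact pull_norm_le _ f)
      intro x hx
      exact hf _ ⟨(t, x), ⟨ht, hx⟩, rfl⟩
    · rw [indicator_of_mem (by simpa using ht)]
      have : ‖a.fn t‖ * ‖(ltm t ω).fn f‖ ≤ ‖a.fn t‖ * (‖ω‖ * ‖f‖) := by
        gcongr
        exact (BC_orbit ω f).bdd t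
      have h0 : 0 ≤ ‖a.fn t‖ * (ε / (2 * (‖a‖ + 1)) * ‖f‖) := by positivity
      linarith
  have hi1 : Integrable (fun t => ‖a.fn t‖ * (ε / (2 * (‖a‖ + 1)) * ‖f‖)) (haar : Measure G) :=
    (integrable_fn a).norm.mul_const _
  have hi2 : Integrable (fun t => Cᶜ.indicator (fun t => ‖a.fn t‖) t * (‖ω‖ * ‖f‖))
      (haar : Measure G) := ((integrable_fn a).norm.indicator hCm.compl).mul_const _
  refine (norm_integral_le_of_norm_le (hi1.add hi2) (Eventually.of_forall hb)).trans ?_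
  show ∫ t, (‖a.fn t‖ * (ε / (2 * (‖a‖ + 1)) * ‖f‖) +
    Cᶜ.indicator (fun t => ‖a.fn t‖) t * (‖ω‖ * ‖f‖)) ∂(haar : Measure G) ≤ ε * ‖f‖
  rw [integral_add hi1 hi2, integral_mul_const, integral_mul_const, ← norm_eq_integral,
    integral_indicator hCm.compl]
  have e1 : ‖a‖ * (ε / (2 * (‖a‖ + 1)) * ‖f‖) ≤ ε / 2 * ‖f‖ := by
    have : ‖a‖ * (ε / (2 * (‖a‖ + 1))) ≤ ε / 2 := by
      rw [mul_div_assoc', div_le_div_iff₀ (by positivity) (by positivity)]
      nlinarith [norm_nonneg a]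
    calc ‖a‖ * (ε / (2 * (‖a‖ + 1)) * ‖f‖) = ‖a‖ * (ε / (2 * (‖a‖ + 1))) * ‖f‖ := by ring
      _ ≤ _ := by gcongr
  have e2 : (∫ t in Cᶜ, ‖a.fn t‖ ∂(haar : Measure G)) * (‖ω‖ * ‖f‖) ≤ ε / 2 * ‖f‖ := by
    have : (∫ t in Cᶜ, ‖a.fn t‖ ∂(haar : Measure G)) * ‖ω‖ ≤ ε / 2 := by
      calc (∫ t in Cᶜ, ‖a.fn t‖ ∂(haar : Measure G)) * ‖ω‖ ≤ ε / (2 * (‖ω‖ + 1)) * ‖ω‖ := by gcongr
        _ ≤ ε / 2 := by
          rw [div_mul_eq_mul_div, div_le_div_iff₀ (by positivity) (by positivity)]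
          nlinarith [norm_nonneg ω]
    calc _ = ((∫ t in Cᶜ, ‖a.fn t‖ ∂(haar : Measure G)) * ‖ω‖) * ‖f‖ := by ring
      _ ≤ _ := by gcongr
  linarith

/-- The action of `L¹(G)` on the space of measures. -/
noncomputable def actT : LOne G →L[ℂ] TT X →L[ℂ] TT X :=
  LinearMap.mkContinuous₂
    (LinearMap.mk₂ ℂ (fun (a : LOne G) (ω : TT X) => (⟨actD a ω, tight_actD a ω⟩ : TT X))
      (by
        intro a b ω
        apply TT.ext
        intro f
        show integ _ _ (BC_orbit ω f) (a + b) = integ _ _ (BC_orbit ω f) a +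
          integ _ _ (BC_orbit ω f) b
        rw [map_add])
      (by
        intro c a ω
        apply TT.ext
        intro f
        show integ _ _ (BC_orbit ω f) (c • a) = c • integ _ _ (BC_orbit ω f) a
        rw [map_smul])
      (by
        intro a ω ω'
        apply TT.ext
        intro f
        show actD a (ω + ω') f = actD a ω f + actD a ω' f
        rw [actD_apply', actD_apply', actD_apply',
          ← integral_add ((BC_orbit ω f).integrable a) ((BC_orbit ω' f).integrable a)]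
        congr 1
        funext t
        rw [map_add, TT.fn_add, _root_.add_apply, smul_add])
      (by
        intro c a ω
        apply TT.ext
        intro f
        show actD a (c • ω) f = c • actD a ω f
        rw [actD_apply', actD_apply', ← integral_smul]
        congr 1
        funext t
        rw [map_smul, TT.fn_smul, _root_.smul_apply, smul_comm]))
    1 (by
      intro a ω
      rw [one_mul]
      exact norm_actD_le a ω)

lemma actT_fn (a : LOne G) (ω : TT X) (f : X →ᵇ ℂ) :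
    (actT a ω).fn f = integ (fun t : G => (ltm t ω).fn f) _ (BC_orbit ω f) a := rfl

lemma actT_lam (s : G) (a : LOne G) (ω : TT X) : actT (lam s a) ω = ltm s (actT a ω) := by
  apply TT.ext
  intro f
  set fs : X →ᵇ ℂ := pull ((Homeomorph.smul s : X ≃ₜ X) : C(X, X)) f with hfs
  have e : ∀ t : G, (ltm (s * t) ω).fn f = (ltm t ω).fn fs := by
    intro t
    rw [ltm_mul]
    rfl
  have h : BC (fun t : G => (ltm (s * t) ω).fn f) (‖ω‖ * ‖f‖) :=
    ⟨(continuous_orbit ω f).comp (continuous_const_mul s), fun t => (BC_orbit ω f).bdd _⟩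
  rw [actT_fn, integ_lam _ _ _ s h]
  show _ = (actT a ω).fn fs
  rw [actT_fn]
  exact integ_congr _ _ e a

lemma actT_mul (a b : LOne G) (ω : TT X) : actT (a * b) ω = actT a (actT b ω) := by
  apply TT.ext
  intro f
  have h : BC (fun t : G => integ (fun t : G => (ltm t ω).fn f) _ (BC_orbit ω f) (lam t b))
      (‖integ (fun t : G => (ltm t ω).fn f) _ (BC_orbit ω f)‖ * ‖b‖) :=
    ⟨(integ (fun t : G => (ltm t ω).fn f) _ (BC_orbit ω f)).continuous.comp (continuous_lam b),
      fun t => ((integ (fun t : G => (ltm t ω).fn f) _ (BC_orbit ω f)).le_opNorm _).trans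
        (by rw [norm_lam])⟩
  rw [actT_fn, actT_fn, mul_def, ← convR_apply, convR, integ_comp _ _ _ _ _ h]
  apply integ_congr
  intro t
  rw [← actT_lam]
  rfl

/-- a weakly defined equivariant map is a module morphism -/
lemma actT_mor {Y : Type v} [TopologicalSpace Y] [LocallyCompactSpace Y] [T2Space Y]
    [MulAction G Y] [ContinuousSMul G Y] (φ : TT X →L[ℂ] TT Y) (δ : (Y →ᵇ ℂ) → (X →ᵇ ℂ))
    (h1 : ∀ ω f, (φ ω).fn f = ω.fn (δ f)) (h2 : ∀ (t : G) ω, φ (ltm t ω) = ltm t (φ ω))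
    (a : LOne G) (ω : TT X) : φ (actT a ω) = actT a (φ ω) := by
  apply TT.ext
  intro f
  rw [h1, actT_fn, actT_fn]
  apply integ_congr
  intro t
  rw [← h1, h2]

lemma bdm_actT (n : ℕ) (a : LOne G) (ω : TT (Fin (n + 1) → G)) :
    bdm n (actT a ω) = actT a (bdm n ω) :=
  actT_mor (bdm n) (cobB n) (fun ω f => bdm_fn n ω f) (fun t ω => bdm_ltm n t ω) a ω

end Pool.Agent.H63.L1
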