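import Mathlib
import Pool.Agent.H63.L1.MeasAct

set_option autoImplicit false

/-!
# The essential part of an `L¹(G)`-module and the action of `G` on it
-/

namespace Pool.Agent.H63.L1

open MeasureTheory Measure Filter Topology Set BoundedContinuousFunction
open scoped ENNReal Pointwise

universe u v

set_option linter.unusedSectionVars false

variable {G : Type u} [Group G] [TopologicalSpace G] [IsTopologicalGroup G]
  [LocallyCompactSpace G] [MeasurableSpace G] [BorelSpace G] [T2Space G]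

instance : (atTop : Filter (Finset (LOne G) × ℕ)).NeBot := by
  classical
  infer_instance

variable {E : Type*} [NormedAddCommGroup E] [NormedSpace ℂ E] [CompleteSpace E]
  (π : LOne G →L[ℂ] E →L[ℂ] E)

/-- the span of the products -/
def EssS : Submodule ℂ E := Submodule.span ℂ {y | ∃ a x, y = π a x}

/-- the essential part -/
def Ess : Submodule ℂ E := (EssS π).topologicalClosure

lemma EssS_le : EssS π ≤ Ess π := Submodule.le_topologicalClosure _

lemma gen_mem (a : LOne G) (x : E) : π a x ∈ Ess π :=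
  EssS_le π (Submodule.subset_span ⟨a, x, rfl⟩)

lemma isClosed_Ess : IsClosed (Ess π : Set E) := Submodule.isClosed_topologicalClosure _

instance : CompleteSpace (Ess π) := (isClosed_Ess π).completeSpace_coe

lemma Ess.hom_ext {F : Type*} [NormedAddCommGroup F] [NormedSpace ℂ F] {φ φ' : Ess π →L[ℂ] F}
    (h : ∀ a x, φ ⟨π a x, gen_mem π a x⟩ = φ' ⟨π a x, gen_mem π a x⟩) : φ = φ' := by
  have h1 : ∀ w (hw : w ∈ EssS π), φ ⟨w, EssS_le π hw⟩ = φ' ⟨w, EssS_le π hw⟩ := by
    intro w hw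
    refine Submodule.span_induction (p := fun w hw => φ ⟨w, EssS_le π hw⟩ = φ' ⟨w, EssS_le π hw⟩)
      ?_ ?_ ?_ ?_ hw
    · rintro _ ⟨a, x, rfl⟩
      exact h a x
    · exact (map_zero φ).trans (map_zero φ').symm
    · intro x y hx hy ex ey
      have e1 := map_add φ ⟨x, EssS_le π hx⟩ ⟨y, EssS_le π hy⟩
      have e2 := map_add φ' ⟨x, EssS_le π hx⟩ ⟨y, EssS_le π hy⟩
      rw [ex, ey, ← e2] at e1
      exact e1
    · intro c x hx ex
      have e1 := map_smul φ c ⟨x, EssS_le π hx⟩
      have e2 := map_smul φ' c ⟨x, EssS_le π hx⟩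
      rw [ex, ← e2] at e1
      exact e1
  ext w
  have hw : (w : E) ∈ closure (EssS π : Set E) := w.2
  rw [mem_closure_iff_seq_limit] at hw
  obtain ⟨u, hu, hlim⟩ := hw
  have hlim' : Tendsto (fun n => (⟨u n, EssS_le π (hu n)⟩ : Ess π)) atTop (𝓝 w) :=
    tendsto_subtype_rng.mpr hlim
  have t1 := (φ.continuous.tendsto w).comp hlim'
  have t2 := (φ'.continuous.tendsto w).comp hlim'
  have e : (φ ∘ fun n => (⟨u n, EssS_le π (hu n)⟩ : Ess π)) =
      φ' ∘ fun n => (⟨u n, EssS_le π (hu n)⟩ : Ess π) := by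
    funext n
    exact h1 _ (hu n)
  rw [e] at t1
  exact tendsto_nhds_unique t1 t2

lemma norm_lam_app (g : G) (i : Finset (LOne G) × ℕ) (w : E) :
    ‖π (lam g (app i)) w‖ ≤ ‖π‖ * ‖w‖ := by
  calc ‖π (lam g (app i)) w‖ ≤ ‖π (lam g (app i))‖ * ‖w‖ := (π (lam g (app i))).le_opNorm w
    _ ≤ (‖π‖ * ‖lam g (app i)‖) * ‖w‖ := by gcongr; exact π.le_opNorm _
    _ ≤ (‖π‖ * 1) * ‖w‖ := by gcongr; rw [norm_lam]; exact norm_app i
    _ = ‖π‖ * ‖w‖ := by rw [mul_one]

variable {π} (hπ : ∀ a b x, π (a * b) x = π a (π b x))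

include hπ

lemma tendsto_gen (g : G) (a : LOne G) (x : E) :
    Tendsto (fun i : Finset (LOne G) × ℕ => π (lam g (app i)) (π a x)) atTop
      (𝓝 (π (lam g a) x)) := by
  have h1 : ∀ i : Finset (LOne G) × ℕ, π (lam g (app i)) (π a x) =
      (π.flip x) (lamL g (app i * a)) := by
    intro i
    rw [← hπ, ← lam_mul_left]
    rfl
  simp only [h1]
  exact (((π.flip x).continuous.comp (lamL g).continuous).tendsto a).comp (tendsto_app a)

lemma cauchy_lam (g : G) (w : E) (hw : w ∈ Ess π) :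
    CauchySeq (fun i : Finset (LOne G) × ℕ => π (lam g (app i)) w) := by
  classical
  have h1 : ∀ w ∈ EssS π, ∃ y, Tendsto (fun i : Finset (LOne G) × ℕ => π (lam g (app i)) w)
      atTop (𝓝 y) := by
    intro w hw
    refine Submodule.span_induction (p := fun w _ => ∃ y, Tendsto
      (fun i : Finset (LOne G) × ℕ => π (lam g (app i)) w) atTop (𝓝 y)) ?_ ?_ ?_ ?_ hw
    · rintro _ ⟨a, x, rfl⟩
      exact ⟨_, tendsto_gen hπ g a x⟩
    · exact ⟨0, by simp⟩
    · rintro x y _ _ ⟨a, ha⟩ ⟨b, hb⟩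
      refine ⟨a + b, (ha.add hb).congr fun i => ?_⟩
      rw [map_add]
    · rintro c x _ ⟨a, ha⟩
      refine ⟨c • a, (ha.const_smul c).congr fun i => ?_⟩
      rw [map_smul]
  rw [Metric.cauchySeq_iff]
  intro ε hε
  have hw : w ∈ closure (EssS π : Set E) := hw
  rw [Metric.mem_closure_iff] at hw
  obtain ⟨w', hw', hd⟩ := hw (ε / (3 * (‖π‖ + 1))) (by positivity)
  obtain ⟨y, hy⟩ := h1 w' hw'
  have hc := hy.cauchySeq
  rw [Metric.cauchySeq_iff] at hc
  obtain ⟨N, hN⟩ := hc (ε / 3) (by positivity)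
  refine ⟨N, fun m hm n hn => ?_⟩
  have e1 := hN m hm n hn
  have hb : ∀ i : Finset (LOne G) × ℕ, dist (π (lam g (app i)) w) (π (lam g (app i)) w') < ε / 3 := by
    intro i
    rw [dist_eq_norm, ← map_sub]
    refine (norm_lam_app π g i _).trans_lt ?_
    rw [← dist_eq_norm]
    calc ‖π‖ * dist w w' ≤ (‖π‖ + 1) * dist w w' := by gcongr; linarith
      _ < (‖π‖ + 1) * (ε / (3 * (‖π‖ + 1))) := by gcongr
      _ = ε / 3 := by field_simp
  calc dist (π (lam g (app m)) w) (π (lam g (app n)) w)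
      ≤ dist (π (lam g (app m)) w) (π (lam g (app m)) w') +
        dist (π (lam g (app m)) w') (π (lam g (app n)) w') +
        dist (π (lam g (app n)) w') (π (lam g (app n)) w) := dist_triangle4 _ _ _ _
    _ < ε / 3 + ε / 3 + ε / 3 := by
        gcongr
        · exact hb m
        · rw [dist_comm]; exact hb n
    _ = ε := by ring

lemma exists_lim (g : G) (w : Ess π) : ∃ y : Ess π,
    Tendsto (fun i : Finset (LOne G) × ℕ => π (lam g (app i)) w) atTop (𝓝 (y : E)) := by
  obtain ⟨y, hy⟩ := cauchySeq_tendsto_of_complete (cauchy_lam hπ g w w.2)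
  exact ⟨⟨y, (isClosed_Ess π).mem_of_tendsto hy
    (Eventually.of_forall fun i => gen_mem π _ _)⟩, hy⟩

/-- The action of `G` on the essential part. -/
noncomputable def gact (g : G) : Ess π →L[ℂ] Ess π :=
  LinearMap.mkContinuous
    { toFun := fun w => (exists_lim hπ g w).choose
      map_add' := by
        intro w w'
        apply Subtype.ext
        apply tendsto_nhds_unique (exists_lim hπ g (w + w')).choose_spec
        have := (exists_lim hπ g w).choose_spec.add (exists_lim hπ g w').choose_spec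
        refine this.congr fun i => ?_
        rw [← map_add]
        rfl
      map_smul' := by
        intro c w
        apply Subtype.ext
        apply tendsto_nhds_unique (exists_lim hπ g (c • w)).choose_spec
        have := (exists_lim hπ g w).choose_spec.const_smul c
        refine this.congr fun i => ?_
        rw [← map_smul]
        rfl } ‖π‖ (by
    intro w
    apply le_of_tendsto (exists_lim hπ g w).choose_spec.norm
    exact Eventually.of_forall fun i => norm_lam_app π g i _)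

lemma tendsto_gact (g : G) (w : Ess π) :
    Tendsto (fun i : Finset (LOne G) × ℕ => π (lam g (app i)) w) atTop (𝓝 (gact hπ g w : E)) :=
  (exists_lim hπ g w).choose_spec

lemma norm_gact_le (g : G) : ‖gact hπ g‖ ≤ ‖π‖ := by
  apply ContinuousLinearMap.opNorm_le_bound _ (norm_nonneg π)
  intro w
  apply le_of_tendsto (tendsto_gact hπ g w).norm
  exact Eventually.of_forall fun i => norm_lam_app π g i _

lemma gact_gen (g : G) (a : LOne G) (x : E) :
    gact hπ g ⟨π a x, gen_mem π a x⟩ = ⟨π (lam g a) x, gen_mem π _ x⟩ :=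
  Subtype.ext (tendsto_nhds_unique (tendsto_gact hπ g _) (tendsto_gen hπ g a x))

lemma gact_mul (g h : G) : gact hπ (g * h) = (gact hπ g).comp (gact hπ h) := by
  apply Ess.hom_ext
  intro a x
  rw [ContinuousLinearMap.comp_apply, gact_gen, gact_gen, gact_gen, Subtype.mk.injEq, lam_mul]

lemma gact_one : gact hπ (1 : G) = ContinuousLinearMap.id ℂ (Ess π) := by
  apply Ess.hom_ext
  intro a x
  rw [gact_gen, ContinuousLinearMap.id_apply, Subtype.mk.injEq, lam_one]

lemma tendsto_app_act (w : E) (hw : w ∈ Ess π) :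
    Tendsto (fun i : Finset (LOne G) × ℕ => π (app i) w) atTop (𝓝 w) := by
  have h := tendsto_gact hπ 1 ⟨w, hw⟩
  rw [gact_one] at h
  simp only [lam_one] at h
  exact h

variable {E' : Type*} [NormedAddCommGroup E'] [NormedSpace ℂ E'] [CompleteSpace E']
  {π' : LOne G →L[ℂ] E' →L[ℂ] E'} (hπ' : ∀ a b x, π' (a * b) x = π' a (π' b x))

omit hπ in
lemma map_mem_Ess (f : E →L[ℂ] E') (hf : ∀ a x, f (π a x) = π' a (f x)) (w : E) (hw : w ∈ Ess π) :
    f w ∈ Ess π' := by
  have h1 : ∀ w ∈ EssS π, f w ∈ Ess π' := by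
    intro w hw
    refine Submodule.span_induction (p := fun w _ => f w ∈ Ess π') ?_ ?_ ?_ ?_ hw
    · rintro _ ⟨a, x, rfl⟩
      rw [hf]
      exact gen_mem π' _ _
    · rw [map_zero]; exact zero_mem _
    · intro x y _ _ hx hy
      rw [map_add]; exact add_mem hx hy
    · intro c x _ hx
      rw [map_smul]; exact Submodule.smul_mem _ _ hx
  have hw : w ∈ closure (EssS π : Set E) := hw
  rw [mem_closure_iff_seq_limit] at hw
  obtain ⟨u, hu, hlim⟩ := hw
  exact (isClosed_Ess π').mem_of_tendsto ((f.continuous.tendsto w).comp hlim)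
    (Eventually.of_forall fun n => h1 _ (hu n))

/-- restriction of a morphism to the essential parts -/
noncomputable def essMap (f : E →L[ℂ] E') (hf : ∀ a x, f (π a x) = π' a (f x)) :
    Ess π →L[ℂ] Ess π' :=
  (f.comp (Ess π).subtypeL).codRestrict (Ess π') (fun w => map_mem_Ess f hf w w.2)

omit hπ in
lemma essMap_coe (f : E →L[ℂ] E') (hf : ∀ a x, f (π a x) = π' a (f x)) (w : Ess π) :
    (essMap f hf w : E') = f w := rfl

include hπ'

lemma essMap_gact (f : E →L[ℂ] E') (hf : ∀ a x, f (π a x) = π' a (f x)) (g : G) (w : Ess π) :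
    essMap f hf (gact hπ g w) = gact hπ' g (essMap f hf w) := by
  apply Subtype.ext
  have h1 := (f.continuous.tendsto _).comp (tendsto_gact hπ g w)
  have h2 := tendsto_gact hπ' g (essMap f hf w)
  refine tendsto_nhds_unique (h1.congr fun i => ?_) h2
  exact hf _ _

omit hπ' in
lemma mor_gact {X : Type*} [TopologicalSpace X] [LocallyCompactSpace X] [T2Space X]
    [MulAction G X] [ContinuousSMul G X] (ψ : E →L[ℂ] TT X)
    (hψ : ∀ a x, ψ (π a x) = actT a (ψ x)) (g : G) (w : Ess π) :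
    ψ (gact hπ g w) = ltm g (ψ w) := by
  have h1 := (ψ.continuous.tendsto _).comp (tendsto_gact hπ g w)
  have h2 := (((ltm g : TT X →L[ℂ] TT X).continuous.comp ψ.continuous).tendsto _).comp
    (tendsto_app_act hπ w w.2)
  refine tendsto_nhds_unique (h1.congr fun i => ?_) h2
  show ψ (π (lam g (app i)) w) = ltm g (ψ (π (app i) w))
  rw [hψ, actT_lam, hψ]

/-- **Exactness of the essential parts with a bound.** -/
lemma exact_ess (d : E →L[ℂ] E') (hd : ∀ a x, d (π a x) = π' a (d x)) (s : E' →L[ℂ] E)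
    (Z : Submodule ℂ E') (hZπ : ∀ a, ∀ z ∈ Z, π' a z ∈ Z) (hds : ∀ z ∈ Z, d (s z) = z) (z : E')
    (hz : z ∈ Z) (hz' : z ∈ Ess π') : ∃ w ∈ Ess π, d w = z ∧ ‖w‖ ≤ ‖π‖ * ‖s‖ * 2 * ‖z‖ := by
  have hstep : ∀ z : E', z ∈ Z → z ∈ Ess π' → ∃ u : LOne G, ‖u‖ ≤ 1 ∧ ‖z - π' u z‖ ≤ ‖z‖ / 2 := by
    intro z _ hz'
    by_cases h0 : z = 0
    · exact ⟨0, by simp, by simp [h0]⟩
    · have hpos : 0 < ‖z‖ / 2 := by have := norm_pos_iff.mpr h0; positivity
      have := tendsto_app_act hπ' z hz'
      obtain ⟨i, hi⟩ := (this.eventually (Metric.ball_mem_nhds z hpos)).exists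
      refine ⟨app i, norm_app i, ?_⟩
      rw [dist_eq_norm, norm_sub_rev] at hi
      exact hi.le
  choose! u hu1 hu2 using hstep
  let zz : ℕ → E' := fun n => Nat.rec z (fun _ y => y - π' (u y) y) n
  have zz0 : zz 0 = z := rfl
  have zzs : ∀ n, zz (n + 1) = zz n - π' (u (zz n)) (zz n) := fun n => rfl
  have hzz : ∀ n, zz n ∈ Z ∧ zz n ∈ Ess π' ∧ ‖zz n‖ ≤ (1 / 2) ^ n * ‖z‖ := by
    intro n
    induction n with
    | zero => exact ⟨hz, hz', by simp [zz0]⟩
    | succ n ih =>
      obtain ⟨h1, h2, h3⟩ := ih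
      rw [zzs]
      refine ⟨sub_mem h1 (hZπ _ _ h1), sub_mem h2 (gen_mem π' _ _), ?_⟩
      refine (hu2 _ h1 h2).trans ?_
      rw [pow_succ]
      linarith
  let ww : ℕ → E := fun n => π (u (zz n)) (s (zz n))
  have hww : ∀ n, ‖ww n‖ ≤ (1 / 2) ^ n * (‖π‖ * ‖s‖ * ‖z‖) := by
    intro n
    obtain ⟨h1, h2, h3⟩ := hzz n
    calc ‖ww n‖ ≤ ‖π (u (zz n))‖ * ‖s (zz n)‖ := (π (u (zz n))).le_opNorm _
      _ ≤ (‖π‖ * ‖u (zz n)‖) * (‖s‖ * ‖zz n‖) := by
          gcongr
          · exact π.le_opNorm _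
          · exact s.le_opNorm _
      _ ≤ (‖π‖ * 1) * (‖s‖ * ((1 / 2) ^ n * ‖z‖)) := by
          gcongr
          exact hu1 _ h1 h2
      _ = (1 / 2) ^ n * (‖π‖ * ‖s‖ * ‖z‖) := by ring
  have hgeo : Summable (fun n : ℕ => ((1 : ℝ) / 2) ^ n * (‖π‖ * ‖s‖ * ‖z‖)) :=
    (summable_geometric_of_lt_one (by norm_num) (by norm_num)).mul_right _
  have hsum : Summable (fun n => ‖ww n‖) :=
    Summable.of_nonneg_of_le (fun _ => norm_nonneg _) hww hgeo
  refine ⟨∑' n, ww n, ?_, ?_, ?_⟩
  · apply (isClosed_Ess π).mem_of_tendsto hsum.of_norm.hasSum.tendsto_sum_nat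
    exact Eventually.of_forall fun n => sum_mem fun i _ => gen_mem π _ _
  · have h1 := hsum.of_norm.hasSum.tendsto_sum_nat
    have h2 := (d.continuous.tendsto _).comp h1
    have h3 : ∀ n, d (∑ i ∈ Finset.range n, ww i) = z - zz n := by
      intro n
      induction n with
      | zero => simp [zz0]
      | succ n ih =>
        rw [Finset.sum_range_succ, map_add, ih, zzs]
        have : d (ww n) = π' (u (zz n)) (zz n) := by
          show d (π (u (zz n)) (s (zz n))) = _
          rw [hd, hds _ (hzz n).1]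
        rw [this]
        abel
    have h4 : Tendsto zz atTop (𝓝 0) := by
      rw [tendsto_zero_iff_norm_tendsto_zero]
      refine squeeze_zero (fun _ => norm_nonneg _) (fun n => (hzz n).2.2) ?_
      have := (tendsto_pow_atTop_nhds_zero_of_lt_one (r := (1 : ℝ) / 2) (by norm_num)
        (by norm_num)).mul_const ‖z‖
      rwa [zero_mul] at this
    have h5 : Tendsto (fun n => z - zz n) atTop (𝓝 (z - 0)) := tendsto_const_nhds.sub h4
    rw [sub_zero] at h5
    refine tendsto_nhds_unique (h2.congr fun n => ?_) h5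
    exact h3 n
  · refine (norm_tsum_le_tsum_norm hsum).trans ?_
    refine (Summable.tsum_le_tsum hww hsum hgeo).trans (le_of_eq ?_)
    rw [tsum_mul_right, tsum_geometric_of_lt_one (by norm_num) (by norm_num)]
    ring

end Pool.Agent.H63.L1
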