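import Mathlib
import Pool.Agent.H63.L1.Random2

set_option autoImplicit false

/-!
# Every non-compact locally compact group has an open, sigma-compact, non-compact subgroup
-/

namespace Pool.Agent.H63.L1

open Filter Topology Set
open scoped Pointwise

variable {G : Type*} [Group G] [TopologicalSpace G] [IsTopologicalGroup G]

/-- compact symmetric neighbourhoods of the identity -/
structure CS (G : Type*) [Group G] [TopologicalSpace G] where
  K : Set G
  compact : IsCompact K
  symm : K⁻¹ = K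
  nhds : K ∈ 𝓝 (1 : G)

lemma CS.exists_next [NoncompactSpace G] (c : CS G) :
    ∃ c' : CS G, c.K * c.K ⊆ c'.K ∧ c.K ⊆ c'.K ∧ ∃ g ∈ c'.K, g ∉ c.K := by
  obtain ⟨g, hg⟩ : ∃ g, g ∉ c.K := by
    by_contra h
    push Not at h
    apply noncompact_univ G
    rw [← eq_univ_iff_forall.mpr h]
    exact c.compact
  set L : Set G := c.K ∪ {g, g⁻¹} with hL
  have h1 : (1 : G) ∈ L := Or.inl (mem_of_mem_nhds c.nhds)
  have hLs : L⁻¹ = L := by
    rw [hL, Set.union_inv, c.symm]
    congr 1
    rw [Set.inv_insert, Set.inv_singleton, inv_inv, Set.pair_comm]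
  have hLc : IsCompact L := c.compact.union ((finite_singleton _).insert _).isCompact
  have hsub : c.K ⊆ L * L := by
    intro x hx
    exact ⟨x, Or.inl hx, 1, h1, mul_one x⟩
  refine ⟨⟨L * L, hLc.mul hLc, ?_, mem_of_superset c.nhds hsub⟩, ?_, hsub, g, ?_, hg⟩
  · rw [mul_inv_rev, hLs]
  · exact Set.mul_subset_mul subset_union_left subset_union_left
  · exact ⟨g, by simp [hL], 1, h1, mul_one g⟩

lemma CS.nonempty [LocallyCompactSpace G] : Nonempty (CS G) := by
  obtain ⟨K, hK, hK1⟩ := exists_compact_mem_nhds (1 : G)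
  have h1 : K⁻¹ ∈ 𝓝 (1 : G) := by
    have := inv_mem_nhds_one (G := G) hK1
    exact this
  exact ⟨⟨K ∪ K⁻¹, hK.union hK.inv, by rw [Set.union_inv, inv_inv, union_comm],
    mem_of_superset hK1 subset_union_left⟩⟩

/-- the exhaustion -/
noncomputable def exh (G : Type*) [Group G] [TopologicalSpace G] [IsTopologicalGroup G]
    [LocallyCompactSpace G] [NoncompactSpace G] : ℕ → CS G
  | 0 => Classical.choice CS.nonempty
  | n + 1 => (exh G n).exists_next.choose

section

variable [LocallyCompactSpace G] [NoncompactSpace G]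

lemma exh_mul (n : ℕ) : (exh G n).K * (exh G n).K ⊆ (exh G (n + 1)).K :=
  (exh G n).exists_next.choose_spec.1

lemma exh_succ (n : ℕ) : (exh G n).K ⊆ (exh G (n + 1)).K :=
  (exh G n).exists_next.choose_spec.2.1

lemma exh_ne (n : ℕ) : ∃ g ∈ (exh G (n + 1)).K, g ∉ (exh G n).K :=
  (exh G n).exists_next.choose_spec.2.2

lemma exh_mono : Monotone (fun n => (exh G n).K) := monotone_nat_of_le_succ exh_succ

variable (G) in
/-- the subgroup -/
noncomputable def exhH : Subgroup G where
  carrier := ⋃ n, (exh G n).K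
  mul_mem' := by
    intro a b ha hb
    obtain ⟨n, hn⟩ := mem_iUnion.mp ha
    obtain ⟨m, hm⟩ := mem_iUnion.mp hb
    exact mem_iUnion.mpr ⟨max n m + 1, exh_mul _
      ⟨a, exh_mono (le_max_left n m) hn, b, exh_mono (le_max_right n m) hm, rfl⟩⟩
  one_mem' := mem_iUnion.mpr ⟨0, mem_of_mem_nhds (exh G 0).nhds⟩
  inv_mem' := by
    intro a ha
    obtain ⟨n, hn⟩ := mem_iUnion.mp ha
    refine mem_iUnion.mpr ⟨n, ?_⟩
    rw [← (exh G n).symm, Set.mem_inv, inv_inv]
    exact hn

lemma mem_exhH {g : G} : g ∈ exhH G ↔ ∃ n, g ∈ (exh G n).K := mem_iUnion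

lemma exh_subset_interior (n : ℕ) : (exh G n).K ⊆ interior (exh G (n + 1)).K := by
  intro x hx
  rw [mem_interior_iff_mem_nhds]
  have : x • (exh G n).K ∈ 𝓝 x := by
    have := smul_mem_nhds_smul x (exh G n).nhds
    rwa [smul_eq_mul, mul_one] at this
  apply mem_of_superset this
  rintro _ ⟨y, hy, rfl⟩
  exact exh_mul n ⟨x, hx, y, hy, rfl⟩

theorem exists_exhaustion [T2Space G] : ∃ (H : Subgroup G) (B : ℕ → Set H), Monotone B ∧
    (∀ k, Small (B k)) ∧ (∀ C : Set G, IsCompact C → ∃ j, ∀ h : H, (h : G) ∈ C → h ∈ B j) := by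
  refine ⟨exhH G, fun n => {h | (h : G) ∈ (exh G n).K}, ?_, ?_, ?_⟩
  · intro n m hnm h hh
    exact exh_mono hnm hh
  · intro k
    refine ⟨show (1 : G) ∈ (exh G k).K from mem_of_mem_nhds (exh G k).nhds, fun F => ?_⟩
    obtain ⟨m, hkm, hm⟩ : ∃ m, k ≤ m ∧ ∀ a ∈ F, (a : G) ∈ (exh G m).K := by
      classical
      induction F using Finset.induction_on with
      | empty => exact ⟨k, le_rfl, by simp⟩
      | insert a F _ ih =>
        obtain ⟨m, hkm, hm⟩ := ih
        obtain ⟨l, hl⟩ := mem_exhH.mp a.2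
        refine ⟨max m l, hkm.trans (le_max_left _ _), ?_⟩
        intro b hb
        rcases Finset.mem_insert.mp hb with rfl | hb
        · exact exh_mono (le_max_right m l) hl
        · exact exh_mono (le_max_left m l) (hm b hb)
    obtain ⟨g, hg, hg'⟩ := exh_ne (G := G) (m + 2)
    refine ⟨⟨g, mem_exhH.mpr ⟨_, hg⟩⟩, fun a ha b hb z hz => ?_⟩
    have hz1 : (z : G) ∈ (exh G m).K := exh_mono hkm hz
    have hz2 : (z : G)⁻¹ ∈ (exh G m).K := by
      rw [← (exh G m).symm, Set.mem_inv, inv_inv]
      exact hz1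
    have key : ∀ w ∈ (exh G m).K, (a : G) * w * b ∈ (exh G (m + 2)).K := fun w hw =>
      exh_mul (m + 1) ⟨a * w, exh_mul m ⟨a, hm a ha, w, hw, rfl⟩, b,
        exh_succ m (hm b hb), rfl⟩
    constructor
    · intro e
      have e' : g = (a : G) * z * b := congrArg Subtype.val e
      exact hg' (e' ▸ key _ hz1)
    · intro e
      have e' : g = (a : G) * (z : G)⁻¹ * b := congrArg Subtype.val e
      exact hg' (e' ▸ key _ hz2)
  · intro C hC
    have hopen : IsOpen (exhH G : Set G) := by
      have : (exhH G : Set G) = ⋃ n, interior (exh G n).K := by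
        apply Subset.antisymm
        · intro x hx
          obtain ⟨n, hn⟩ := mem_exhH.mp hx
          exact mem_iUnion.mpr ⟨n + 1, exh_subset_interior n hn⟩
        · intro x hx
          obtain ⟨n, hn⟩ := mem_iUnion.mp hx
          exact mem_exhH.mpr ⟨n, interior_subset hn⟩
      rw [this]
      exact isOpen_iUnion fun n => isOpen_interior
    have hclosed : IsClosed (exhH G : Set G) := Subgroup.isClosed_of_isOpen _ hopen
    obtain ⟨n, hn⟩ := (hC.inter_right hclosed).elim_directed_cover
      (fun n => interior (exh G n).K) (fun n => isOpen_interior) (by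
        intro x hx
        obtain ⟨n, hn⟩ := mem_exhH.mp hx.2
        exact mem_iUnion.mpr ⟨n + 1, exh_subset_interior n hn⟩)
      (by
        apply Monotone.directed_le
        intro n m hnm
        exact interior_mono (exh_mono hnm))
    exact ⟨n, fun h hh => show (h : G) ∈ (exh G n).K from interior_subset (hn ⟨hh, h.2⟩)⟩

end

end Pool.Agent.H63.L1
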