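import Mathlib
import Pool.Agent.H63.L1.Contra

set_option autoImplicit false

/-!
# There is no equivariant chain map of finite length
-/

namespace Pool.Agent.H63.L1

set_option linter.unusedSectionVars false

open BoundedContinuousFunction Filter Topology Set MeasureTheory

variable {H : Type*} [Group H]

/-- the cycles -/
def Zc : (n : ℕ) → Set (El (Fin n → H))
  | 0 => univ
  | n + 1 => {z | bde n z = 0}

lemma Zc_inv (n : ℕ) (g : H) (z : El (Fin n → H)) (hz : z ∈ Zc n) : lte n g z ∈ Zc n := by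
  cases n with
  | zero => trivial
  | succ n =>
    have hz : bde n z = 0 := hz
    show bde n (lte (n + 1) g z) = 0
    rw [bde_lte, hz, map_zero]

lemma bde_cone (n : ℕ) (z : El (Fin n → H)) (hz : z ∈ Zc n) : bde n (conee n 1 z) = z := by
  cases n with
  | zero => exact bde_cone_zero 1 z
  | succ n =>
    have hz : bde n z = 0 := hz
    rw [bde_cone_succ, hz, map_zero, sub_zero]

/-- **No equivariant chain map of finite length.** -/
theorem no_chain {G : Type*} [Group G] [TopologicalSpace G] [IsTopologicalGroup G]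
    [LocallyCompactSpace G] [T2Space G] (ι : H →* G) (B : ℕ → Set H) (hBm : Monotone B)
    (hBs : ∀ k, Small (B k)) (hBc : ∀ C : Set G, IsCompact C → ∃ j, ∀ h, ι h ∈ C → h ∈ B j)
    (Θ : ∀ n, El (Fin n → H) →L[ℂ] TT (Fin n → G))
    (hbd : ∀ n z, bdm n (Θ (n + 1) z) = Θ n (bde n z))
    (heq : ∀ n h z, Θ n (lte n h z) = ltm (ι h) (Θ n z))
    (N : ℕ) (hN : Θ N = 0) (h1 : (Θ 0 (del Fin.elim0)).fn 1 ≠ 0) : False := by
  obtain ⟨Γ, p, hΓ1, hΓ2⟩ := exists_random B hBs
  have key : ∀ d n, n + d = N → ∃ Φ : Set (Lab H) → El (Fin n → H) → TT (Fin (n + 1) → G),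
      Fam Γ p (Zc n) (lte n) (fun h => (ltm (ι h) : TT (Fin (n + 1) → G) →L[ℂ] _))
        (bdm n) (Θ n) Φ := by
    intro d
    induction d with
    | zero =>
      intro n hn
      have hn : n = N := hn
      subst hn
      refine ⟨fun _ _ => 0, ?_, ?_, ?_, ?_, ?_, ?_⟩
      · intros; simp
      · intros; simp
      · intros; simp
      · exact ⟨0, le_rfl, fun A _ z => by simp⟩
      · intro A _ z _
        rw [hN, map_zero]
        simp
      · intros; simp
    | succ d ih =>
      intro n hn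
      obtain ⟨Φ, hΦ⟩ := ih (n + 1) (by omega)
      exact step (σ := conee n 1) (lte_mul n) (lte_one n) (lte_mul (n + 1)) (lte_one (n + 1))
        (norm_lte_le n) (norm_lte_le (n + 1)) (Zc_inv n) (bde_lte n) (bde_cone n)
        (fun w hw => hw) (fun g m => bdm_ltm (n + 1) (ι g) m) (bdm_bdm n) (hbd n) (heq (n + 1))
        (genLim (fun h : H => (Homeomorph.smul (ι h) : (Fin (n + 2) → G) ≃ₜ (Fin (n + 2) → G)))) hΦ
  obtain ⟨Φ, hΦ⟩ := key N 0 (by omega)
  have hz : ∀ g : H, lte 0 g (del Fin.elim0) = del Fin.elim0 := by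
    intro g
    unfold lte
    rw [epush_del]
    congr 1
    exact funext fun i => i.elim0
  have h2 := fam_mass_zero ι hBm hΓ1 hΓ2 (X := Fin 1 → G) ?_ hΦ (del Fin.elim0) trivial hz
  · have h3 := hΦ.bd univ MeasurableSet.univ (del Fin.elim0) trivial
    have h4 := congrArg (fun ω => ω.fn 1) h3
    have h5 : cobB 0 (1 : (Fin 0 → G) →ᵇ ℂ) = 1 := by
      ext x
      rw [cobB_apply, cob_zero]
      rfl
    simp only [bdm_fn, h5, h2, TT.fn_smul, _root_.smul_apply, probReal_univ, Complex.ofReal_one,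
      one_smul] at h4
    exact h1 h4.symm
  · intro C hC
    have hD : IsCompact ((fun q : (Fin 1 → G) × (Fin 1 → G) => q.2 0 * (q.1 0)⁻¹) '' (C ×ˢ C)) := by
      apply (hC.prod hC).image
      fun_prop
    obtain ⟨j, hj⟩ := hBc _ hD
    refine ⟨j, fun h hh => ?_⟩
    obtain ⟨c, hc, hc'⟩ := hh
    apply hj
    refine ⟨(c, ι h • c), ⟨hc, hc'⟩, ?_⟩
    show ι h * c 0 * (c 0)⁻¹ = ι h
    rw [mul_inv_cancel_right]

end Pool.Agent.H63.L1
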