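import Mathlib
import Pool.Agent.H63.L1.Defs
import Pool.Agent.H63.L1.Ess
import Pool.Agent.H63.L1.NoChain
import Pool.Agent.H63.L1.Exhaust

set_option autoImplicit false

/-!
# Lifting
-/

namespace Pool.Agent.H63.L1

open MeasureTheory Measure Filter Topology Set BoundedContinuousFunction

universe u v w

set_option linter.unusedSectionVars false

section general

variable {A : Type u} [NonUnitalNormedRing A] [NormedSpace ℂ A]

/-- restriction of a bilinear action to an invariant subspace -/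
noncomputable def resAct {E : Type*} [NormedAddCommGroup E] [NormedSpace ℂ E]
    (π : A →L[ℂ] E →L[ℂ] E) (Y : Submodule ℂ E) (hY : ∀ a, ∀ y ∈ Y, π a y ∈ Y) :
    A →L[ℂ] Y →L[ℂ] Y :=
  LinearMap.mkContinuous₂
    (LinearMap.mk₂ ℂ (fun (a : A) (y : Y) => (⟨π a y, hY a y y.2⟩ : Y))
      (by
        intro a b y
        apply Subtype.ext
        show π (a + b) y = π a y + π b y
        rw [map_add]
        rfl)
      (by
        intro c a y
        apply Subtype.ext
        show π (c • a) y = c • π a y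
        rw [map_smul]
        rfl)
      (by
        intro a y y'
        apply Subtype.ext
        exact map_add (π a) _ _)
      (by
        intro c a y
        apply Subtype.ext
        exact map_smul (π a) c _))
    ‖π‖ (by
      intro a y
      show ‖π a y‖ ≤ ‖π‖ * ‖a‖ * ‖(y : E)‖
      exact ((π a).le_opNorm _).trans (by gcongr; exact π.le_opNorm _))

lemma resAct_coe {E : Type*} [NormedAddCommGroup E] [NormedSpace ℂ E]
    (π : A →L[ℂ] E →L[ℂ] E) (Y : Submodule ℂ E) (hY : ∀ a, ∀ y ∈ Y, π a y ∈ Y) (a : A) (y : Y) :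
    (resAct π Y hY a y : E) = π a y := rfl

/-- product action -/
noncomputable def prodAct {E E' : Type*} [NormedAddCommGroup E] [NormedSpace ℂ E]
    [NormedAddCommGroup E'] [NormedSpace ℂ E'] (π : A →L[ℂ] E →L[ℂ] E)
    (π' : A →L[ℂ] E' →L[ℂ] E') : A →L[ℂ] (E × E') →L[ℂ] (E × E') :=
  (ContinuousLinearMap.prodMapL ℂ E E E' E').comp (π.prod π')

lemma prodAct_apply {E E' : Type*} [NormedAddCommGroup E] [NormedSpace ℂ E]
    [NormedAddCommGroup E'] [NormedSpace ℂ E'] (π : A →L[ℂ] E →L[ℂ] E)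
    (π' : A →L[ℂ] E' →L[ℂ] E') (a : A) (x : E × E') :
    prodAct π π' a x = (π a x.1, π' a x.2) := rfl

/-- **Lifting lemma.** -/
theorem lifting (P : BanMod.{u, v} A) (hP : IsProjective P) (M : BanMod.{u, v} A)
    (M' : BanMod.{u, v} A) (b : M.carrier →L[ℂ] M'.carrier) (hb : IsMor M M' b)
    (f : P.carrier →L[ℂ] M'.carrier) (hf : IsMor P M' f) (c : M'.carrier →L[ℂ] M.carrier)
    (hc : ∀ p, b (c (f p)) = f p) :
    ∃ ψ : P.carrier →L[ℂ] M.carrier, IsMor P M ψ ∧ ∀ p, b (ψ p) = f p := by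
  set D : (P.carrier × M.carrier) →L[ℂ] M'.carrier :=
    b.comp (ContinuousLinearMap.snd ℂ _ _) - f.comp (ContinuousLinearMap.fst ℂ _ _) with hD
  set Y : Submodule ℂ (P.carrier × M.carrier) := D.ker with hY
  have hmem : ∀ x, x ∈ Y ↔ b x.2 = f x.1 := by
    intro x
    have h : D x = b x.2 - f x.1 := rfl
    show D x = 0 ↔ _
    rw [h, sub_eq_zero]
  have hinv : ∀ a, ∀ x ∈ Y, prodAct P.act M.act a x ∈ Y := by
    intro a x hx
    rw [hmem] at hx ⊢
    rw [prodAct_apply, hb, hx, hf]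
  have hcl : IsClosed (Y : Set (P.carrier × M.carrier)) := D.isClosed_ker
  have : CompleteSpace Y := hcl.completeSpace_coe
  let YY : BanMod.{u, v} A :=
    { carrier := Y
      act := resAct (prodAct P.act M.act) Y hinv
      act_mul := by
        intro a b x
        apply Subtype.ext
        rw [resAct_coe, resAct_coe, resAct_coe, prodAct_apply, prodAct_apply, prodAct_apply,
          P.act_mul, M.act_mul] }
  obtain ⟨s, hs1, hs2⟩ := hP YY ((ContinuousLinearMap.fst ℂ _ _).comp Y.subtypeL)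
    (fun a x => rfl) ⟨((ContinuousLinearMap.id ℂ _).prod (c.comp f)).codRestrict Y (by
      intro p
      rw [hmem]
      exact hc p), fun p => rfl⟩
  refine ⟨(ContinuousLinearMap.snd ℂ _ _).comp (Y.subtypeL.comp s), ?_, ?_⟩
  · intro a p
    have := congrArg (fun y : Y => (y : P.carrier × M.carrier).2) (hs1 a p)
    exact this
  · intro p
    have h1 := (hmem _).mp (s p).2
    have h2 : ((s p : P.carrier × M.carrier)).1 = p := hs2 p
    rw [h2] at h1
    exact h1

lemma exists_dep_seq {α : ℕ → Type*} (a0 : α 0) (R : ∀ n, α n → α (n + 1) → Prop)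
    (h : ∀ n a, ∃ b, R n a b) : ∃ f : ∀ n, α n, f 0 = a0 ∧ ∀ n, R n (f n) (f (n + 1)) := by
  classical
  refine ⟨fun n => Nat.rec a0 (fun n a => (h n a).choose) n, rfl, fun n => ?_⟩
  exact (h n _).choose_spec

end general

section theta

variable {G : Type u} [Group G] [TopologicalSpace G] [IsTopologicalGroup G]
  [LocallyCompactSpace G] [MeasurableSpace G] [BorelSpace G] [T2Space G]
  {H : Type*} [Group H] (ι : H →* G)
  {E E' : Type*} [NormedAddCommGroup E] [NormedSpace ℂ E] [CompleteSpace E]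
  [NormedAddCommGroup E'] [NormedSpace ℂ E'] [CompleteSpace E']
  {π : LOne G →L[ℂ] E →L[ℂ] E} {π' : LOne G →L[ℂ] E' →L[ℂ] E'}

lemma cons_smul_tail (m : ℕ) (y : Fin (m + 1) → H) :
    (y 0) • (Fin.cons (α := fun _ => H) 1 ((y 0)⁻¹ • Fin.tail y) : Fin (m + 1) → H) = y := by
  funext i
  refine Fin.cases ?_ (fun j => ?_) i
  · simp
  · simp [Fin.tail]

/-- the construction of the chain map from the free complex -/
theorem theta_lift (hπ : ∀ a b x, π (a * b) x = π a (π b x))
    (hπ' : ∀ a b x, π' (a * b) x = π' a (π' b x)) (d : E →L[ℂ] E')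
    (hd : ∀ a x, d (π a x) = π' a (d x)) (s : E' →L[ℂ] E) (Z : Submodule ℂ E')
    (hZπ : ∀ a, ∀ z ∈ Z, π' a z ∈ Z) (hds : ∀ z ∈ Z, d (s z) = z) (m : ℕ)
    (θ' : El (Fin m → H) →L[ℂ] Ess π')
    (hθ' : ∀ h z, θ' (lte m h z) = gact hπ' (ι h) (θ' z))
    (hθZ : ∀ z : El (Fin (m + 1) → H), (θ' (bde m z) : E') ∈ Z) :
    ∃ θ : El (Fin (m + 1) → H) →L[ℂ] Ess π,
      (∀ h z, θ (lte (m + 1) h z) = gact hπ (ι h) (θ z)) ∧
      ∀ z, d (θ z) = θ' (bde m z) := by
  have hex : ∀ x : Fin m → H, ∃ w : Ess π,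
      d w = θ' (bde m (del (Fin.cons (α := fun _ => H) 1 x))) ∧
      ‖w‖ ≤ ‖π‖ * ‖s‖ * 2 * (‖θ'‖ * ‖bde (H := H) m‖) := by
    intro x
    obtain ⟨w, hw, e, hn⟩ := exact_ess hπ hπ' d hd s Z hZπ hds
      (θ' (bde m (del (Fin.cons (α := fun _ => H) 1 x)))) (hθZ _) (θ' _).2
    refine ⟨⟨w, hw⟩, e, ?_⟩
    show ‖w‖ ≤ _
    refine hn.trans ?_
    gcongr
    have h1 : ‖θ' (bde m (del (Fin.cons (α := fun _ => H) 1 x)))‖ ≤
        ‖θ'‖ * (‖bde (H := H) m‖ * ‖del (Fin.cons (α := fun _ => H) 1 x)‖) :=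
      (θ'.le_opNorm _).trans (by gcongr; exact (bde m).le_opNorm _)
    rw [norm_del, mul_one] at h1
    exact h1
  choose wx hwx hwn using hex
  set C : ℝ := ‖π‖ * (‖π‖ * ‖s‖ * 2 * (‖θ'‖ * ‖bde (H := H) m‖)) with hC
  have hv : ∀ y : Fin (m + 1) → H, ‖gact hπ (ι (y 0)) (wx ((y 0)⁻¹ • Fin.tail y))‖ ≤ C := by
    intro y
    refine ((gact hπ (ι (y 0))).le_of_opNorm_le (norm_gact_le hπ _) _).trans ?_
    rw [hC]
    gcongr
    exact hwn _
  set θ : El (Fin (m + 1) → H) →L[ℂ] Ess π :=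
    lift (fun y => gact hπ (ι (y 0)) (wx ((y 0)⁻¹ • Fin.tail y))) C hv with hθ
  refine ⟨θ, ?_, ?_⟩
  · intro h z
    have : θ.comp (lte (m + 1) h) = (gact hπ (ι h)).comp θ := by
      apply El.hom_ext
      intro y
      rw [ContinuousLinearMap.comp_apply, ContinuousLinearMap.comp_apply, lte, epush_del, hθ,
        lift_del, lift_del]
      have e1 : ((h • y) 0)⁻¹ • Fin.tail (h • y) = (y 0)⁻¹ • Fin.tail y := by
        funext i
        simp [Fin.tail, mul_assoc]
      have e2 : (h • y) 0 = h * y 0 := rfl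
      rw [e1, e2, map_mul, gact_mul]
      rfl
    exact congrArg (fun f => f z) this
  · intro z
    have : (essMap d hd).comp θ = θ'.comp (bde m) := by
      apply El.hom_ext
      intro y
      rw [ContinuousLinearMap.comp_apply, ContinuousLinearMap.comp_apply, hθ, lift_del,
        essMap_gact hπ hπ']
      have e1 : essMap d hd (wx ((y 0)⁻¹ • Fin.tail y)) =
          θ' (bde m (del (Fin.cons (α := fun _ => H) 1 ((y 0)⁻¹ • Fin.tail y)))) :=
        Subtype.ext (hwx _)
      rw [e1, ← hθ', ← bde_lte, lte, epush_del, cons_smul_tail]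
    have := congrArg (fun f => ((f z : Ess π') : E')) this
    exact this

end theta

end Pool.Agent.H63.L1
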