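import Mathlib
import Pool.Agent.H63.L1.Lift

set_option autoImplicit false

/-!
# The main theorem
-/

namespace Pool.Agent.H63.L1

open MeasureTheory Measure Filter Topology Set BoundedContinuousFunction

universe u v w

set_option linter.unusedSectionVars false

variable {G : Type u} [Group G] [TopologicalSpace G] [IsTopologicalGroup G]
  [LocallyCompactSpace G] [MeasurableSpace G] [BorelSpace G] [T2Space G]

variable (G) in
/-- the modules of measures -/
noncomputable def measMod (m : ℕ) : BanMod.{u, u} (LOne G) where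
  carrier := TT (Fin m → G)
  act := actT
  act_mul := actT_mul

lemma actT_pt (a : LOne G) : actT a (pt (Fin.elim0 : Fin 0 → G)) =
    augm a • pt (Fin.elim0 : Fin 0 → G) := by
  apply TT.ext
  intro f
  rw [actT_fn, integ_apply, TT.fn_smul, _root_.smul_apply, augm_apply, smul_eq_mul,
    ← integral_mul_const]
  congr 1
  funext t
  rw [smul_eq_mul]
  congr 1
  show f (t • Fin.elim0) = f Fin.elim0
  congr 1
  exact funext fun i => i.elim0

lemma lifting_TT (P : BanMod.{u, u} (LOne G)) (hP : IsProjective P) (m : ℕ)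
    (f : P.carrier →L[ℂ] TT (Fin m → G)) (hf : ∀ a p, f (P.act a p) = actT a (f p))
    (hc : ∀ p, bdm m (push (conec m 1) (f p)) = f p) :
    ∃ ψ : P.carrier →L[ℂ] TT (Fin (m + 1) → G), (∀ a p, ψ (P.act a p) = actT a (ψ p)) ∧
      ∀ p, bdm m (ψ p) = f p :=
  lifting P hP (measMod G (m + 1)) (measMod G m) (bdm m) (fun a ω => bdm_actT m a ω) f hf
    (push (conec m 1)) hc

/-- the cycles of a resolution -/
def Zp {X : BanMod.{u, w} (LOne G)} (R : ProjRes.{u, u, w} X) :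
    (n : ℕ) → Submodule ℂ (R.P n).carrier
  | 0 => R.ε.ker
  | n + 1 => (R.d n).ker

/-- **Core theorem.** -/
theorem core [NoncompactSpace G] (X : BanMod.{u, w} (LOne G))
    (hX : ∀ a x, X.act a x = augm a • x) (ℓ : X.carrier →L[ℂ] ℂ) (x0 : X.carrier)
    (hℓ : ℓ x0 = 1) (R : ProjRes.{u, u, w} X) (N : ℕ)
    (hN : ∀ k, N < k → Subsingleton (R.P k).carrier) : False := by
  obtain ⟨H, B, hBm, hBs, hBc⟩ := exists_exhaustion (G := G)
  obtain ⟨s', s, hs1, hs2, hs3⟩ := R.admissible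
  set ι : H →* G := H.subtype with hι
  -- the map from `X` to measures on a point
  set ψX : X.carrier →L[ℂ] TT (Fin 0 → G) := ℓ.smulRight (pt Fin.elim0) with hψX
  have hψXa : ∀ x, ψX x = ℓ x • pt Fin.elim0 := fun x => rfl
  have hψXm : ∀ a x, ψX (X.act a x) = actT a (ψX x) := by
    intro a x
    rw [hψXa, hψXa, hX, map_smul, map_smul, actT_pt, smul_eq_mul, mul_smul, smul_comm]
  -- the chain map to measures
  let α : ℕ → Type u := fun n => {ψ : (R.P n).carrier →L[ℂ] TT (Fin (n + 1) → G) //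
    (∀ a x, ψ ((R.P n).act a x) = actT a (ψ x)) ∧ ∀ p, bdm n (ψ (R.d n p)) = 0}
  obtain ⟨ψ0, hψ0m, hψ0b⟩ := lifting_TT (R.P 0) (R.projective 0) 0 (ψX.comp R.ε)
    (fun a p => by
      show ψX (R.ε ((R.P 0).act a p)) = actT a (ψX (R.ε p))
      rw [R.mor_ε, hψXm]) (fun p => bdm_cone_zero 1 _)
  have hψ0b' : ∀ p, bdm 0 (ψ0 p) = ψX (R.ε p) := hψ0b
  let a0 : α 0 := ⟨ψ0, hψ0m, fun p => by rw [hψ0b', R.ε_d, map_zero]⟩
  obtain ⟨ψ, hψ0, hψ⟩ := exists_dep_seq (α := α) a0
    (fun n ψ ψ' => ∀ p, bdm (n + 1) (ψ'.1 p) = ψ.1 (R.d n p)) (by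
    intro n a
    obtain ⟨ψ', h1, h2⟩ := lifting_TT (R.P (n + 1)) (R.projective (n + 1)) (n + 1)
      (a.1.comp (R.d n))
      (fun b p => by
        show a.1 (R.d n ((R.P (n + 1)).act b p)) = actT b (a.1 (R.d n p))
        rw [R.mor_d, a.2.1]) (fun p => by
        show bdm (n + 1) (push (conec (n + 1) 1) (a.1 (R.d n p))) = a.1 (R.d n p)
        rw [bdm_cone_succ, a.2.2, map_zero, sub_zero])
    refine ⟨⟨ψ', h1, fun p => ?_⟩, h2⟩
    have := h2 (R.d (n + 1) p)
    refine (show bdm (n + 1) (ψ' (R.d (n + 1) p)) = a.1 (R.d n (R.d (n + 1) p)) from this).trans ?_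
    rw [R.d_d, map_zero])
  have hψzero : (ψ 0).1 = ψ0 := by rw [hψ0]
  -- the chain map from the free complex
  have hx0 : x0 ∈ Ess X.act := by
    have : x0 = X.act (app default) x0 := by rw [hX, augm_app, one_smul]
    rw [this]
    exact gen_mem _ _ _
  have hXtriv : ∀ (g : G) (w : Ess X.act), gact X.act_mul g w = w := by
    intro g w
    apply Subtype.ext
    refine tendsto_nhds_unique (tendsto_gact X.act_mul g w) ?_
    refine tendsto_const_nhds.congr fun i => ?_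
    rw [hX, augm_lam, augm_app, one_smul]
  set θX : El (Fin 0 → H) →L[ℂ] Ess X.act := 
    lift (fun _ => (⟨x0, hx0⟩ : Ess X.act)) ‖(⟨x0, hx0⟩ : Ess X.act)‖ (fun _ => le_rfl) with hθX
  have hθXe : ∀ h z, θX (lte 0 h z) = gact X.act_mul (ι h) (θX z) := by
    intro h z
    rw [hXtriv]
    have : θX.comp (lte 0 h) = θX := by
      apply El.hom_ext
      intro x
      rw [ContinuousLinearMap.comp_apply, lte, epush_del, hθX, lift_del, lift_del]
    exact congrArg (fun f => f z) this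
  have hZinv : ∀ n a, ∀ z ∈ Zp R n, (R.P n).act a z ∈ Zp R n := by
    intro n a z hz
    cases n with
    | zero =>
      have hz : R.ε z = 0 := hz
      show R.ε _ = 0
      rw [R.mor_ε, hz, map_zero]
    | succ n =>
      have hz : R.d n z = 0 := hz
      show R.d n _ = 0
      rw [R.mor_d, hz, map_zero]
  have hZs : ∀ n, ∀ z ∈ Zp R n, R.d n (s n z) = z := by
    intro n z hz
    cases n with
    | zero =>
      have hz : R.ε z = 0 := hz
      have := hs2 z
      rwa [hz, map_zero, zero_add] at this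
    | succ n =>
      have hz : R.d n z = 0 := hz
      have := hs3 n z
      rwa [hz, map_zero, zero_add] at this
  let β : ℕ → Type _ := fun n => {θ : El (Fin (n + 1) → H) →L[ℂ] Ess (R.P n).act //
    (∀ h z, θ (lte (n + 1) h z) = gact (R.P n).act_mul (ι h) (θ z)) ∧
    ∀ z, (θ (bde (n + 1) z) : (R.P n).carrier) ∈ Zp R n}
  obtain ⟨θ0, hθ0e, hθ0d⟩ := theta_lift ι (R.P 0).act_mul X.act_mul R.ε R.mor_ε s' ⊤
    (fun _ _ _ => trivial) (fun z _ => hs1 z) 0 θX hθXe (fun _ => trivial)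
  let b0 : β 0 := ⟨θ0, hθ0e, fun z => by
    show R.ε _ = 0
    rw [hθ0d, bde_bde, map_zero]
    rfl⟩
  obtain ⟨θ, hθ0, hθ⟩ := exists_dep_seq (α := β) b0
    (fun n θ θ' => ∀ z, R.d n (θ'.1 z) = θ.1 (bde (n + 1) z)) (by
    intro n a
    obtain ⟨θ', h1, h2⟩ := theta_lift ι (R.P (n + 1)).act_mul (R.P n).act_mul (R.d n) (R.mor_d n)
      (s n) (Zp R n) (hZinv n) (hZs n) (n + 1) a.1 a.2.1 a.2.2
    refine ⟨⟨θ', h1, fun z => ?_⟩, h2⟩
    show R.d n _ = 0
    rw [h2, bde_bde, map_zero]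
    rfl)
  have hθzero : (θ 0).1 = θ0 := by rw [hθ0]
  -- the composition
  let Θ : ∀ n, El (Fin n → H) →L[ℂ] TT (Fin n → G) := fun n => match n with
    | 0 => ψX.comp ((Ess X.act).subtypeL.comp θX)
    | n + 1 => (ψ n).1.comp ((Ess (R.P n).act).subtypeL.comp (θ n).1)
  refine no_chain ι B hBm hBs hBc Θ ?_ ?_ (N + 2) ?_ ?_
  · intro n z
    cases n with
    | zero =>
      show bdm 0 ((ψ 0).1 ((θ 0).1 z)) = ψX (θX (bde 0 z))
      rw [hψzero, hψ0b', hθzero, hθ0d]
    | succ n =>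
      show bdm (n + 1) ((ψ (n + 1)).1 ((θ (n + 1)).1 z)) = (ψ n).1 ((θ n).1 (bde (n + 1) z))
      rw [hψ, hθ]
  · intro n h z
    cases n with
    | zero =>
      show ψX (θX (lte 0 h z)) = ltm (ι h) (ψX (θX z))
      rw [hθXe, mor_gact X.act_mul ψX hψXm]
    | succ n =>
      show (ψ n).1 ((θ n).1 (lte (n + 1) h z)) = ltm (ι h) ((ψ n).1 ((θ n).1 z))
      rw [(θ n).2.1, mor_gact (R.P n).act_mul (ψ n).1 (ψ n).2.1]
  · ext z
    have := hN (N + 1) (Nat.lt_succ_self N)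
    show (ψ (N + 1)).1 ((θ (N + 1)).1 z : (R.P (N + 1)).carrier) = 0
    rw [Subsingleton.elim ((θ (N + 1)).1 z : (R.P (N + 1)).carrier) 0, map_zero]
  · show (ψX (θX (del Fin.elim0))).fn 1 ≠ 0
    rw [hψXa, hθX, lift_del, hℓ, one_smul, pt_fn]
    simp

end Pool.Agent.H63.L1
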