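import Mathlib
import Pool.Agent.H63.L1.LOneRing

set_option autoImplicit false

/-!
# Banach modules, projective modules, resolutions, homological dimensions
-/

namespace Pool.Agent.H63.L1

open MeasureTheory Measure

universe u v w

section general

variable (A : Type u) [NonUnitalNormedRing A] [NormedSpace ℂ A]

/-- A left Banach module over the Banach algebra `A`: a complex Banach space with a bounded
bilinear action of `A` such that `(ab)x = a(bx)`. -/
structure BMod where
  /-- the underlying Banach space -/
  carrier : Type v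
  [grp : NormedAddCommGroup carrier]
  [nsp : NormedSpace ℂ carrier]
  [cpl : CompleteSpace carrier]
  /-- the action -/
  act : A → carrier → carrier
  bdd : IsBoundedBilinearMap ℂ (fun p : A × carrier => act p.1 p.2)
  act_mul : ∀ (a b : A) (x : carrier), act (a * b) x = act a (act b x)

attribute [instance] BMod.grp BMod.nsp BMod.cpl

variable {A}

/-- Morphisms of left Banach modules: bounded linear maps commuting with the action. -/
structure IsMorphism (X : BMod.{u, v} A) (Y : BMod.{u, w} A) (f : X.carrier → Y.carrier) :
    Prop where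
  bdd : IsBoundedLinearMap ℂ f
  equiv : ∀ (a : A) (x : X.carrier), f (X.act a x) = Y.act a (f x)

/-- A left Banach module `P` is projective if every morphism `Y → P` with a bounded linear right
inverse has a right inverse which is a morphism. -/
def BMod.Projective (P : BMod.{u, v} A) : Prop :=
  ∀ (Y : BMod.{u, v} A) (φ : Y.carrier → P.carrier), IsMorphism Y P φ →
    (∃ r : P.carrier → Y.carrier, IsBoundedLinearMap ℂ r ∧ ∀ p, φ (r p) = p) →
    ∃ s : P.carrier → Y.carrier, IsMorphism P Y s ∧ ∀ p, φ (s p) = p

/-- A projective resolution `0 ← X ← P 0 ← P 1 ← ...` of a left Banach module: a complex of modules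
with all `P n` projective, which splits as a complex of Banach spaces. -/
structure Resolution (X : BMod.{u, w} A) where
  P : ℕ → BMod.{u, v} A
  projective : ∀ n, (P n).Projective
  ε : (P 0).carrier → X.carrier
  d : ∀ n, (P (n + 1)).carrier → (P n).carrier
  mor_ε : IsMorphism (P 0) X ε
  mor_d : ∀ n, IsMorphism (P (n + 1)) (P n) (d n)
  ε_d : ∀ x, ε (d 0 x) = 0
  d_d : ∀ n x, d n (d (n + 1) x) = 0
  /-- the complex splits: there is a bounded linear contracting homotopy -/
  splits : ∃ (s' : X.carrier → (P 0).carrier) (s : ∀ n, (P n).carrier → (P (n + 1)).carrier),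
    IsBoundedLinearMap ℂ s' ∧ (∀ n, IsBoundedLinearMap ℂ (s n)) ∧
    (∀ x, ε (s' x) = x) ∧ (∀ p, s' (ε p) + d 0 (s 0 p) = p) ∧
      ∀ n p, s n (d n p) + d (n + 1) (s (n + 1) p) = p

/-- The homological dimension `dh_A X`: the least `n` such that `X` has a projective resolution
with `P k = 0` for all `k > n`, and `∞` if there is none. -/
noncomputable def dh (X : BMod.{u, w} A) : ℕ∞ :=
  ⨅ (n : ℕ) (_ : ∃ R : Resolution.{u, v, w} X, ∀ k, n < k → Subsingleton (R.P k).carrier), (n : ℕ∞)

/-- An irreducible module: the action is non-zero and there is no invariant subspace other than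
`0` and the whole space. -/
def BMod.Irreducible (X : BMod.{u, w} A) : Prop :=
  (∃ a x, X.act a x ≠ 0) ∧
    ∀ S : Submodule ℂ X.carrier, (∀ a, ∀ x ∈ S, X.act a x ∈ S) → S = ⊥ ∨ S = ⊤

variable (A)

/-- The left global dimension. -/
noncomputable def dg : ℕ∞ := ⨆ X : BMod.{u, u} A, dh.{u, u, u} X

/-- The left small dimension. -/
noncomputable def ds : ℕ∞ := ⨆ (X : BMod.{u, u} A) (_ : X.Irreducible), dh.{u, u, u} X

end general

/-- The augmentation module `ℂ` of `L¹(G)`, with `f · z = (∫ f) z`. -/
noncomputable def augMod (G : Type u) [Group G] [TopologicalSpace G] [IsTopologicalGroup G]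
    [LocallyCompactSpace G] [MeasurableSpace G] [BorelSpace G] [T2Space G] :
    BMod.{u, 0} (LOne G) where
  carrier := ℂ
  act f z := (∫ t, f.fn t ∂(haar : Measure G)) * z
  bdd := by
    have h : (fun p : LOne G × ℂ => (∫ t, p.1.fn t ∂(haar : Measure G)) * p.2) =
        fun p : LOne G × ℂ => (ContinuousLinearMap.mul ℂ ℂ).comp augm p.1 p.2 := by
      funext p
      rw [← augm_apply]
      rfl
    rw [h]
    exact ContinuousLinearMap.isBoundedBilinearMap _
  act_mul a b x := by
    rw [← augm_apply, ← augm_apply, ← augm_apply, augm_mul, mul_assoc]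

end Pool.Agent.H63.L1
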