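import Mathlib
import Pool.Agent.H63.L1.Main
import Pool.Agent.H63.L1.Stmt

set_option autoImplicit false

/-!
# The homological dimensions are infinite
-/

namespace Pool.Agent.H63.L1

open MeasureTheory Measure

universe u v w

section conversion

variable {A : Type u} [NonUnitalNormedRing A] [NormedSpace ℂ A]

/-- bundled form of a module -/
noncomputable def BMod.toBan (X : BMod.{u, v} A) : BanMod.{u, v} A where
  carrier := X.carrier
  act := X.bdd.toContinuousLinearMap
  act_mul := X.act_mul

/-- unbundled form of a module -/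
noncomputable def BanMod.toB (X : BanMod.{u, v} A) : BMod.{u, v} A where
  carrier := X.carrier
  act a x := X.act a x
  bdd := ContinuousLinearMap.isBoundedBilinearMap X.act
  act_mul := X.act_mul

lemma BMod.Projective.toBan {P : BMod.{u, v} A} (hP : P.Projective) : IsProjective P.toBan := by
  intro Y φ hφ ⟨r, hr⟩
  obtain ⟨s, hs1, hs2⟩ := hP Y.toB φ ⟨φ.isBoundedLinearMap, hφ⟩ ⟨r, r.isBoundedLinearMap, hr⟩
  exact ⟨hs1.bdd.toContinuousLinearMap, hs1.equiv, hs2⟩

/-- bundled form of a resolution -/
noncomputable def Resolution.toBan {X : BMod.{u, w} A} (R : Resolution.{u, v, w} X) :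
    ProjRes.{u, v, w} X.toBan where
  P n := (R.P n).toBan
  projective n := (R.projective n).toBan
  ε := R.mor_ε.bdd.toContinuousLinearMap
  d n := (R.mor_d n).bdd.toContinuousLinearMap
  mor_ε := R.mor_ε.equiv
  mor_d n := (R.mor_d n).equiv
  ε_d := R.ε_d
  d_d := R.d_d
  admissible := by
    obtain ⟨s', s, h1, h2, h3, h4, h5⟩ := R.splits
    exact ⟨h1.toContinuousLinearMap, fun n => (h2 n).toContinuousLinearMap, h3, h4, h5⟩

end conversion

variable (G : Type u) [Group G] [TopologicalSpace G] [IsTopologicalGroup G]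
  [LocallyCompactSpace G] [MeasurableSpace G] [BorelSpace G] [T2Space G]

theorem dh_eq_top_of [NoncompactSpace G] (X : BMod.{u, w} (LOne G))
    (hX : ∀ a x, X.act a x = augm a • x) (ℓ : X.carrier →L[ℂ] ℂ) (x0 : X.carrier)
    (hℓ : ℓ x0 = 1) : dh.{u, u, w} X = ⊤ := by
  unfold dh
  simp only [iInf_eq_top]
  rintro n ⟨R, hR⟩
  exact (core X.toBan hX ℓ x0 hℓ R.toBan n hR).elim

/-- the augmentation module in the universe of `G` -/
noncomputable def augModU : BanMod.{u, u} (LOne G) where
  carrier := ULift.{u} ℂ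
  act := augm.smulRight (ContinuousLinearMap.id ℂ (ULift.{u} ℂ))
  act_mul a b x := by
    show augm (a * b) • x = augm a • augm b • x
    rw [augm_mul, mul_smul]

lemma augModU_irreducible : (augModU G).toB.Irreducible := by
  refine ⟨⟨app default, ULift.up 1, ?_⟩, fun S _ => ?_⟩
  · show augm (app default) • (ULift.up 1 : ULift.{u} ℂ) ≠ 0
    rw [augm_app, one_smul]
    intro h
    exact one_ne_zero (congrArg ULift.down h)
  · by_cases h : S = ⊥
    · exact Or.inl h
    · right
      obtain ⟨x, hx, hx0⟩ := Submodule.exists_mem_ne_zero_of_ne_bot h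
      rw [eq_top_iff]
      intro y _
      let x' : ULift.{u} ℂ := x
      let y' : ULift.{u} ℂ := y
      have hx0' : x'.down ≠ 0 := fun h0 => hx0 (ULift.ext _ _ h0)
      have : y = (y'.down / x'.down) • x := by
        apply ULift.ext (x := y') (y := (y'.down / x'.down) • x')
        show y'.down = (y'.down / x'.down) * x'.down
        rw [div_mul_cancel₀ _ hx0']
      rw [this]
      exact S.smul_mem _ hx

theorem dh_augMod [NoncompactSpace G] : dh.{u, u, 0} (augMod G) = ⊤ :=
  dh_eq_top_of G (augMod G) (fun a x => by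
    rw [augm_apply]
    rfl) (ContinuousLinearMap.id ℂ ℂ) (1 : ℂ) rfl

theorem dh_augModU [NoncompactSpace G] : dh.{u, u, u} (augModU G).toB = ⊤ :=
  dh_eq_top_of G (augModU G).toB (fun _ _ => rfl)
    (ContinuousLinearEquiv.ulift (R₁ := ℂ) (M₁ := ℂ) : ULift.{u} ℂ →L[ℂ] ℂ)
    (ULift.up 1 : ULift.{u} ℂ) rfl

theorem ds_eq_top [NoncompactSpace G] : ds (LOne G) = ⊤ := by
  rw [eq_top_iff, ← dh_augModU G]
  exact le_iSup₂_of_le (augModU G).toB (augModU_irreducible G) le_rfl

theorem dg_eq_top [NoncompactSpace G] : dg (LOne G) = ⊤ := by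
  rw [eq_top_iff, ← dh_augModU G]
  exact le_iSup_of_le (augModU G).toB le_rfl

end Pool.Agent.H63.L1
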